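import Pool.Agent.Helper71q.Gap

set_option autoImplicit false
set_option linter.unusedSectionVars false

namespace Pool.Agent.Helper71q
open Finset Filter Topology

/-- `GL₂(ℤ)` -/
abbrev G0 : Type := (Matrix (Fin 2) (Fin 2) ℤ)ˣ

/-- an involution -/
def a0 : G0 := ⟨!![1, 0; 0, -1], !![1, 0; 0, -1], by decide, by decide⟩

/-- an element of order three -/
def b0 : G0 := ⟨!![0, -1; 1, -1], !![-1, 1; -1, 0], by decide, by decide⟩

/-- the two elements generate a copy of `ℤ₂ * ℤ₃` -/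
def f0 : FreeGroup (Fin 2) →* G0 := FreeGroup.lift ![a0, b0]

theorem f0_0 : f0 (.of 0) = a0 := by simp [f0]
theorem f0_1 : f0 (.of 1) = b0 := by simp [f0]

/-- the group -/
abbrev GG : Type := f0.range

/-- the surjection onto it -/
def fG : FreeGroup (Fin 2) →* GG := f0.rangeRestrict

theorem fG_val (w : FreeGroup (Fin 2)) : ((fG w : GG) : G0) = f0 w := rfl

theorem fG_surj : Function.Surjective fG := f0.rangeRestrict_surjective

/-- the first and second coordinate of `g (√2, 1)` -/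
noncomputable def cP (g : G0) : ℝ := (g.val 0 0 : ℝ) * √2 + (g.val 0 1 : ℝ)
noncomputable def cQ (g : G0) : ℝ := (g.val 1 0 : ℝ) * √2 + (g.val 1 1 : ℝ)

theorem indep {x y : ℤ} (h : (x : ℝ) * √2 + (y : ℝ) = 0) : x = 0 ∧ y = 0 := by
  by_cases hx : x = 0
  · subst hx
    refine ⟨rfl, ?_⟩
    have : (y : ℝ) = 0 := by simpa using h
    exact_mod_cast this
  · exfalso
    have hx' : (x : ℝ) ≠ 0 := by exact_mod_cast hx
    have h1 : √2 = ((-y / x : ℚ) : ℝ) := by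
      push_cast
      rw [eq_div_iff hx']
      linarith
    exact irrational_sqrt_two ⟨_, h1.symm⟩

theorem det_ne (g : G0) : g.val 0 0 * g.val 1 1 - g.val 0 1 * g.val 1 0 ≠ 0 := by
  intro h
  have h1 : g.val.det = 0 := by rw [Matrix.det_fin_two]; exact h
  have h2 : (g.val * g.inv).det = 1 := by rw [g.val_inv, Matrix.det_one]
  rw [Matrix.det_mul, h1, zero_mul] at h2
  exact zero_ne_one h2

theorem cP_ne (g : G0) : cP g ≠ 0 := fun h => by
  obtain ⟨h1, h2⟩ := indep h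
  exact det_ne g (by rw [h1, h2]; ring)

theorem cQ_ne (g : G0) : cQ g ≠ 0 := fun h => by
  obtain ⟨h1, h2⟩ := indep h
  exact det_ne g (by rw [h1, h2]; ring)

theorem cPQ_ne (g : G0) : cP g - cQ g ≠ 0 := fun h => by
  have h0 : ((g.val 0 0 - g.val 1 0 : ℤ) : ℝ) * √2 + ((g.val 0 1 - g.val 1 1 : ℤ) : ℝ) = 0 := by
    unfold cP cQ at h
    push_cast
    linarith
  obtain ⟨h1, h2⟩ := indep h0
  have h3 : g.val 0 0 = g.val 1 0 := by linarith
  have h4 : g.val 0 1 = g.val 1 1 := by linarith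
  exact det_ne g (by rw [h3, h4]; ring)

theorem ca0 (g : G0) : cP (a0 * g) = cP g ∧ cQ (a0 * g) = -cQ g := by
  unfold cP cQ
  have h : (a0 * g).val = !![1, 0; 0, -1] * g.val := rfl
  rw [h]
  constructor
  · simp [Matrix.mul_apply, Fin.sum_univ_two]
  · simp [Matrix.mul_apply, Fin.sum_univ_two]; ring

theorem cb0 (g : G0) : cP (b0 * g) = -cQ g ∧ cQ (b0 * g) = cP g - cQ g := by
  unfold cP cQ
  have h : (b0 * g).val = !![0, -1; 1, -1] * g.val := rfl
  rw [h]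
  constructor
  · simp [Matrix.mul_apply, Fin.sum_univ_two]; ring
  · simp [Matrix.mul_apply, Fin.sum_univ_two]; ring

/-- the paradoxical set -/
def UU : Set GG := {g | cP g * cQ g < 0}

theorem UU_a (g : GG) : fG (.of 0) * g ∈ UU ↔ g ∉ UU := by
  change cP (f0 (.of 0) * g) * cQ (f0 (.of 0) * g) < 0 ↔ ¬ cP g * cQ g < 0
  rw [f0_0, (ca0 g).1, (ca0 g).2]
  have h : cP (g : G0) * cQ g ≠ 0 := mul_ne_zero (cP_ne _) (cQ_ne _)
  constructor
  · intro h1 h2; nlinarith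
  · intro h1
    have := lt_of_le_of_ne (not_lt.1 h1) (Ne.symm h)
    nlinarith

theorem UU_b (g : GG) : (g ∈ UU ∧ fG (.of 1) * g ∉ UU ∧ fG (.of 1) * fG (.of 1) * g ∉ UU) ∨
    (g ∉ UU ∧ fG (.of 1) * g ∈ UU ∧ fG (.of 1) * fG (.of 1) * g ∉ UU) ∨
    (g ∉ UU ∧ fG (.of 1) * g ∉ UU ∧ fG (.of 1) * fG (.of 1) * g ∈ UU) := by
  have e1 : fG (.of 1) * g ∈ UU ↔ -cQ (g : G0) * (cP g - cQ g) < 0 := by
    change cP (f0 (.of 1) * g) * cQ (f0 (.of 1) * g) < 0 ↔ _
    rw [f0_1, (cb0 g).1, (cb0 g).2]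
  have e2 : fG (.of 1) * fG (.of 1) * g ∈ UU ↔ -(cP (g : G0) - cQ g) * (-cQ g - (cP g - cQ g)) < 0 := by
    change cP (f0 (.of 1) * f0 (.of 1) * g) * cQ (f0 (.of 1) * f0 (.of 1) * g) < 0 ↔ _
    rw [f0_1, mul_assoc, (cb0 (b0 * g)).1, (cb0 (b0 * g)).2, (cb0 g).1, (cb0 g).2]
  have e3 : g ∈ UU ↔ cP (g : G0) * cQ g < 0 := Iff.rfl
  rw [e1, e2, e3]
  have h1 := cP_ne (g : G0)
  have h2 := cQ_ne (g : G0)
  have h3 := cPQ_ne (g : G0)
  generalize cP (g : G0) = p at *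
  generalize cQ (g : G0) = q at *
  have i1 : -q * (p - q) < 0 ↔ 0 < q * (p - q) := by constructor <;> intro h <;> linarith
  have i2 : -(p - q) * (-q - (p - q)) < 0 ↔ p * (p - q) < 0 := by
    constructor <;> intro h <;> nlinarith
  rw [i1, i2]
  rcases lt_or_gt_of_ne h1 with p1 | p1 <;> rcases lt_or_gt_of_ne h2 with q1 | q1 <;>
    rcases lt_or_gt_of_ne h3 with r1 | r1
  · right; left
    exact ⟨not_lt.2 (mul_nonneg_of_nonpos_of_nonpos p1.le q1.le), mul_pos_of_neg_of_neg q1 r1,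
      not_lt.2 (mul_nonneg_of_nonpos_of_nonpos p1.le r1.le)⟩
  · right; right
    exact ⟨not_lt.2 (mul_nonneg_of_nonpos_of_nonpos p1.le q1.le),
      not_lt.2 (mul_nonpos_of_nonpos_of_nonneg q1.le r1.le), mul_neg_of_neg_of_pos p1 r1⟩
  · left
    exact ⟨mul_neg_of_neg_of_pos p1 q1, not_lt.2 (mul_nonpos_of_nonneg_of_nonpos q1.le r1.le),
      not_lt.2 (mul_nonneg_of_nonpos_of_nonpos p1.le r1.le)⟩
  · exact absurd r1 (not_lt.2 (by linarith))
  · exact absurd r1 (not_lt.2 (by linarith))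
  · left
    exact ⟨mul_neg_of_pos_of_neg p1 q1, not_lt.2 (mul_nonpos_of_nonpos_of_nonneg q1.le r1.le),
      not_lt.2 (mul_nonneg p1.le r1.le)⟩
  · right; right
    exact ⟨not_lt.2 (mul_nonneg p1.le q1.le), not_lt.2 (mul_nonpos_of_nonneg_of_nonpos q1.le r1.le),
      mul_neg_of_pos_of_neg p1 r1⟩
  · right; left
    exact ⟨not_lt.2 (mul_nonneg p1.le q1.le), mul_pos q1 r1, not_lt.2 (mul_nonneg p1.le r1.le)⟩

theorem fG_a : fG (.of 0) * fG (.of 0) = 1 := by
  apply Subtype.ext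
  change f0 (.of 0) * f0 (.of 0) = 1
  rw [f0_0]
  exact Units.ext (by decide)

theorem fG_b : fG (.of 1) * fG (.of 1) * fG (.of 1) = 1 := by
  apply Subtype.ext
  change f0 (.of 1) * f0 (.of 1) * f0 (.of 1) = 1
  rw [f0_1]
  exact Units.ext (by decide)

theorem gapG : ‖Zop (fG (.of 0)) (fG (.of 1))‖ ≤ 1 - 1 / 4800 :=
  gap1 fG_a fG_b UU_a UU_b

/-- reduction modulo `m` -/
def red (m : ℕ) : GG →* (Matrix (Fin 2) (Fin 2) (ZMod m))ˣ :=
  (Units.map (RingHom.toMonoidHom (RingHom.mapMatrix (m := Fin 2) (Int.castRingHom (ZMod m))))).comp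
    f0.range.subtype

/-- the finite quotients -/
abbrev Gm (m : ℕ) : Type := (red m).range

def qm (m : ℕ) : GG →* Gm m := (red m).rangeRestrict

theorem qm_surj (m : ℕ) : Function.Surjective (qm m) := (red m).rangeRestrict_surjective

theorem red_val (m : ℕ) (g : GG) (i j : Fin 2) : (red m g).val i j = ((g : G0).val i j : ZMod m) :=
  rfl

theorem qm_faithful {g : GG} (hg : g ≠ 1) : ∀ᶠ m in atTop, qm m g ≠ 1 := by
  have h1 : ∃ i j, (g : G0).val i j ≠ (1 : Matrix (Fin 2) (Fin 2) ℤ) i j := by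
    by_contra hcon
    push Not at hcon
    exact hg (Subtype.ext (Units.ext (Matrix.ext hcon)))
  obtain ⟨i, j, hij⟩ := h1
  set N : ℤ := (g : G0).val i j - (1 : Matrix (Fin 2) (Fin 2) ℤ) i j with hN
  have hN0 : N ≠ 0 := sub_ne_zero.2 hij
  filter_upwards [eventually_gt_atTop N.natAbs] with m hm h
  have h2 : red m g = 1 := congrArg Subtype.val h
  have h3 : (red m g).val i j = (1 : Matrix (Fin 2) (Fin 2) (ZMod m)) i j := by rw [h2]; rfl
  rw [red_val] at h3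
  have h4 : ((N : ℤ) : ZMod m) = 0 := by
    rw [hN]
    push_cast
    rw [h3, Matrix.one_apply, Matrix.one_apply]
    split_ifs <;> simp
  rw [ZMod.intCast_zmod_eq_zero_iff_dvd] at h4
  have h5 := Int.natAbs_dvd_natAbs.2 h4
  rw [Int.natAbs_natCast] at h5
  exact absurd (Nat.le_of_dvd (Int.natAbs_pos.2 hN0) h5) (not_le.2 hm)

end Pool.Agent.Helper71q
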