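import Pool.Agent.Helper71q.Fdim

set_option autoImplicit false
set_option linter.unusedSectionVars false

namespace Pool.Agent.Helper71q
open Pool.Agent.H75.QP Pool.Agent.H75 Finset Topology Filter
open scoped InnerProductSpace ComplexOrder Matrix.Norms.L2Operator

/-- the normalised matrix trace -/
noncomputable def tN (N : ℕ) : Matrix (Fin N) (Fin N) ℂ →L[ℂ] ℂ :=
  (1 / N : ℂ) • LinearMap.toContinuousLinearMap (Matrix.traceLinearMap (Fin N) ℂ ℂ)

theorem tN_apply (N : ℕ) (M : Matrix (Fin N) (Fin N) ℂ) : tN N M = 1 / N * M.trace := rfl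

theorem tN_tr {N : ℕ} (hN : 0 < N) : IsTrace (tN N) := by
  have h0 : (N : ℂ) ≠ 0 := Nat.cast_ne_zero.2 hN.ne'
  refine ⟨?_, fun M => ?_, fun M M' => ?_⟩
  · rw [tN_apply, Matrix.trace_one, Fintype.card_fin]
    exact one_div_mul_cancel h0
  · rw [tN_apply, Matrix.star_eq_conjTranspose]
    refine mul_nonneg ?_ (Matrix.posSemidef_conjTranspose_mul_self M).trace_nonneg
    have : (1 / N : ℂ) = ((1 / N : ℝ) : ℂ) := by push_cast; rfl
    rw [this]
    exact Complex.zero_le_real.2 (by positivity)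
  · rw [tN_apply, tN_apply, Matrix.trace_mul_comm]

section
variable {A : Type} [CStarAlgebra A]

/-- a finite dimensional representation as matrices, amplified -/
theorem amp {H : Type} [NormedAddCommGroup H] [InnerProductSpace ℂ H] [CompleteSpace H]
    (π : A →⋆ₐ[ℂ] (H →L[ℂ] H)) {d k N : ℕ} (e : OrthonormalBasis (Fin d) ℂ H)
    (hN : N = d * k) (hN0 : 0 < N) : ∃ ρ : A →⋆ₐ[ℂ] Matrix (Fin N) (Fin N) ℂ,
    ∀ a, tN N (ρ a) = 1 / d * ∑ i, ⟪e i, π a (e i)⟫_ℂ := by
  let q : Fin d × Fin k ≃ Fin N := finProdFinEquiv.trans (finCongr hN.symm)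
  let m : A → Matrix (Fin N) (Fin N) ℂ := fun a => Matrix.of fun I J =>
    if (q.symm I).2 = (q.symm J).2 then ⟪e (q.symm I).1, π a (e (q.symm J).1)⟫_ℂ else 0
  have hm : ∀ a I J, m a I J =
    if (q.symm I).2 = (q.symm J).2 then ⟪e (q.symm I).1, π a (e (q.symm J).1)⟫_ℂ else 0 :=
    fun _ _ _ => rfl
  have hone : m 1 = 1 := by
    ext I J
    rw [hm, Matrix.one_apply, map_one]
    change (if _ then ⟪e (q.symm I).1, e (q.symm J).1⟫_ℂ else 0) = _
    rw [orthonormal_iff_ite.1 e.orthonormal]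
    by_cases h : I = J
    · subst h; simp
    · rw [if_neg h]
      by_cases h2 : (q.symm I).2 = (q.symm J).2
      · rw [if_pos h2, if_neg]
        intro h1
        exact h (q.symm.injective (Prod.ext h1 h2))
      · rw [if_neg h2]
  have hadd : ∀ a b, m (a + b) = m a + m b := fun a b => by
    ext I J
    rw [Matrix.add_apply, hm, hm, hm, map_add]
    split_ifs
    · rw [ContinuousLinearMap.add_apply, inner_add_right]
    · rw [add_zero]
  have hsmul : ∀ (c : ℂ) a, m (c • a) = c • m a := fun c a => by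
    ext I J
    rw [Matrix.smul_apply, hm, hm, map_smul]
    split_ifs
    · rw [ContinuousLinearMap.smul_apply, inner_smul_right, smul_eq_mul]
    · rw [smul_zero]
  have hmul : ∀ a b, m (a * b) = m a * m b := fun a b => by
    ext I J
    rw [Matrix.mul_apply, ← q.sum_comp, Fintype.sum_prod_type, hm]
    simp only [hm, Equiv.symm_apply_apply]
    have key : ⟪e (q.symm I).1, π (a * b) (e (q.symm J).1)⟫_ℂ =
        ∑ i, ⟪e (q.symm I).1, π a (e i)⟫_ℂ * ⟪e i, π b (e (q.symm J).1)⟫_ℂ := by
      rw [map_mul]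
      change ⟪e (q.symm I).1, π a (π b (e (q.symm J).1))⟫_ℂ = _
      rw [← ContinuousLinearMap.adjoint_inner_left, ← e.sum_inner_mul_inner]
      refine sum_congr rfl fun i _ => ?_
      rw [ContinuousLinearMap.adjoint_inner_left]
    rw [key]
    by_cases h : (q.symm I).2 = (q.symm J).2
    · rw [if_pos h]
      refine sum_congr rfl fun i _ => ?_
      rw [sum_eq_single (q.symm I).2]
      · rw [if_pos rfl, if_pos h]
      · intro l _ hl
        rw [if_neg (Ne.symm hl), zero_mul]
      · intro h; exact absurd (mem_univ _) h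
    · rw [if_neg h]
      refine (sum_eq_zero fun i _ => sum_eq_zero fun l _ => ?_).symm
      by_cases h1 : (q.symm I).2 = l
      · rw [if_neg (fun h2 => h (h1.trans h2)), mul_zero]
      · rw [if_neg h1, zero_mul]
  have hstar : ∀ a, m (star a) = star (m a) := fun a => by
    ext I J
    rw [Matrix.star_apply, hm, hm, map_star]
    by_cases h : (q.symm I).2 = (q.symm J).2
    · rw [if_pos h, if_pos h.symm, ContinuousLinearMap.star_eq_adjoint,
        ContinuousLinearMap.adjoint_inner_right, ← inner_conj_symm]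
      rfl
    · rw [if_neg h, if_neg (Ne.symm h), star_zero]
  refine ⟨{ toFun := m, map_one' := hone, map_mul' := hmul, map_zero' := ?_, map_add' := hadd,
            commutes' := ?_, map_star' := hstar }, fun a => ?_⟩
  · have := hsmul 0 0
    simpa using this
  · intro c
    rw [Algebra.algebraMap_eq_smul_one, Algebra.algebraMap_eq_smul_one, hsmul, hone]
  · change tN N (m a) = _
    rw [tN_apply, Matrix.trace, ← q.sum_comp, Fintype.sum_prod_type]
    simp only [Matrix.diag_apply, hm, Equiv.symm_apply_apply, if_true, sum_const, card_univ,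
      Fintype.card_fin, nsmul_eq_mul]
    rw [← mul_sum, ← mul_assoc]
    congr 1
    subst hN
    have hd : (d : ℂ) ≠ 0 := Nat.cast_ne_zero.2 (Nat.pos_of_mul_pos_right hN0).ne'
    have hk : (k : ℂ) ≠ 0 := Nat.cast_ne_zero.2 (Nat.pos_of_mul_pos_left hN0).ne'
    push_cast
    field_simp

/-- extreme traces are matrix traces -/
theorem ext_mat {ι : Type} [Fintype ι] [DecidableEq ι] (x : ι → A) (hsa : ∀ i, star (x i) = x i)
    (hc : ∀ i j, x i * x j = x j * x i ∨ x i * x j = -(x j * x i))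
    (hgen : ∀ S : StarSubalgebra ℂ A, IsClosed (S : Set A) → (∀ i, x i ∈ S) → ∀ a, a ∈ S) :
    ∀ f ∈ (TS A).extremePoints ℝ,
      ∃ ρ : A →⋆ₐ[ℂ] Matrix (Fin (Fintype.card {l : List ι // l.Nodup}).factorial)
        (Fin (Fintype.card {l : List ι // l.Nodup}).factorial) ℂ,
      ∀ a, f a = tN (Fintype.card {l : List ι // l.Nodup}).factorial (ρ a) := by
  intro f hf
  have hf1 := (mem_extremePoints.1 hf).1
  obtain ⟨H, _, _, _, M, Ω, π, hn, htr, hmem, hval', hd⟩ := gns (TS.isTrace hf1)
  have hval : ∀ a, ⟪Ω, π a Ω⟫_ℂ = f a := hval'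
  obtain ⟨hfin, hrk⟩ := fdim x hsa hc hgen hf hval hd
  set N := (Fintype.card {l : List ι // l.Nodup}).factorial with hN
  set d := Module.finrank ℂ H with hdd
  have hd0 : 0 < d := by
    have : Nontrivial H := nontrivial_of_ne Ω 0 fun h => by rw [h, norm_zero] at hn; exact zero_ne_one hn
    exact Module.finrank_pos
  have hdvd : d ∣ N := Nat.dvd_factorial hd0 hrk
  obtain ⟨k, hk⟩ := hdvd
  let e : OrthonormalBasis (Fin d) ℂ H := stdOrthonormalBasis ℂ H
  obtain ⟨ρ, hρ⟩ := amp π e hk (Nat.factorial_pos _)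
  refine ⟨ρ, ?_⟩
  -- every vector is `π b Ω`
  have hsurj : ∀ v : H, ∃ b : A, π b Ω = v := fun v => by
    let V : Submodule ℂ H := LinearMap.range
      ({ toFun := fun a => π a Ω, map_add' := fun a b => by rw [map_add]; rfl,
         map_smul' := fun c a => by rw [map_smul]; rfl } : A →ₗ[ℂ] H)
    have hVc : IsClosed (V : Set H) := Submodule.closed_of_finiteDimensional V
    have h1 : closure (Set.range fun d => π d Ω) ⊆ V := closure_minimal (by
      rintro _ ⟨a, rfl⟩
      exact ⟨a, rfl⟩) hVc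
    obtain ⟨b, hb⟩ := h1 (hd v)
    exact ⟨b, hb⟩
  choose b hb using hsurj
  have hdc : (d : ℂ) ≠ 0 := Nat.cast_ne_zero.2 hd0.ne'
  have hdr : (1 / d : ℂ) = ((1 / d : ℝ) : ℂ) := by push_cast; rfl
  have hsq : ∀ a i, ⟪e i, π (star a * a) (e i)⟫_ℂ = ((‖π a (e i)‖ ^ 2 : ℝ) : ℂ) := fun a i => by
    rw [map_mul, map_star]
    change ⟪e i, (star (π a)) (π a (e i))⟫_ℂ = _
    rw [ContinuousLinearMap.star_eq_adjoint, ContinuousLinearMap.adjoint_inner_right]
    rw [Complex.ofReal_pow]
    exact inner_self_eq_norm_sq_to_K _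
  have hg : (fun a => 1 / d * ∑ i, ⟪e i, π a (e i)⟫_ℂ) ∈ TS A := by
    refine ⟨fun a b => ?_, fun c a => ?_, ?_, fun a => ?_, fun a b => ?_⟩
    · simp only [map_add, ContinuousLinearMap.add_apply, inner_add_right, sum_add_distrib]; ring
    · simp only [map_smul, ContinuousLinearMap.smul_apply, inner_smul_right, ← mul_sum]; ring
    · have : ∀ i, ⟪e i, π 1 (e i)⟫_ℂ = 1 := fun i => by
        rw [map_one]
        change ⟪e i, e i⟫_ℂ = 1
        rw [orthonormal_iff_ite.1 e.orthonormal, if_pos rfl]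
      simp only [this, sum_const, card_univ, Fintype.card_fin, nsmul_eq_mul, mul_one]
      exact one_div_mul_cancel hdc
    · simp only [hsq]
      rw [hdr, ← Complex.ofReal_sum, ← Complex.ofReal_mul]
      exact Complex.zero_le_real.2 (by positivity)
    · have h1 := LinearMap.trace_mul_comm ℂ (π a : H →ₗ[ℂ] H) (π b : H →ₗ[ℂ] H)
      rw [LinearMap.trace_eq_sum_inner _ e, LinearMap.trace_eq_sum_inner _ e] at h1
      simp only [map_mul]
      exact congrArg _ h1
  have := TS.ext_eq hf hg (C := 1 / d * ∑ i, ‖b (e i)‖ ^ 2) fun a => by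
    simp only [hsq]
    rw [hdr, ← Complex.ofReal_sum, ← Complex.ofReal_mul, Complex.ofReal_re, mul_assoc, sum_mul]
    refine mul_le_mul_of_nonneg_left (sum_le_sum fun i _ => ?_) (by positivity)
    have h1 : π a (e i) = π (a * b (e i)) Ω := by
      rw [map_mul]
      change _ = π a (π (b (e i)) Ω)
      rw [hb]
    rw [h1, gnr hval]
    exact TS.rb hf1 _ _
  intro a
  rw [hρ, ← this]

end

end Pool.Agent.Helper71q
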