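import Pool.Agent.Helper71q.Tsd

set_option autoImplicit false
set_option linter.unusedSectionVars false

namespace Pool.Agent.Helper71q
open Pool.Agent.H75.QP Pool.Agent.H75 Finset Topology Filter
open scoped InnerProductSpace ComplexOrder

section
variable {A : Type} [CStarAlgebra A]

theorem nrm {H : Type} [NormedAddCommGroup H] [InnerProductSpace ℂ H] [CompleteSpace H]
    (π : A →⋆ₐ[ℂ] (H →L[ℂ] H)) (a : A) (v : H) : ‖π a v‖ ≤ ‖a‖ * ‖v‖ :=
  ((π a).le_opNorm v).trans (mul_le_mul_of_nonneg_right (NonUnitalStarAlgHom.norm_apply_le π a)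
    (norm_nonneg v))

theorem gin {H : Type} [NormedAddCommGroup H] [InnerProductSpace ℂ H] [CompleteSpace H]
    {π : A →⋆ₐ[ℂ] (H →L[ℂ] H)} {Ω : H} {f : A → ℂ} (hf : ∀ a, ⟪Ω, π a Ω⟫_ℂ = f a) (a b : A) :
    ⟪π a Ω, π b Ω⟫_ℂ = f (star a * b) := by
  rw [← hf, map_mul, map_star]
  change _ = ⟪Ω, (star (π a)) (π b Ω)⟫_ℂ
  rw [ContinuousLinearMap.star_eq_adjoint, ContinuousLinearMap.adjoint_inner_right]

theorem gnr {H : Type} [NormedAddCommGroup H] [InnerProductSpace ℂ H] [CompleteSpace H]
    {π : A →⋆ₐ[ℂ] (H →L[ℂ] H)} {Ω : H} {f : A → ℂ} (hf : ∀ a, ⟪Ω, π a Ω⟫_ℂ = f a) (a : A) :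
    ‖π a Ω‖ ^ 2 = (f (star a * a)).re := by
  have h1 := gin hf a a
  have h2 := inner_self_eq_norm_sq_to_K (𝕜 := ℂ) (π a Ω)
  rw [h1] at h2
  rw [h2]
  change _ = (((‖π a Ω‖ : ℝ) : ℂ) ^ 2).re
  rw [← Complex.ofReal_pow, Complex.ofReal_re]

/-- right multiplication is bounded -/
theorem TS.rb {f : A → ℂ} (hf : f ∈ TS A) (a w : A) :
    (f (star (a * w) * (a * w))).re ≤ ‖w‖ ^ 2 * (f (star a * a)).re := by
  obtain ⟨H, _, _, _, M, Ω, π, hn, htr, hmem, hval, -⟩ := gns (TS.isTrace hf)
  have hval' : ∀ a, ⟪Ω, π a Ω⟫_ℂ = f a := hval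
  have e1 : f (star (a * w) * (a * w)) = f (star (star w * star a) * (star w * star a)) := by
    simp only [star_mul, star_star]
    exact hf.2.2.2.2 _ _
  have e2 : f (star a * a) = f (star (star a) * star a) := by
    rw [star_star]; exact hf.2.2.2.2 _ _
  rw [e1, e2, ← gnr hval', ← gnr hval', ← mul_pow]
  refine pow_le_pow_left₀ (norm_nonneg _) ?_ 2
  rw [map_mul]
  have := nrm π (star w) (π (star a) Ω)
  rwa [norm_star] at this

theorem TS.null2 {f : A → ℂ} (hf : f ∈ TS A) {y : A} (h : f (star y * y) = 0) (w : A) :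
    f (star y * w) = 0 := by
  obtain ⟨H, _, _, _, M, Ω, π, hn, htr, hmem, hval, -⟩ := gns (TS.isTrace hf)
  have hval' : ∀ a, ⟪Ω, π a Ω⟫_ℂ = f a := hval
  have h1 := gnr hval' y
  rw [h, Complex.zero_re, sq_eq_zero_iff, norm_eq_zero] at h1
  rw [← gin hval', h1, inner_zero_left]

/-- central elements are scalars for extreme traces -/
theorem TS.scal {f : A → ℂ} (hf : f ∈ (TS A).extremePoints ℝ) {y : A}
    (hy : ∀ a, star y * y * a = a * (star y * y)) (a : A) :
    f (star y * y * a) = f (star y * y) * f a := by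
  have hf1 := (mem_extremePoints.1 hf).1
  set z := star y * y with hz
  by_cases h0 : f z = 0
  · rw [h0, zero_mul, hz, mul_assoc]
    exact TS.null2 hf1 (hz ▸ h0) _
  obtain ⟨c, hc1, hc⟩ : ∃ c : ℝ, 0 ≤ c ∧ f z = (c : ℂ) := by
    have := Complex.nonneg_iff.1 (hf1.2.2.2.1 y)
    exact ⟨(f z).re, this.1, Complex.ext rfl this.2.symm⟩
  have hc0 : 0 < c := lt_of_le_of_ne hc1 fun h => h0 (by rw [hc, ← h, Complex.ofReal_zero])
  have hcc : (c : ℂ) ≠ 0 := Complex.ofReal_ne_zero.2 hc0.ne'
  have hzp : ∀ a, f (z * (star a * a)) = f (star (a * star y) * (a * star y)) := fun a => by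
    rw [hz, star_mul, star_star, mul_assoc, hf1.2.2.2.2]
    simp only [mul_assoc]
  have hg : (fun a => f (z * a) / (c : ℂ)) ∈ TS A := by
    refine ⟨fun a b => ?_, fun t a => ?_, ?_, fun a => ?_, fun a b => ?_⟩
    · simp only [mul_add, hf1.1, add_div]
    · simp only [mul_smul_comm, hf1.2.1]; ring
    · simp only [mul_one]; rw [hc]; exact div_self hcc
    · simp only [hzp]
      rw [div_eq_mul_inv, ← Complex.ofReal_inv]
      exact mul_nonneg (hf1.2.2.2.1 _) (Complex.zero_le_real.2 (inv_nonneg.2 hc0.le))
    · simp only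
      rw [← mul_assoc, hf1.2.2.2.2, ← mul_assoc, ← hy b, mul_assoc]
  have hgf := TS.ext_eq hf hg (C := ‖star y‖ ^ 2 / c) fun a => by
    simp only [hzp]
    have h1 := TS.rb hf1 a (star y)
    have h2 : (f (star (a * star y) * (a * star y)) / (c : ℂ)).re =
        (f (star (a * star y) * (a * star y))).re / c := by
      rw [div_eq_mul_inv, ← Complex.ofReal_inv, Complex.re_mul_ofReal]
      rfl
    rw [h2, div_mul_eq_mul_div]
    exact div_le_div_of_nonneg_right h1 hc0.le
  have := congrFun hgf a
  rw [div_eq_iff hcc] at this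
  rw [this, hc, mul_comm]

theorem expand {c : ℂ} (hcs : star c = c) (z a : A) (hzs : star z = z) (hz : ∀ b, z * b = b * z) :
    star (z * a - c • a) * (z * a - c • a) =
      z * (z * (star a * a)) + (-c) • (z * (star a * a)) + (-c) • (z * (star a * a)) +
        (c * c) • (star a * a) := by
  rw [star_sub, star_mul, star_smul, hcs, hzs]
  have e2 : star a * z = z * star a := (hz _).symm
  have e3 : star a * z * (z * a) = z * (z * (star a * a)) := by
    rw [e2, mul_assoc, ← mul_assoc (star a), e2]
    simp only [mul_assoc]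
  have e4 : star a * (z * a) = z * (star a * a) := by rw [← mul_assoc, e2, mul_assoc]
  have e5 : star a * z * a = z * (star a * a) := by rw [e2, mul_assoc]
  simp only [sub_mul, mul_sub, smul_mul_assoc, mul_smul_comm, e3, e4, e5]
  module

/-- the GNS space of an extreme trace is finite dimensional -/
theorem fdim {ι : Type} [Fintype ι] [DecidableEq ι] (x : ι → A) (hsa : ∀ i, star (x i) = x i)
    (hc : ∀ i j, x i * x j = x j * x i ∨ x i * x j = -(x j * x i))
    (hgen : ∀ S : StarSubalgebra ℂ A, IsClosed (S : Set A) → (∀ i, x i ∈ S) → ∀ a, a ∈ S)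
    {f : A → ℂ} (hf : f ∈ (TS A).extremePoints ℝ)
    {H : Type} [NormedAddCommGroup H] [InnerProductSpace ℂ H] [CompleteSpace H]
    {π : A →⋆ₐ[ℂ] (H →L[ℂ] H)} {Ω : H} (hval : ∀ a, ⟪Ω, π a Ω⟫_ℂ = f a)
    (hd : Dense (Set.range fun d => π d Ω)) :
    FiniteDimensional ℂ H ∧ Module.finrank ℂ H ≤ Fintype.card {l : List ι // l.Nodup} := by
  have hf1 := (mem_extremePoints.1 hf).1
  -- squares are central
  have hcen : ∀ i a, star (x i) * x i * a = a * (star (x i) * x i) := fun i a => by
    let S := StarSubalgebra.centralizer ℂ ({star (x i) * x i} : Set A)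
    have hS := hgen S (Set.isClosed_centralizer _) (fun j => (StarSubalgebra.mem_centralizer_iff ℂ).2 (by
      have key : star (x i) * x i * x j = x j * (star (x i) * x i) := by
        rw [hsa]
        rcases hc i j with h | h
        · rw [mul_assoc, h, ← mul_assoc, h, mul_assoc]
        · rw [mul_assoc, h, mul_neg, ← mul_assoc, h, neg_mul, neg_neg, mul_assoc]
      rintro _ rfl
      refine ⟨key, ?_⟩
      rw [star_mul, star_star]
      exact key)) a
    exact ((StarSubalgebra.mem_centralizer_iff ℂ).1 hS _ rfl).1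
  have hsc : ∀ i a, f (star (x i) * x i * a) = f (star (x i) * x i) * f a := fun i a =>
    TS.scal hf (hcen i) a
  -- hence scalars
  have hπ : ∀ i a, π (x i * x i * a) Ω = f (star (x i) * x i) • π a Ω := fun i a => by
    set c := f (star (x i) * x i) with hcd
    have hcs : star c = c := by
      have := Complex.nonneg_iff.1 (hf1.2.2.2.1 (x i))
      exact Complex.conj_eq_iff_im.2 this.2.symm
    have h1 : π (x i * x i * a - c • a) Ω = 0 := by
      rw [← norm_eq_zero, ← sq_eq_zero_iff, gnr hval]
      have : f (star (x i * x i * a - c • a) * (x i * x i * a - c • a)) = 0 := by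
        have e0 : x i * x i = star (x i) * x i := by rw [hsa]
        rw [e0]
        set z := star (x i) * x i with hz
        have hzs : star z = z := by rw [hz, star_mul, star_star]
        rw [expand hcs z a hzs (hcen i)]
        rw [hf1.1, hf1.1, hf1.1, hf1.2.1, hf1.2.1, hsc, hsc]
        ring
      rw [this, Complex.zero_re]
    rw [map_sub, map_smul] at h1
    exact sub_eq_zero.1 h1
  let w : {l : List ι // l.Nodup} → H := fun l => π (l.1.map x).prod Ω
  let V : Submodule ℂ H := Submodule.span ℂ (Set.range w)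
  have hVf : FiniteDimensional ℂ V := FiniteDimensional.span_of_finite ℂ (Set.finite_range w)
  have hVc : IsClosed (V : Set H) := Submodule.closed_of_finiteDimensional V
  have hsign : ∀ i (s : List ι), x i * (s.map x).prod = (s.map x).prod * x i ∨
      x i * (s.map x).prod = -((s.map x).prod * x i) := fun i s => by
    induction s with
    | nil => left; simp
    | cons j s ih =>
      rw [List.map_cons, List.prod_cons]
      rcases hc i j with h | h <;> rcases ih with h' | h'
      · left; rw [← mul_assoc, h, mul_assoc, h', mul_assoc]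
      · right; rw [← mul_assoc, h, mul_assoc, h', mul_neg, mul_assoc]
      · right; rw [← mul_assoc, h, neg_mul, mul_assoc, h', mul_assoc]
      · left; rw [← mul_assoc, h, neg_mul, mul_assoc, h', mul_neg, neg_neg, mul_assoc]
  have hstep : ∀ i, ∀ v ∈ V, π (x i) v ∈ V := fun i v hv => by
    induction hv using Submodule.span_induction with
    | zero => rw [map_zero]; exact V.zero_mem
    | add v w _ _ hv hw => rw [map_add]; exact V.add_mem hv hw
    | smul c v _ hv => rw [map_smul]; exact V.smul_mem c hv
    | mem v hv =>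
      obtain ⟨⟨l, hl⟩, rfl⟩ := hv
      change π (x i) (π (l.map x).prod Ω) ∈ V
      have e1 : π (x i) (π (l.map x).prod Ω) = π (x i * (l.map x).prod) Ω := by
        rw [map_mul]; rfl
      rw [e1]
      by_cases hi : i ∈ l
      · obtain ⟨s, t, rfl⟩ := List.append_of_mem hi
        have hst : (s ++ t).Nodup := hl.sublist (by simp)
        have e2 : π (x i * x i * ((s ++ t).map x).prod) Ω ∈ V := by
          rw [hπ]
          exact V.smul_mem _ (Submodule.subset_span ⟨⟨s ++ t, hst⟩, rfl⟩)
        have e3 : x i * x i * ((s ++ t).map x).prod =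
            (s.map x).prod * (x i * x i) * (t.map x).prod := by
          have := hcen i (s.map x).prod
          rw [hsa] at this
          rw [List.map_append, List.prod_append, ← mul_assoc, this]
        rw [e3] at e2
        have e4 : x i * ((s ++ i :: t).map x).prod = (s.map x).prod * (x i * x i) * (t.map x).prod ∨
            x i * ((s ++ i :: t).map x).prod =
              -((s.map x).prod * (x i * x i) * (t.map x).prod) := by
          rw [List.map_append, List.prod_append, List.map_cons, List.prod_cons]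
          rcases hsign i s with h | h
          · left; rw [← mul_assoc, h]; simp only [mul_assoc]
          · right; rw [← mul_assoc, h]; simp only [mul_assoc, neg_mul]
        rcases e4 with h | h
        · rw [h]; exact e2
        · rw [h, map_neg]; exact V.neg_mem e2
      · exact Submodule.subset_span ⟨⟨i :: l, List.nodup_cons.2 ⟨hi, hl⟩⟩, by
          simp only [w, List.map_cons, List.prod_cons]⟩
  let S : StarSubalgebra ℂ A :=
    { carrier := {a | (∀ v ∈ V, π a v ∈ V) ∧ ∀ v ∈ V, π (star a) v ∈ V}
      mul_mem' := fun {a b} ha hb => ⟨fun v hv => by rw [map_mul]; exact ha.1 _ (hb.1 v hv),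
        fun v hv => by rw [star_mul, map_mul]; exact hb.2 _ (ha.2 v hv)⟩
      add_mem' := fun {a b} ha hb => ⟨fun v hv => by
        rw [map_add]; exact V.add_mem (ha.1 v hv) (hb.1 v hv), fun v hv => by
        rw [star_add, map_add]; exact V.add_mem (ha.2 v hv) (hb.2 v hv)⟩
      algebraMap_mem' := fun c => by
        have : ∀ c : ℂ, ∀ v ∈ V, π (algebraMap ℂ A c) v ∈ V := fun c v hv => by
          rw [AlgHomClass.commutes, Algebra.algebraMap_eq_smul_one]
          exact V.smul_mem c hv
        refine ⟨this c, fun v hv => ?_⟩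
        rw [← algebraMap_star_comm]
        exact this _ v hv
      star_mem' := fun {a} ha => ⟨ha.2, by rw [star_star]; exact ha.1⟩ }
  have hSc : IsClosed (S : Set A) := by
    have : (S : Set A) = {a | (∀ v ∈ V, π a v ∈ V) ∧ ∀ v ∈ V, π (star a) v ∈ V} := rfl
    have hcont : ∀ v, Continuous fun a => π a v := fun v => by
      have h1 : Continuous π := (NonUnitalStarAlgHom.instContinuousLinearMapClassComplex).map_continuous π
      fun_prop
    rw [this]
    simp only [Set.ofPred_and, Set.ofPred_forall]
    refine IsClosed.inter ?_ ?_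
    · exact isClosed_iInter fun v => isClosed_iInter fun _ => hVc.preimage (hcont v)
    · exact isClosed_iInter fun v => isClosed_iInter fun _ =>
        hVc.preimage ((hcont v).comp continuous_star)
  have hall := hgen S hSc fun i => ⟨hstep i, by rw [hsa]; exact hstep i⟩
  have hΩ : Ω ∈ V := by
    have : w ⟨[], List.nodup_nil⟩ = Ω := by
      change π (List.map x []).prod Ω = Ω
      simp
    rw [← this]
    exact Submodule.subset_span ⟨_, rfl⟩
  have hT : V = ⊤ := by
    rw [eq_top_iff]
    intro v _
    have h1 : closure (Set.range fun d => π d Ω) ⊆ V := closure_minimal (by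
      rintro _ ⟨a, rfl⟩
      exact (hall a).1 Ω hΩ) hVc
    exact h1 (hd v)
  have hfin : FiniteDimensional ℂ H := by
    have : FiniteDimensional ℂ (⊤ : Submodule ℂ H) := hT ▸ hVf
    exact Module.finite_def.2 ((Submodule.fg_top _).1 (Module.finite_def.1 this) |> fun h => by simpa using h)
  refine ⟨hfin, ?_⟩
  have h1 : Module.finrank ℂ V ≤ Fintype.card {l : List ι // l.Nodup} := finrank_range_le_card w
  rwa [hT, finrank_top] at h1

end

end Pool.Agent.Helper71q
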