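import Pool.Agent.Helper71q.Low2

set_option autoImplicit false
set_option linter.unusedSectionVars false

namespace Pool.Agent.Helper71q
open Pool.Agent.H75.QP Pool.Agent.H75 Finset Pool.Agent.H86.Roe Filter Topology
open scoped InnerProductSpace ComplexOrder

section
variable {n : ℕ} {A : Type} [CStarAlgebra A] {u : Fin n → Fin n → A}
  {Γ G : Type} [Group Γ] [Group G]

theorem opow {E : Type} [NormedAddCommGroup E] [InnerProductSpace ℂ E] {Z : E →L[ℂ] E} {ρ : ℝ}
    (h : ‖Z‖ ≤ ρ) (k : ℕ) (v : E) : ‖(Z ^ k) v‖ ≤ ρ ^ k * ‖v‖ := by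
  have h0 : 0 ≤ ρ := (norm_nonneg _).trans h
  induction k with
  | zero => rw [pow_zero, pow_zero, one_mul]; exact le_rfl
  | succ k ih =>
    rw [pow_succ']
    change ‖Z ((Z ^ k) v)‖ ≤ _
    refine (Z.le_opNorm _).trans ((mul_le_mul h ih (norm_nonneg _) h0).trans (le_of_eq ?_))
    rw [pow_succ]; ring

/-- every coupling of the regular trace of a group with a spectral gap and of the trace of a
finite quotient is expensive -/
theorem low (hn : 5 ≤ n) (hu : Magic u) [Fintype G] (f : FreeGroup (Fin 2) →* Γ) (q : Γ →* G)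
    (hs : Function.Surjective (q.comp f)) (gap : ‖Zop (f (.of 0)) (f (.of 1))‖ ≤ 1 - 1 / 4800)
    {πΓ : A →⋆ₐ[ℂ] (H Γ →L[ℂ] H Γ)} (hΓ : ∀ w, πΓ (wA hn hu w : A) = lam (f w))
    {πG : A →⋆ₐ[ℂ] (H G →L[ℂ] H G)} (hG : ∀ w, πG (wA hn hu w : A) = lam (q (f w)))
    {φ ψ : A →L[ℂ] ℂ} (hφ : ∀ a, φ a = gφ πΓ a) (hψ : ∀ a, ψ a = gφ πG a) {r s : ℝ}
    (h : Cpl u φ ψ r s) : 1 / (24000 * n) ≤ s := by
  classical
  obtain ⟨K, _, _, _, M, τ, α, β, C, -, rfl⟩ := h
  obtain ⟨ξ, hξ, hξ1⟩ := C.tr.normal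
  set T := IL.tr ξ hξ with hTd
  have hT : ∀ x ∈ M, τ x = T x := fun x hx => (hξ1 x hx).tsum_eq.symm
  have htr : ∀ x ∈ M, ∀ y ∈ M, T (x * y) = T (y * x) := fun x hx y hy => by
    rw [← hT _ (mul_mem hx hy), ← hT _ (mul_mem hy hx), C.tr.trace x hx y hy]
  have hT1 : T 1 = 1 := by rw [← hT _ (one_mem _), C.tr.one]
  have hTα : ∀ a, T (α a) = φ a := fun a => by rw [← hT _ (C.mem a).1, (C.val a).1]
  have hTβ : ∀ a, T (β a) = ψ a := fun a => by rw [← hT _ (C.mem a).2, (C.val a).2]
  set a1 := α (aA hn u) with ha1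
  set a2 := β (aA hn u) with ha2
  set b1 := α (bA hn u) with hb1
  set b2 := β (bA hn u) with hb2
  have m1 : a1 ∈ M := (C.mem _).1
  have m2 : a2 ∈ M := (C.mem _).2
  have m3 : b1 ∈ M := (C.mem _).1
  have m4 : b2 ∈ M := (C.mem _).2
  have s1 : star a1 = a1 := by rw [ha1, ← map_star, aA_sa hn hu]
  have s2 : star a2 = a2 := by rw [ha2, ← map_star, aA_sa hn hu]
  -- the iterates
  let X : ℕ → K →L[ℂ] K := fun k => (SS a1 a2 b1 b2)^[k] 1
  have X0 : X 0 = 1 := rfl
  have Xs : ∀ k, X (k + 1) = SS a1 a2 b1 b2 (X k) := fun k => Function.iterate_succ_apply' _ _ _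
  have XM : ∀ k, X k ∈ M := fun k => by
    induction k with
    | zero => exact one_mem _
    | succ k ih => rw [Xs]; exact SS_mem m1 m2 m3 m4 ih
  have Xadd : ∀ m k, T (X (m + k)) = T (star (X m) * X k) := fun m => by
    induction m with
    | zero => intro k; rw [zero_add, X0, star_one, one_mul]
    | succ m ih =>
      intro k
      rw [show m + 1 + k = m + (k + 1) by ring, ih, Xs k, Xs m,
        SS_symm htr m1 m2 m3 m4 s1 s2 (XM m) (XM k)]
  have grow : ∀ k, (T (X k)).re ^ 2 ≤ (T (X (k + k))).re := fun k => by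
    have c1 := tcs hξ (1 : K →L[ℂ] K) (X k)
    rw [star_one, one_mul, one_mul, ← hTd, hT1, Complex.one_re, one_mul, ← Xadd] at c1
    refine le_trans ?_ c1
    exact sq_le_sq' (by linarith [Complex.abs_re_le_norm (T (X k)), neg_abs_le (T (X k)).re])
      (Complex.re_le_norm _)
  -- the unitaries indexed by the finite group
  have hun : ∀ w, star (wA hn hu w : A) * (wA hn hu w : A) = 1 := fun w => (wA hn hu w).2.1
  have hinv : ∀ w, star (wA hn hu w : A) = (wA hn hu w⁻¹ : A) := fun w => by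
    rw [map_inv]; rfl
  have hψ1 : ∀ w, q (f w) = 1 → ψ (wA hn hu w : A) = 1 := fun w hw => by
    rw [hψ, gφ, hG, hw, map_one]
    change (δ (1 : G)) (1 : G) = 1
    rw [δ_apply, if_pos rfl]
  have hW : ∀ v v', q (f v) = q (f v') → β (wA hn hu v : A) = β (wA hn hu v' : A) := by
    intro v v' hv
    rw [← sub_eq_zero]
    refine C.tr.faithful _ (sub_mem (C.mem _).2 (C.mem _).2) ?_
    rw [hT _ (mul_mem (star_mem (sub_mem (C.mem _).2 (C.mem _).2))
      (sub_mem (C.mem _).2 (C.mem _).2))]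
    have e1 : star (β (wA hn hu v : A) - β (wA hn hu v' : A)) *
        (β (wA hn hu v : A) - β (wA hn hu v' : A)) =
        β (2 - (wA hn hu (v⁻¹ * v') : A) - (wA hn hu (v'⁻¹ * v) : A)) := by
      have e2 : (wA hn hu (v⁻¹ * v') : A) = star (wA hn hu v : A) * (wA hn hu v' : A) := by
        rw [map_mul, hinv]; rfl
      have e3 : (wA hn hu (v'⁻¹ * v) : A) = star (wA hn hu v' : A) * (wA hn hu v : A) := by
        rw [map_mul, hinv]; rfl
      rw [← map_sub, ← map_star, ← map_mul, e2, e3]
      congr 1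
      have e4 := hun v
      have e5 := hun v'
      rw [star_sub, sub_mul, mul_sub, mul_sub, e4, e5]
      have : (2 : A) = 1 + 1 := by norm_num
      rw [this]
      abel
    have e6 : q (f (v⁻¹ * v')) = 1 := by
      rw [map_mul, map_mul, map_inv, map_inv, hv, inv_mul_cancel]
    have e7 : q (f (v'⁻¹ * v)) = 1 := by
      rw [map_mul, map_mul, map_inv, map_inv, hv, inv_mul_cancel]
    have e8 : (2 : A) = (2 : ℂ) • (1 : A) := by
      rw [two_smul]; norm_num
    rw [e1, hTβ, map_sub, map_sub, hψ1 _ e6, hψ1 _ e7, e8, map_smul]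
    have e9 : ψ 1 = 1 := by rw [← hTβ, map_one, hT1]
    rw [e9]
    norm_num
  choose w hw using hs
  let U : G → K →L[ℂ] K := fun c => β (wA hn hu (w c) : A)
  have UM : ∀ c, U c ∈ M := fun c => (C.mem _).2
  have hUv : ∀ v c, β (wA hn hu v : A) * U c = U (q (f v) * c) := fun v c => by
    have : β (wA hn hu v : A) * U c = β (wA hn hu (v * w c) : A) := by
      change β _ * β _ = _
      rw [← map_mul, map_mul (wA hn hu)]; rfl
    rw [this]
    refine hW _ _ ?_
    rw [map_mul, map_mul]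
    have h1 := hw c
    have h2 := hw (q (f v) * c)
    rw [MonoidHom.comp_apply] at h1 h2
    rw [h1, h2]
  have hU1 : U 1 = 1 := by
    have : U 1 = β (wA hn hu 1 : A) := hW _ _ (by
      have h1 := hw 1
      rw [MonoidHom.comp_apply] at h1
      rw [h1, map_one, map_one])
    rw [this, map_one]
    exact map_one β
  set P := q (f (.of 0)) with hP
  set Q := q (f (.of 1)) with hQ
  have ha2U : ∀ c, a2 * U c = U (P * c) := fun c => by
    rw [ha2, ← wA_0 hn hu]; exact hUv _ c
  have hb2U : ∀ c, b2 * U c = U (Q * c) := fun c => by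
    rw [hb2, ← wA_1 hn hu]; exact hUv _ c
  have hb2U' : ∀ c, star b2 * U c = U (Q⁻¹ * c) := fun c => by
    have := hUv (.of 1)⁻¹ c
    rw [← hinv, map_star, wA_1, map_inv, map_inv] at this
    exact this
  let y := yk hn u P Q
  have hX : ∀ k, X k = ∑ c, α (y k c) * star (U c) := fun k => by
    induction k with
    | zero =>
      rw [X0, sum_eq_single 1]
      · change 1 = α (if (1 : G) = 1 then 1 else 0) * star (U 1)
        rw [if_pos rfl, map_one, hU1, star_one, one_mul]
      · intro c _ hc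
        change α (if c = 1 then 1 else 0) * star (U c) = 0
        rw [if_neg hc, map_zero, zero_mul]
      · intro h; exact absurd (mem_univ _) h
    | succ k ih =>
      have t1 : ∑ c, a1 * (α (y k c) * star (U c)) * star a2 =
          ∑ c, α (aA hn u * y k (P⁻¹ * c)) * star (U c) := by
        rw [← Equiv.sum_comp (Equiv.mulLeft P) (fun c => α (aA hn u * y k (P⁻¹ * c)) * star (U c))]
        refine sum_congr rfl fun c _ => ?_
        rw [Equiv.coe_mulLeft, inv_mul_cancel_left, map_mul, ← ha2U, star_mul]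
        simp only [mul_assoc]
        rfl
      have t2 : ∑ c, b1 * (α (y k c) * star (U c)) * star b2 =
          ∑ c, α (bA hn u * y k (Q⁻¹ * c)) * star (U c) := by
        rw [← Equiv.sum_comp (Equiv.mulLeft Q) (fun c => α (bA hn u * y k (Q⁻¹ * c)) * star (U c))]
        refine sum_congr rfl fun c _ => ?_
        rw [Equiv.coe_mulLeft, inv_mul_cancel_left, map_mul, ← hb2U, star_mul]
        simp only [mul_assoc]
        rfl
      have t3 : ∑ c, star b1 * (α (y k c) * star (U c)) * b2 =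
          ∑ c, α (star (bA hn u) * y k (Q * c)) * star (U c) := by
        rw [← Equiv.sum_comp (Equiv.mulLeft Q⁻¹)
          (fun c => α (star (bA hn u) * y k (Q * c)) * star (U c))]
        refine sum_congr rfl fun c _ => ?_
        have e1 : star (U c) * b2 = star (U (Q⁻¹ * c)) := by
          rw [← hb2U', star_mul, star_star]
        rw [Equiv.coe_mulLeft, mul_inv_cancel_left, map_mul, map_star, ← e1]
        simp only [mul_assoc]
        rfl
      rw [Xs, ih]
      unfold SS
      rw [mul_sum, sum_mul, mul_sum, sum_mul, mul_sum, sum_mul, t1, t2, t3, ← sum_add_distrib,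
        ← sum_add_distrib, smul_sum, smul_sum, ← sum_add_distrib]
      refine sum_congr rfl fun c _ => ?_
      change _ = α ((1 / 2 : ℂ) • y k c + (1 / 6 : ℂ) • (aA hn u * y k (P⁻¹ * c) +
        bA hn u * y k (Q⁻¹ * c) + star (bA hn u) * y k (Q * c))) * star (U c)
      rw [map_add, map_smul, map_smul, map_add, map_add, add_mul, smul_mul_assoc, smul_mul_assoc,
        add_mul, add_mul]
  -- the upper bound
  set ρ : ℝ := 1 - 1 / 4800 with hρ
  have hρ0 : 0 < ρ := by norm_num [hρ]
  have up : ∀ k, (T (X k)).re ≤ Fintype.card G * ρ ^ k := fun k => by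
    have e1 : ∀ c, ‖T (α (y k c) * star (U c))‖ ≤ ρ ^ k := fun c => by
      rw [htr _ (C.mem _).1 _ (star_mem (UM c))]
      have c1 := tcs hξ (U c) (α (y k c))
      have c2 : star (U c) * U c = 1 := by
        change star (β _) * β _ = 1
        rw [← map_star, ← map_mul, hun, map_one]
      have c3 : (T (star (α (y k c)) * α (y k c))).re = ‖πΓ (y k c) (δ 1)‖ ^ 2 := by
        rw [← map_star, ← map_mul, hTα, hφ, gφ_eq, map_mul, map_star]
        change (⟪δ 1, (star (πΓ (y k c))) (πΓ (y k c) (δ 1))⟫_ℂ).re = _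
        rw [ContinuousLinearMap.star_eq_adjoint, ContinuousLinearMap.adjoint_inner_right, nsq]
      rw [← hTd, c2, hT1, Complex.one_re, one_mul, c3, yk_ind hn hu f q hΓ] at c1
      have c4 : ‖Ind (fun x => q x = c) ((Zop (f (.of 0)) (f (.of 1)) ^ k) (δ 1))‖ ≤ ρ ^ k := by
        refine ((Ind _).le_opNorm _).trans ?_
        refine (mul_le_mul_of_nonneg_right (Ind_norm _) (norm_nonneg _)).trans ?_
        rw [one_mul]
        have := opow gap k (δ 1)
        rwa [norm_δ, mul_one] at this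
      exact (pow_le_pow_iff_left₀ (norm_nonneg _) (by positivity) two_ne_zero).1
        (c1.trans (pow_le_pow_left₀ (norm_nonneg _) c4 2))
    rw [hX, map_sum, Complex.re_sum]
    calc _ ≤ ∑ _c : G, ρ ^ k := sum_le_sum fun c _ => (Complex.re_le_norm _).trans (e1 c)
      _ = _ := by rw [sum_const, card_univ, nsmul_eq_mul]
  -- the first step
  have first : (T (X 1)).re = 1 - (N2 hξ (a1 - a2) + 2 * N2 hξ (b1 - b2)) / 12 := by
    have uu : ∀ x y : K →L[ℂ] K, x ∈ M → y ∈ M → star x * x = 1 → star y * y = 1 →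
        (T (x * star y)).re = 1 - N2 hξ (x - y) / 2 := fun x y hx hy h1 h2 => by
      have e1 : N2 hξ (x - y) = 2 - 2 * (T (x * star y)).re := by
        unfold N2
        have e2 : star (x - y) * (x - y) = 1 + 1 - star x * y - star y * x := by
          rw [star_sub, sub_mul, mul_sub, mul_sub, h1, h2]; abel
        have e3 : T (star x * y) = star (T (star y * x)) := by
          rw [← IL.tr_star, star_mul, star_star]
        rw [e2, ← hTd, map_sub, map_sub, map_add, hT1, e3, Complex.sub_re, Complex.sub_re,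
          Complex.star_def, Complex.conj_re, htr x hx (star y) (star_mem hy)]
        simp only [Complex.add_re, Complex.one_re]
        ring
      rw [e1]; ring
    have ua : ∀ w, star (α (wA hn hu w : A)) * α (wA hn hu w : A) = 1 := fun w => by
      rw [← map_star, ← map_mul, hun, map_one]
    have ub : ∀ w, star (β (wA hn hu w : A)) * β (wA hn hu w : A) = 1 := fun w => by
      rw [← map_star, ← map_mul, hun, map_one]
    have u1 := ua (.of 0)
    have u2 := ub (.of 0)
    have u3 := ua (.of 1)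
    have u4 := ub (.of 1)
    have u5 := ua (.of 1)⁻¹
    have u6 := ub (.of 1)⁻¹
    rw [wA_0] at u1 u2
    rw [wA_1] at u3 u4
    rw [← hinv, map_star, wA_1] at u5 u6
    have f1 := uu a1 a2 m1 m2 u1 u2
    have f2 := uu b1 b2 m3 m4 u3 u4
    have f3 := uu (star b1) (star b2) (star_mem m3) (star_mem m4) u5 u6
    rw [star_star] at f3
    have f4 : N2 hξ (star b1 - star b2) = N2 hξ (b1 - b2) := by
      unfold N2
      rw [← star_sub, star_star, ← hTd, htr _ (sub_mem m3 m4) _ (star_mem (sub_mem m3 m4))]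
    rw [f4] at f3
    rw [Xs, X0]
    unfold SS
    simp only [mul_one]
    rw [map_add, map_smul, map_smul, map_add, map_add, smul_eq_mul, smul_eq_mul, hT1,
      Complex.add_re, re_half, re_sixth, Complex.add_re, Complex.add_re, f1, f2, f3,
      Complex.one_re]
    ring
  -- the cost
  have cost := cost_N2 hu hξ hT C.mem (show 0 < n by omega)
  set sc := costOne u τ α β with hsc
  by_contra hcon
  push Not at hcon
  have hn0 : (0 : ℝ) < n := Nat.cast_pos.2 (by omega)
  have hcs : 2 * n * sc < 1 / 12000 := by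
    rw [lt_div_iff₀ (by positivity)] at hcon
    linarith
  have hij : ∀ i j, N2 hξ (α (u i j) - β (u i j)) < 1 / 12000 := fun i j => by
    refine lt_of_le_of_lt ?_ (lt_of_le_of_lt cost hcs)
    exact (single_le_sum (f := fun j => N2 hξ (α (u i j) - β (u i j)))
      (fun j _ => N2_nonneg hξ _) (mem_univ j)).trans
      (single_le_sum (f := fun i => ∑ j, N2 hξ (α (u i j) - β (u i j)))
        (fun i _ => sum_nonneg fun j _ => N2_nonneg hξ _) (mem_univ i))
  have ca : N2 hξ (a1 - a2) < 4 * (1 / 12000) := by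
    have e1 : a1 - a2 = (2 : ℂ) • (α (u ⟨0, by omega⟩ ⟨0, by omega⟩) -
        β (u ⟨0, by omega⟩ ⟨0, by omega⟩)) := by
      rw [ha1, ha2]
      unfold aA
      rw [map_sub, map_sub, map_smul, map_smul, map_one, map_one, smul_sub]
      abel
    rw [e1, N2_smul]
    have := hij ⟨0, by omega⟩ ⟨0, by omega⟩
    norm_num at this ⊢
    linarith
  have cb : N2 hξ (b1 - b2) < 12 * (1 / 12000) := by
    have e1 : b1 - b2 = (om - 1) • (α (u ⟨2, by omega⟩ ⟨3, by omega⟩) -
        β (u ⟨2, by omega⟩ ⟨3, by omega⟩)) + (om ^ 2 - 1) • (α (u ⟨2, by omega⟩ ⟨4, by omega⟩) -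
        β (u ⟨2, by omega⟩ ⟨4, by omega⟩)) := by
      rw [hb1, hb2]
      unfold bA
      simp only [map_add, map_smul, map_one, smul_sub]
      abel
    have n1 : ∀ z : ℂ, z * star z = 3 → ‖z‖ ^ 2 = 3 := fun z hz => by
      have h1 : ((‖z‖ ^ 2 : ℝ) : ℂ) = 3 := by
        rw [← hz, Complex.star_def, Complex.mul_conj']; push_cast; rfl
      exact_mod_cast h1
    rw [e1]
    refine lt_of_le_of_lt (N2_add hξ _ _) ?_
    rw [N2_smul, N2_smul, n1 _ omc.1, n1 _ omc.2]
    have h1 := hij ⟨2, by omega⟩ ⟨3, by omega⟩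
    have h2 := hij ⟨2, by omega⟩ ⟨4, by omega⟩
    linarith
  have big : ρ < (T (X 1)).re := by
    rw [first, hρ]
    linarith
  -- growth
  have pw : ∀ j, (T (X 1)).re ^ (2 ^ j) ≤ (T (X (2 ^ j))).re := fun j => by
    induction j with
    | zero => simp
    | succ j ih =>
      have h0 : 0 ≤ (T (X 1)).re := hρ0.le.trans big.le
      have h1 := grow (2 ^ j)
      rw [show 2 ^ j + 2 ^ j = 2 ^ (j + 1) by ring] at h1
      refine le_trans ?_ h1
      rw [show 2 ^ (j + 1) = 2 ^ j * 2 by ring, pow_mul]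
      exact pow_le_pow_left₀ (by positivity) ih 2
  have fin : ∀ j : ℕ, ((T (X 1)).re / ρ) ^ (2 ^ j) ≤ Fintype.card G := fun j => by
    rw [div_pow, div_le_iff₀ (by positivity)]
    exact (pw j).trans (up _)
  have h1 : 1 < (T (X 1)).re / ρ := (one_lt_div hρ0).2 big
  obtain ⟨N, hN⟩ := pow_unbounded_of_one_lt (Fintype.card G : ℝ) h1
  have h2 : ((T (X 1)).re / ρ) ^ N ≤ ((T (X 1)).re / ρ) ^ (2 ^ N) :=
    pow_le_pow_right₀ h1.le (Nat.lt_two_pow_self).le
  have := fin N
  linarith

end

end Pool.Agent.Helper71q
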