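import Pool.Agent.Helper71q.Arith
import Pool.Agent.Helper71q.Low3

set_option autoImplicit false
set_option linter.unusedSectionVars false

namespace Pool.Agent.Helper71q
open Pool.Agent.H75.QP Pool.Agent.H75 Finset Pool.Agent.H86.Roe Filter Topology
open scoped InnerProductSpace ComplexOrder

section
variable {n : ℕ} {A : Type} [CStarAlgebra A] {u : Fin n → Fin n → A}

/-- the group algebra of the free group maps to `C(S_n^+)` -/
noncomputable def Th (hn : 5 ≤ n) (hu : Magic u) : MonoidAlgebra ℂ (FreeGroup (Fin 2)) →ₐ[ℂ] A :=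
  MonoidAlgebra.lift ℂ A (FreeGroup (Fin 2)) ((unitary A).subtype.comp (wA hn hu))

theorem Th_single (hn : 5 ≤ n) (hu : Magic u) (w : FreeGroup (Fin 2)) (c : ℂ) :
    Th hn hu (MonoidAlgebra.single w c) = c • (wA hn hu w : A) := by
  unfold Th
  rw [MonoidAlgebra.lift_single]
  rfl

theorem Th_star (hn : 5 ≤ n) (hu : Magic u) (z : MonoidAlgebra ℂ (FreeGroup (Fin 2))) :
    star (Th hn hu z) ∈ (Th hn hu).range := by
  induction z using MonoidAlgebra.induction_linear with
  | zero => rw [map_zero, star_zero]; exact zero_mem _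
  | add f g hf hg => rw [map_add, star_add]; exact add_mem hf hg
  | single w c =>
    refine ⟨MonoidAlgebra.single w⁻¹ (star c), ?_⟩
    have h1 : Th hn hu (MonoidAlgebra.single w⁻¹ (star c)) = star c • (wA hn hu w⁻¹ : A) :=
      Th_single hn hu _ _
    have h2 : Th hn hu (MonoidAlgebra.single w c) = c • (wA hn hu w : A) := Th_single hn hu _ _
    have h3 : (wA hn hu w⁻¹ : A) = star (wA hn hu w : A) := by rw [map_inv]; rfl
    change Th hn hu (MonoidAlgebra.single w⁻¹ (star c)) =
      star (Th hn hu (MonoidAlgebra.single w c))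
    rw [h1, h2, star_smul, h3]

/-- the magic unitary with entries in the group algebra -/
noncomputable def tt (hn : 5 ≤ n) (u : Fin n → Fin n → A) (i j : Fin n) : A :=
  ∑ c : Fin 3, if j = (sg hn ^ (c : ℕ)) i then dd (aA hn u) (bA hn u) c i else 0

theorem tt_mem (hn : 5 ≤ n) (hu : Magic u) (i j : Fin n) : tt hn u i j ∈ (Th hn hu).range := by
  have ha : aA hn u ∈ (Th hn hu).range :=
    ⟨MonoidAlgebra.single (.of 0) 1, by
      change Th hn hu (MonoidAlgebra.single (.of 0) 1) = _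
      rw [Th_single, one_smul, wA_0]⟩
  have hb : bA hn u ∈ (Th hn hu).range :=
    ⟨MonoidAlgebra.single (.of 1) 1, by
      change Th hn hu (MonoidAlgebra.single (.of 1) 1) = _
      rw [Th_single, one_smul, wA_1]⟩
  unfold tt
  refine sum_mem fun c _ => ?_
  split_ifs
  · unfold dd
    have hp : pp (aA hn u) ∈ (Th hn hu).range := by
      unfold pp
      exact Subalgebra.smul_mem _ (add_mem (one_mem _) ha) _
    split_ifs
    · fin_cases c
      · exact hp
      · exact sub_mem (one_mem _) hp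
      · exact zero_mem _
    · unfold qq
      exact Subalgebra.smul_mem _ (add_mem (add_mem (one_mem _) (Subalgebra.smul_mem _ hb _))
        (Subalgebra.smul_mem _ (mul_mem hb hb) _)) _
    · fin_cases c
      · exact one_mem _
      · exact zero_mem _
      · exact zero_mem _
  · exact zero_mem _

theorem tt_map (hn : 5 ≤ n) {B : Type} [CStarAlgebra B] (π : A →⋆ₐ[ℂ] B) (i j : Fin n) :
    π (tt hn u i j) = ∑ c : Fin 3, if j = (sg hn ^ (c : ℕ)) i then
      dd (π (aA hn u)) (π (bA hn u)) c i else 0 := by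
  unfold tt
  rw [map_sum]
  refine sum_congr rfl fun c _ => ?_
  split_ifs
  · unfold dd
    split_ifs
    · fin_cases c
      · simp [pp, map_smul]
      · simp [pp, map_smul]
      · simp
    · simp [qq, map_smul]
    · fin_cases c
      · simp
      · simp
      · simp
  · exact map_zero π

/-- weak-* convergence for elements of the dense subalgebra -/
theorem dense_appr (hn : 5 ≤ n) (hu : Universal u) (x : A) {ε : ℝ} (hε : 0 < ε) :
    ∃ z, ∃ y : A, ‖x - y‖ < ε ∧ ∀ {B : Type} [CStarAlgebra B] (π : A →⋆ₐ[ℂ] B),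
      (∀ i j, π (u i j) = π (tt hn u i j)) → π y = π (Th hn hu.magic z) := by
  let R : StarSubalgebra ℂ A :=
    { carrier := {y | ∃ z, ∀ {B : Type} [CStarAlgebra B] (π : A →⋆ₐ[ℂ] B),
        (∀ i j, π (u i j) = π (tt hn u i j)) → π y = π (Th hn hu.magic z)}
      mul_mem' := by
        rintro x y ⟨z, hz⟩ ⟨z', hz'⟩
        refine ⟨z * z', fun π h => ?_⟩
        rw [map_mul, map_mul, map_mul, hz π h, hz' π h]
      add_mem' := by
        rintro x y ⟨z, hz⟩ ⟨z', hz'⟩
        refine ⟨z + z', fun π h => ?_⟩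
        rw [map_add, map_add, map_add, hz π h, hz' π h]
      algebraMap_mem' := fun c => ⟨algebraMap ℂ _ c, fun π h => by
        rw [AlgHomClass.commutes, AlgHomClass.commutes, AlgHomClass.commutes]⟩
      star_mem' := by
        rintro x ⟨z, hz⟩
        obtain ⟨z', hz'⟩ := Th_star hn hu.magic z
        refine ⟨z', fun π h => ?_⟩
        have h1 : Th hn hu.magic z' = star (Th hn hu.magic z) := hz'
        rw [map_star, hz π h, h1, map_star] }
  have h1 : ∀ i j, u i j ∈ R := fun i j => by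
    obtain ⟨z, hz⟩ := tt_mem hn hu.magic i j
    have hz' : Th hn hu.magic z = tt hn u i j := hz
    exact ⟨z, fun π h => by rw [hz', h]⟩
  have h2 : x ∈ R.topologicalClosure :=
    gen hu _ R.isClosed_topologicalClosure (fun i j => R.le_topologicalClosure (h1 i j)) x
  have h3 : x ∈ closure (R : Set A) := h2
  obtain ⟨y, ⟨z, hz⟩, hy⟩ := Metric.mem_closure_iff.1 h3 ε hε
  exact ⟨z, y, by rwa [dist_eq_norm] at hy, hz⟩

theorem five (hn : 5 ≤ n) (hu : Universal u) : ∃ φ : A →L[ℂ] ℂ, IsTrace φ ∧ ∃ c : ℝ, 0 < c ∧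
    ∃ ψ : ℕ → A →L[ℂ] ℂ, (∀ m, IsTrace (ψ m)) ∧
      (∀ x, Tendsto (fun m => ψ m x) atTop (𝓝 (φ x))) ∧ ∀ m r s, Cpl u φ (ψ m) r s → c ≤ s := by
  obtain ⟨πΓ, p1, p2, p3⟩ := exπ hn hu fG fG_a fG_b
  have ham : ∀ m, (qm m).comp fG (.of 0) * (qm m).comp fG (.of 0) = 1 := fun m => by
    rw [MonoidHom.comp_apply, ← map_mul, fG_a, map_one]
  have hbm : ∀ m, (qm m).comp fG (.of 1) * (qm m).comp fG (.of 1) * (qm m).comp fG (.of 1) = 1 :=
    fun m => by rw [MonoidHom.comp_apply, ← map_mul, ← map_mul, fG_b, map_one]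
  have hex := fun m => exπ hn hu ((qm m).comp fG) (ham m) (hbm m)
  choose πm q1 q2 q3 using hex
  have hTS := gφ_TS πΓ p2
  have hTSm := fun m => gφ_TS (πm m) (q2 m)
  have htt : ∀ i j, πΓ (u i j) = πΓ (tt hn u i j) := fun i j => by
    have e0 := p3 (.of 0)
    have e1 := p3 (.of 1)
    rw [wA_0] at e0
    rw [wA_1] at e1
    rw [tt_map, p1, e0, e1]
  have httm : ∀ m i j, πm m (u i j) = πm m (tt hn u i j) := fun m i j => by
    have e0 := q3 m (.of 0)
    have e1 := q3 m (.of 1)
    rw [wA_0] at e0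
    rw [wA_1] at e1
    rw [tt_map, q1, e0, e1]
  -- convergence on the group algebra
  have conv : ∀ z, Tendsto (fun m => gφ (πm m) (Th hn hu.magic z)) atTop
      (𝓝 (gφ πΓ (Th hn hu.magic z))) := fun z => by
    induction z using MonoidAlgebra.induction_linear with
    | zero =>
      have : ∀ {G : Type} [Group G] (π : A →⋆ₐ[ℂ] (H G →L[ℂ] H G)),
          gφ π (Th hn hu.magic 0) = 0 := fun π => by rw [map_zero, gφ, map_zero]; rfl
      change Tendsto (fun m => gφ (πm m) (Th hn hu.magic 0)) atTop (𝓝 (gφ πΓ (Th hn hu.magic 0)))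
      simp only [this]
      exact tendsto_const_nhds
    | add f g hf hg =>
      have : ∀ {G : Type} [Group G] (π : A →⋆ₐ[ℂ] (H G →L[ℂ] H G)),
          gφ π (Th hn hu.magic (f + g)) = gφ π (Th hn hu.magic f) + gφ π (Th hn hu.magic g) :=
        fun π => by rw [map_add, gφ, map_add]; rfl
      change Tendsto (fun m => gφ (πm m) (Th hn hu.magic (f + g))) atTop
        (𝓝 (gφ πΓ (Th hn hu.magic (f + g))))
      simp only [this]
      exact hf.add hg
    | single w c =>
      have h1 : ∀ {G : Type} [Group G] (π : A →⋆ₐ[ℂ] (H G →L[ℂ] H G)) (g : G),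
          π (wA hn hu.magic w : A) = lam g →
          gφ π (Th hn hu.magic (MonoidAlgebra.single w c)) = c * (δ g : H G) 1 := fun π g hg => by
        rw [Th_single, gφ, map_smul, hg]
        change c • (lam g (δ 1)) 1 = _
        rw [lam_δ, mul_one, smul_eq_mul]
      change Tendsto (fun m => gφ (πm m) (Th hn hu.magic (MonoidAlgebra.single w c))) atTop
        (𝓝 (gφ πΓ (Th hn hu.magic (MonoidAlgebra.single w c))))
      refine tendsto_nhds_of_eventually_eq ?_
      by_cases h2 : fG w = 1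
      · refine Eventually.of_forall fun m => ?_
        rw [h1 πΓ _ (p3 w), h1 (πm m) _ (q3 m w), MonoidHom.comp_apply, h2, map_one, δ_apply,
          δ_apply, if_pos rfl, if_pos rfl]
      · filter_upwards [qm_faithful h2] with m hm
        rw [h1 πΓ _ (p3 w), h1 (πm m) _ (q3 m w), MonoidHom.comp_apply, δ_apply, δ_apply,
          if_neg (Ne.symm h2), if_neg (Ne.symm hm)]
  have conv2 : ∀ x, Tendsto (fun m => gφ (πm m) x) atTop (𝓝 (gφ πΓ x)) := fun x => by
    rw [Metric.tendsto_atTop]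
    intro ε hε
    obtain ⟨z, y, h1, h2⟩ := dense_appr hn hu x (show 0 < ε / 3 by positivity)
    obtain ⟨N, hN⟩ := Metric.tendsto_atTop.1 (conv z) (ε / 3) (by positivity)
    refine ⟨N, fun m hm => ?_⟩
    have h3 := hN m hm
    rw [dist_eq_norm] at h3 ⊢
    have a1 : gφ πΓ (Th hn hu.magic z) = gφ πΓ y := by unfold gφ; rw [h2 πΓ htt]
    have a2 : gφ (πm m) (Th hn hu.magic z) = gφ (πm m) y := by unfold gφ; rw [h2 (πm m) (httm m)]
    rw [a1, a2] at h3
    have b1 : ‖gφ πΓ x - gφ πΓ y‖ ≤ ‖x - y‖ := by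
      have : gφ πΓ x - gφ πΓ y = gφ πΓ (x - y) := (map_sub (TS.lin hTS) x y).symm
      rw [this]; exact TS.bd hTS _
    have b2 : ‖gφ (πm m) x - gφ (πm m) y‖ ≤ ‖x - y‖ := by
      have : gφ (πm m) x - gφ (πm m) y = gφ (πm m) (x - y) := (map_sub (TS.lin (hTSm m)) x y).symm
      rw [this]; exact TS.bd (hTSm m) _
    have e : gφ (πm m) x - gφ πΓ x = (gφ (πm m) x - gφ (πm m) y) + (gφ (πm m) y - gφ πΓ y) -
      (gφ πΓ x - gφ πΓ y) := by ring
    rw [e]
    have := norm_sub_le ((gφ (πm m) x - gφ (πm m) y) + (gφ (πm m) y - gφ πΓ y))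
      (gφ πΓ x - gφ πΓ y)
    have := norm_add_le (gφ (πm m) x - gφ (πm m) y) (gφ (πm m) y - gφ πΓ y)
    linarith
  have hn0 : (0 : ℝ) < n := Nat.cast_pos.2 (by omega)
  refine ⟨TS.clm hTS, TS.isTrace hTS, 1 / (24000 * n), by positivity,
    fun m => TS.clm (hTSm (m + 1)), fun m => TS.isTrace (hTSm (m + 1)),
    fun x => (conv2 x).comp (tendsto_add_atTop_nat 1), fun m r s h => ?_⟩
  have : NeZero (m + 1) := ⟨by omega⟩
  have : Fintype (Gm (m + 1)) := Fintype.ofFinite _
  exact low hn hu.magic fG (qm (m + 1)) ((qm_surj (m + 1)).comp fG_surj) gapG p3 (q3 (m + 1))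
    (fun _ => rfl) (fun _ => rfl) h

end

end Pool.Agent.Helper71q
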