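import Pool.Agent.H75.QPDefs

set_option autoImplicit false
set_option linter.unusedSectionVars false

namespace Pool.Agent.Helper71q
open Pool.Agent.H75.QP Pool.Agent.H75 Finset Topology Filter

section
variable {n : ℕ} {A : Type} [CStarAlgebra A] {u : Fin n → Fin n → A}

/-- the universal algebra is generated by the `u i j` -/
theorem gen (hu : Universal u) (S : StarSubalgebra ℂ A) (hS : IsClosed (S : Set A))
    (hm : ∀ i j, u i j ∈ S) (a : A) : a ∈ S := by
  have : IsClosed (S : Set A) := hS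
  obtain ⟨ρ, hρ⟩ := (hu.lift S (fun i j => ⟨_, hm i j⟩)
    ⟨fun i j => ⟨Subtype.ext (hu.magic.proj i j).1, Subtype.ext (hu.magic.proj i j).2⟩,
      fun i => Subtype.ext (by simpa using hu.magic.row i),
      fun i => Subtype.ext (by simpa using hu.magic.col i)⟩).exists
  have : StarAlgHom.id ℂ A = S.subtype.comp ρ :=
    (hu.lift A _ hu.magic).unique (fun _ _ => rfl) fun i j => by simp [hρ]
  have h2 := congrArg (fun f : A →⋆ₐ[ℂ] A => f a) this
  have h3 : a = (ρ a : A) := h2
  rw [h3]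
  exact (ρ a).2

theorem orth {ι : Type} [Fintype ι] [DecidableEq ι] (p : ι → A) (hp : ∀ i, IsStarProjection (p i))
    (hs : ∑ i, p i = 1) {k l : ι} (h : l ≠ k) : p l * p k = 0 := by
  let _ : PartialOrder A := CStarAlgebra.spectralOrder A
  let _ : StarOrderedRing A := CStarAlgebra.spectralOrderedRing A
  have e : ∀ l, star (p l * p k) * (p l * p k) = p k * p l * p k := fun l => by
    rw [star_mul, (hp l).isSelfAdjoint.star_eq, (hp k).isSelfAdjoint.star_eq, mul_assoc,
      ← mul_assoc (p l), (hp l).isIdempotentElem.eq, mul_assoc]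
  have h1 : ∑ l, star (p l * p k) * (p l * p k) = p k := by
    simp only [e]
    rw [← sum_mul, ← mul_sum, hs, mul_one, (hp k).isIdempotentElem.eq]
  rw [← add_sum_erase _ _ (mem_univ k)] at h1
  have e2 : star (p k * p k) * (p k * p k) = p k := by
    rw [e, (hp k).isIdempotentElem.eq, (hp k).isIdempotentElem.eq]
  rw [e2, add_eq_left] at h1
  have h2 := (sum_eq_zero_iff_of_nonneg (fun l _ => star_mul_self_nonneg _)).1 h1 l
    (mem_erase.2 ⟨h, mem_univ _⟩)
  exact (CStarRing.star_mul_self_eq_zero_iff _).1 h2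

end

/-- characters of the Klein four-group -/
def ch : Fin 4 → Fin 4 → ℤ := ![![1, 1, 1, 1], ![1, -1, 1, -1], ![1, 1, -1, -1], ![1, -1, -1, 1]]

/-- multiplication of the Klein four-group -/
def op : Fin 4 → Fin 4 → Fin 4 := ![![0, 1, 2, 3], ![1, 0, 3, 2], ![2, 3, 0, 1], ![3, 2, 1, 0]]

theorem ch_op : ∀ s t g, ch (op s t) g = ch s g * ch t g := by decide
theorem ch_orth : ∀ g g', ∑ s, ch s g * ch s g' = if g = g' then 4 else 0 := by decide
theorem ch_sum : ∀ t, ∑ h, ch t h = if t = 0 then 4 else 0 := by decide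
theorem ch_zero : ∀ g, ch 0 g = 1 := by decide

theorem sum4 {M : Type} [AddCommGroup M] (f : Fin 4 → M) (s s' : Fin 4) (h0 : s ≠ 0) (h1 : s' ≠ 0)
    (h2 : s ≠ s') : ∑ i, f i = f 0 + f s + f s' + f (op s s') := by
  fin_cases s <;> fin_cases s' <;> simp_all [Fin.sum_univ_four, op] <;> abel

section
variable {A : Type} [CStarAlgebra A] {u : Fin 4 → Fin 4 → A}

/-- rows transformed -/
def yy (u : Fin 4 → Fin 4 → A) (t g : Fin 4) : A := ∑ h, ch t h • u g h

/-- the generators of `C(SO_{-1}(3))` (and `1` and zeros) -/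
noncomputable def xx (u : Fin 4 → Fin 4 → A) (s t : Fin 4) : A :=
  (1 / 4 : ℂ) • ∑ g, ch s g • yy u t g

theorem yy_mul (hu : Magic u) (t t' g : Fin 4) : yy u t g * yy u t' g = yy u (op t t') g := by
  unfold yy
  rw [sum_mul_sum]
  refine sum_congr rfl fun h _ => ?_
  rw [sum_eq_single h]
  · rw [smul_mul_smul_comm, (hu.proj g h).isIdempotentElem.eq, ch_op]
  · intro b _ hb
    rw [smul_mul_smul_comm, orth (u g) (hu.proj g) (hu.row g) (Ne.symm hb), smul_zero]
  · intro h; exact absurd (mem_univ _) h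

theorem xx_F (hu : Magic u) (r t t' : Fin 4) :
    ∑ s, xx u s t * xx u (op s r) t' = xx u r (op t t') := by
  have h1 : ∀ s, xx u s t * xx u (op s r) t' = (1 / 16 : ℂ) •
      ∑ g, ∑ g', (ch s g * ch s g') • (ch r g' • (yy u t g * yy u t' g')) := fun s => by
    unfold xx
    rw [smul_mul_smul_comm, sum_mul_sum, show (1 / 4 : ℂ) * (1 / 4) = 1 / 16 by norm_num]
    congr 1
    refine sum_congr rfl fun g _ => sum_congr rfl fun g' _ => ?_
    rw [smul_mul_smul_comm, ch_op, smul_smul, mul_assoc]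
  simp only [h1]
  have h2 : ∀ g, ∑ s, ∑ g', (ch s g * ch s g') • (ch r g' • (yy u t g * yy u t' g')) =
      (4 : ℤ) • (ch r g • yy u (op t t') g) := fun g => by
    rw [sum_comm]
    simp only [← sum_smul, ch_orth]
    rw [sum_eq_single g]
    · rw [if_pos rfl, yy_mul hu]
    · intro b _ hb
      rw [if_neg (Ne.symm hb), zero_smul]
    · intro h; exact absurd (mem_univ _) h
  rw [← smul_sum, sum_comm]
  simp only [h2]
  unfold xx
  rw [← smul_sum, ← Int.cast_smul_eq_zsmul ℂ, smul_smul]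
  norm_num

theorem xx_sa (hu : Magic u) (s t : Fin 4) : star (xx u s t) = xx u s t := by
  unfold xx yy
  simp only [star_smul, star_sum, (hu.proj _ _).isSelfAdjoint.star_eq]
  norm_num

theorem xx_inv (g h : Fin 4) : u g h = (1 / 4 : ℂ) • ∑ s, ∑ t, (ch s g * ch t h) • xx u s t := by
  unfold xx yy
  have e : ∀ s t, (ch s g * ch t h) • ((1 / 4 : ℂ) • ∑ g', ch s g' • ∑ h', ch t h' • u g' h') =
      (1 / 4 : ℂ) • ∑ g', ∑ h', (ch s g * ch s g') • ((ch t h * ch t h') • u g' h') := fun s t => by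
    rw [smul_comm]
    congr 1
    rw [smul_sum]
    refine sum_congr rfl fun g' _ => ?_
    rw [smul_sum, smul_sum]
    refine sum_congr rfl fun h' _ => ?_
    simp only [smul_smul]
    congr 1
    ring
  have e3 : ∑ s, ∑ t, (ch s g * ch t h) • ((1 / 4 : ℂ) • ∑ g', ch s g' • ∑ h', ch t h' • u g' h') =
      (1 / 4 : ℂ) • ∑ s, ∑ t, ∑ g', ∑ h', (ch s g * ch s g') • ((ch t h * ch t h') • u g' h') := by
    rw [smul_sum]
    refine sum_congr rfl fun s _ => ?_
    rw [smul_sum]
    exact sum_congr rfl fun t _ => e s t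
  rw [e3, smul_smul]
  have e2 : ∑ s, ∑ t, ∑ g', ∑ h', (ch s g * ch s g') • ((ch t h * ch t h') • u g' h') =
      (16 : ℤ) • u g h := by
    have a1 : ∀ s, ∑ t, ∑ g', ∑ h', (ch s g * ch s g') • ((ch t h * ch t h') • u g' h') =
        ∑ g', (ch s g * ch s g') • ((4 : ℤ) • u g' h) := fun s => by
      rw [sum_comm]
      refine sum_congr rfl fun g' _ => ?_
      rw [sum_comm]
      simp only [← smul_sum, ← sum_smul, ch_orth]
      congr 1
      rw [sum_eq_single h]
      · rw [if_pos rfl]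
      · intro b _ hb
        rw [if_neg (Ne.symm hb), zero_smul]
      · intro h; exact absurd (mem_univ _) h
    simp only [a1]
    rw [sum_comm]
    simp only [← sum_smul, ch_orth]
    rw [sum_eq_single g]
    · rw [if_pos rfl, smul_smul]; norm_num
    · intro b _ hb
      rw [if_neg (Ne.symm hb), zero_smul]
    · intro h; exact absurd (mem_univ _) h
  rw [e2, ← Int.cast_smul_eq_zsmul ℂ, smul_smul]
  norm_num

theorem xx_col (hu : Magic u) (s t : Fin 4) (h : s = 0) : xx u s t = if t = 0 then 1 else 0 := by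
  subst h
  unfold xx yy
  simp only [ch_zero, one_smul]
  rw [sum_comm]
  simp only [← smul_sum, hu.col, ← sum_smul, ch_sum]
  split_ifs
  · rw [← Int.cast_smul_eq_zsmul ℂ, smul_smul]; norm_num
  · simp

theorem xx_swap (s t : Fin 4) : xx u s t = xx (fun i j => u j i) t s := by
  unfold xx yy
  congr 1
  simp only [smul_sum]
  rw [sum_comm]
  refine sum_congr rfl fun g _ => sum_congr rfl fun h _ => ?_
  rw [smul_comm]

theorem magic_swap (hu : Magic u) : Magic fun i j => u j i :=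
  ⟨fun i j => hu.proj j i, fun i => hu.col i, fun i => hu.row i⟩

theorem op_facts : ∀ s s', op 0 s = s ∧ op s s = 0 ∧ op s (op s s') = s' ∧ op s' (op s s') = s ∧
    (s ≠ s' → op s s' ≠ 0) := by decide

theorem xx_G (hu : Magic u) {s s' t t' : Fin 4} (h0 : s ≠ 0) (h1 : s' ≠ 0) (h2 : s ≠ s')
    (ht : t ≠ 0) (ht' : t' ≠ 0) :
    xx u s t * xx u s' t' + xx u s' t * xx u s t' = xx u (op s s') (op t t') := by
  rw [← xx_F hu (op s s') t t', sum4 _ s s' h0 h1 h2]
  have f := op_facts s s'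
  rw [f.2.2.1, f.2.2.2.1, (op_facts (op s s') 0).2.1, xx_col hu 0 t rfl, xx_col hu 0 t' rfl,
    if_neg ht, if_neg ht', zero_mul, mul_zero, zero_add, add_zero]

theorem xx_anti (hu : Magic u) {s s' t : Fin 4} (h0 : s ≠ 0) (h1 : s' ≠ 0) (h2 : s ≠ s')
    (ht : t ≠ 0) : xx u s t * xx u s' t = -(xx u s' t * xx u s t) := by
  have := xx_G hu h0 h1 h2 ht ht
  rw [(op_facts t t).2.1, xx_swap (op s s') 0, xx_col (magic_swap hu) 0 _ rfl,
    if_neg ((op_facts s s').2.2.2.2 h2)] at this
  exact eq_neg_of_add_eq_zero_left this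

theorem xx_comm (hu : Magic u) {s s' t t' : Fin 4} (h0 : s ≠ 0) (h1 : s' ≠ 0) (h2 : s ≠ s')
    (ht : t ≠ 0) (ht' : t' ≠ 0) (h3 : t ≠ t') :
    xx u s' t * xx u s t' = xx u s t' * xx u s' t := by
  have a1 := xx_G hu h0 h1 h2 ht ht'
  have a2 := xx_G (magic_swap hu) ht ht' h3 h0 h1
  simp only [← xx_swap] at a2
  rw [← a2] at a1
  exact add_left_cancel a1

/-- the relations -/
theorem xx_rel (hu : Magic u) (p q : Fin 4 × Fin 4) :
    xx u p.1 p.2 * xx u q.1 q.2 = xx u q.1 q.2 * xx u p.1 p.2 ∨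
      xx u p.1 p.2 * xx u q.1 q.2 = -(xx u q.1 q.2 * xx u p.1 p.2) := by
  obtain ⟨s, t⟩ := p
  obtain ⟨s', t'⟩ := q
  have z1 : ∀ {s t : Fin 4}, s = 0 → ∀ y : A, xx u s t * y = y * xx u s t := fun {s t} h y => by
    rw [xx_col hu _ _ h]; split_ifs <;> simp
  have z2 : ∀ {s t : Fin 4}, t = 0 → ∀ y : A, xx u s t * y = y * xx u s t := fun {s t} h y => by
    rw [xx_swap, xx_col (magic_swap hu) _ _ h]; split_ifs <;> simp
  dsimp only
  by_cases a1 : s = 0
  · exact Or.inl (z1 a1 _)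
  by_cases a2 : t = 0
  · exact Or.inl (z2 a2 _)
  by_cases a3 : s' = 0
  · exact Or.inl (z1 a3 _).symm
  by_cases a4 : t' = 0
  · exact Or.inl (z2 a4 _).symm
  by_cases h1 : s = s'
  · subst h1
    by_cases h2 : t = t'
    · subst h2; exact Or.inl rfl
    · right
      rw [xx_swap s t, xx_swap s t']
      exact xx_anti (magic_swap hu) a2 a4 h2 a1
  · by_cases h2 : t = t'
    · subst h2
      exact Or.inr (xx_anti hu a1 a3 h1 a2)
    · exact Or.inl (xx_comm hu a3 a1 (Ne.symm h1) a2 a4 h2)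

/-- for `n = 4` the extreme traces are matrix traces, hence the weak-* topology and the `d_1`
topology agree -/
theorem gen4 (hu : Universal u) (S : StarSubalgebra ℂ A) (hS : IsClosed (S : Set A))
    (h : ∀ p : Fin 4 × Fin 4, xx u p.1 p.2 ∈ S) (a : A) : a ∈ S := by
  refine gen hu S hS (fun i j => ?_) a
  rw [xx_inv (u := u) i j]
  exact SMulMemClass.smul_mem _ (sum_mem fun s _ => sum_mem fun t _ => zsmul_mem (h (s, t)) _)

end

end Pool.Agent.Helper71q
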