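import Pool.Agent.Helper71q.Lam
import Pool.Agent.Helper71q.Four

set_option autoImplicit false
set_option linter.unusedSectionVars false

namespace Pool.Agent.Helper71q
open Pool.Agent.H75.QP Pool.Agent.H75 Finset Pool.Agent.H86.Roe Filter Topology
open scoped InnerProductSpace ComplexOrder

/-- magic unitaries from the powers of a permutation -/
theorem magic_perm {n : ℕ} {B : Type} [CStarAlgebra B] (σ : Equiv.Perm (Fin n))
    (d : Fin 3 → Fin n → B) (hd : ∀ c i, IsStarProjection (d c i))
    (ho : ∀ c c' i, c ≠ c' → d c i * d c' i = 0) (hs : ∀ i, ∑ c, d c i = 1)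
    (hi : ∀ c i, d c (σ i) = d c i) :
    Magic fun i j => ∑ c : Fin 3, if j = (σ ^ (c : ℕ)) i then d c i else 0 where
  proj i j := by
    refine ⟨?_, ?_⟩
    · change _ * _ = _
      rw [sum_mul_sum]
      refine sum_congr rfl fun c _ => ?_
      rw [sum_eq_single c]
      · split_ifs
        · exact (hd c i).isIdempotentElem
        · rw [mul_zero]
      · intro c' _ hc
        split_ifs
        · exact ho c c' i (Ne.symm hc)
        all_goals simp
      · intro h; exact absurd (mem_univ _) h
    · change star _ = _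
      rw [star_sum]
      refine sum_congr rfl fun c _ => ?_
      split_ifs
      · exact (hd c i).isSelfAdjoint
      · exact star_zero _
  row i := by
    rw [sum_comm]
    simp only [sum_ite_eq', mem_univ, if_true]
    exact hs i
  col j := by
    rw [sum_comm]
    have hk : ∀ (k : ℕ) c i, d c ((σ ^ k) i) = d c i := fun k c i => by
      induction k with
      | zero => rfl
      | succ k ih => rw [pow_succ', Equiv.Perm.mul_apply, hi, ih]
    have : ∀ c : Fin 3, ∑ i, (if j = (σ ^ (c : ℕ)) i then d c i else 0) = d c j := fun c => by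
      have h1 : ∀ i, (j = (σ ^ (c : ℕ)) i) ↔ ((σ ^ (c : ℕ))⁻¹ j = i) := fun i =>
        ⟨fun h => by rw [h]; simp, fun h => by rw [← h]; simp⟩
      simp only [h1, sum_ite_eq, mem_univ, if_true]
      have := hk c c ((σ ^ (c : ℕ))⁻¹ j)
      rw [← this]
      simp
    simp only [this]
    exact hs j

/-- the permutation `(0 1)(2 3 4)` of `Fin n` -/
def sg {n : ℕ} (hn : 5 ≤ n) : Equiv.Perm (Fin n) where
  toFun i := if i.val = 0 then ⟨1, by omega⟩ else if i.val = 1 then ⟨0, by omega⟩ else
    if i.val = 2 then ⟨3, by omega⟩ else if i.val = 3 then ⟨4, by omega⟩ else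
    if i.val = 4 then ⟨2, by omega⟩ else i
  invFun i := if i.val = 0 then ⟨1, by omega⟩ else if i.val = 1 then ⟨0, by omega⟩ else
    if i.val = 2 then ⟨4, by omega⟩ else if i.val = 3 then ⟨2, by omega⟩ else
    if i.val = 4 then ⟨3, by omega⟩ else i
  left_inv i := by
    have := i.2
    by_cases h0 : i.val = 0 <;> by_cases h1 : i.val = 1 <;> by_cases h2 : i.val = 2 <;>
      by_cases h3 : i.val = 3 <;> by_cases h4 : i.val = 4 <;> simp_all [Fin.ext_iff]
  right_inv i := by
    have := i.2
    by_cases h0 : i.val = 0 <;> by_cases h1 : i.val = 1 <;> by_cases h2 : i.val = 2 <;>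
      by_cases h3 : i.val = 3 <;> by_cases h4 : i.val = 4 <;> simp_all [Fin.ext_iff]

/-- a primitive third root of unity -/
noncomputable def om : ℂ := -(1 / 2) + (√3 / 2 : ℝ) * Complex.I

theorem om1 : 1 + om + om ^ 2 = 0 := by
  have h : ((√3 : ℝ) : ℂ) ^ 2 = 3 := by
    rw [← Complex.ofReal_pow, Real.sq_sqrt (by norm_num)]; norm_num
  have hI : Complex.I ^ 2 = -1 := Complex.I_sq
  unfold om
  push_cast
  linear_combination (1 / 4 * Complex.I ^ 2) * h + (3 / 4) * hI

theorem om2 : star om = om ^ 2 := by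
  have h : ((√3 : ℝ) : ℂ) ^ 2 = 3 := by
    rw [← Complex.ofReal_pow, Real.sq_sqrt (by norm_num)]; norm_num
  have hI : Complex.I ^ 2 = -1 := Complex.I_sq
  unfold om
  simp only [star_add, star_neg, star_mul', star_div₀, Complex.star_def, Complex.conj_I,
    Complex.conj_ofReal, map_one, map_ofNat]
  push_cast
  linear_combination (-1 / 4 * Complex.I ^ 2) * h - (3 / 4) * hI

theorem om3 : om ^ 3 = 1 := by
  linear_combination (om - 1) * om1

section
variable {B : Type} [CStarAlgebra B]

/-- the spectral projection of an involution -/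
noncomputable def pp (a : B) : B := (1 / 2 : ℂ) • (1 + a)

/-- the spectral projections of an element of order three -/
noncomputable def qq (b : B) (j : Fin 3) : B :=
  (1 / 3 : ℂ) • (1 + (om ^ (2 * (j : ℕ))) • b + (om ^ ((j : ℕ))) • (b * b))

structure Ab (a b : B) : Prop where
  sa : star a = a
  a2 : a * a = 1
  sb : star b = b * b
  b3 : b * b * b = 1

theorem pp_proj {a b : B} (h : Ab a b) : IsStarProjection (pp a) := by
  refine ⟨?_, ?_⟩
  · change _ * _ = _
    unfold pp
    rw [smul_mul_smul_comm, add_mul, mul_add, mul_add, h.a2]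
    simp only [one_mul, mul_one]
    module
  · change star _ = _
    unfold pp
    rw [star_smul, star_add, star_one, h.sa]
    congr 1
    simp

theorem qq_sa {a b : B} (h : Ab a b) (j : Fin 3) : star (qq b j) = qq b j := by
  have hbb : star (b * b) = b := by
    rw [star_mul, h.sb]
    have : b * b * (b * b) = b * b * b * b := by simp only [mul_assoc]
    rw [this, h.b3, one_mul]
  unfold qq
  rw [star_smul, star_add, star_add, star_one, star_smul, star_smul, h.sb, hbb, star_pow, star_pow,
    om2]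
  have e1 : star (1 / 3 : ℂ) = 1 / 3 := by simp
  have e2 : (om ^ 2) ^ (2 * (j : ℕ)) = om ^ (j : ℕ) := by
    rw [← pow_mul, show 2 * (2 * (j : ℕ)) = 3 * j + j by ring, pow_add, pow_mul, om3, one_pow,
      one_mul]
  have e3 : (om ^ 2) ^ (j : ℕ) = om ^ (2 * (j : ℕ)) := by rw [← pow_mul]
  rw [e1, e2, e3]
  congr 1
  abel

/-- powers of `om` -/
noncomputable def oX : Fin 3 → ℂ := ![1, -1 - om, om]
noncomputable def oY : Fin 3 → ℂ := ![1, om, -1 - om]

theorem oX_eq (j : Fin 3) : om ^ (2 * (j : ℕ)) = oX j := by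
  have h1 := om1
  fin_cases j
  · simp [oX]
  · simp [oX]; linear_combination h1
  · simp [oX]; linear_combination om * om3

theorem oY_eq (j : Fin 3) : om ^ (j : ℕ) = oY j := by
  have h1 := om1
  fin_cases j
  · simp [oY]
  · simp [oY]
  · simp [oY]; linear_combination h1

theorem oc0 (j k : Fin 3) : 1 + oX j * oY k + oY j * oX k = if j = k then 3 else 0 := by
  have h1 := om1
  fin_cases j <;> fin_cases k <;> simp [oX, oY] <;>
    first
    | linear_combination 0 * h1
    | linear_combination h1
    | linear_combination -h1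
    | linear_combination 2 * h1
    | linear_combination -2 * h1

theorem oc1 (j k : Fin 3) : oX j + oX k + oY j * oY k = if j = k then 3 * oX j else 0 := by
  have h1 := om1
  fin_cases j <;> fin_cases k <;> simp [oX, oY] <;>
    first
    | linear_combination 0 * h1
    | linear_combination h1
    | linear_combination -h1
    | linear_combination 2 * h1
    | linear_combination -2 * h1

theorem oc2 (j k : Fin 3) : oY j + oY k + oX j * oX k = if j = k then 3 * oY j else 0 := by
  have h1 := om1
  fin_cases j <;> fin_cases k <;> simp [oX, oY] <;>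
    first
    | linear_combination 0 * h1
    | linear_combination h1
    | linear_combination -h1
    | linear_combination 2 * h1
    | linear_combination -2 * h1

theorem qq_mul {a b : B} (h : Ab a b) (j k : Fin 3) :
    qq b j * qq b k = if j = k then qq b j else 0 := by
  have e : ∀ x y z w : ℂ, (1 + x • b + y • (b * b)) * (1 + z • b + w • (b * b)) =
      (1 + x * w + y * z) • (1 : B) + (x + z + y * w) • b + (y + w + x * z) • (b * b) :=
    fun x y z w => by
      have h1 : b * (b * b) = 1 := by rw [← mul_assoc, h.b3]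
      have h2 : b * b * (b * b) = b := by
        have : b * b * (b * b) = b * b * b * b := by simp only [mul_assoc]
        rw [this, h.b3, one_mul]
      simp only [add_mul, mul_add, one_mul, mul_one, h1, h2, h.b3,
        smul_mul_assoc, mul_smul_comm]
      module
  unfold qq
  rw [smul_mul_smul_comm, e, oX_eq, oX_eq, oY_eq, oY_eq, oc0, oc1, oc2]
  split_ifs
  · module
  · simp

theorem qq_proj {a b : B} (h : Ab a b) (j : Fin 3) : IsStarProjection (qq b j) := by
  refine ⟨?_, qq_sa h j⟩
  change _ * _ = _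
  rw [qq_mul h, if_pos rfl]

theorem qq_sum (b : B) : ∑ j, qq b j = 1 := by
  have h1 := om1
  unfold qq
  simp only [oX_eq, oY_eq, Fin.sum_univ_three]
  simp only [oX, oY, Matrix.cons_val_zero, Matrix.cons_val_one, Matrix.cons_val]
  module

/-- the three families of projections -/
noncomputable def dd {n : ℕ} (a b : B) (c : Fin 3) (i : Fin n) : B :=
  if i.val < 2 then ![pp a, 1 - pp a, 0] c else if i.val < 5 then qq b c else ![1, 0, 0] c

theorem dd_magic {n : ℕ} (hn : 5 ≤ n) {a b : B} (h : Ab a b) :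
    Magic fun i j => ∑ c : Fin 3, if j = (sg hn ^ (c : ℕ)) i then dd a b c i else 0 := by
  refine magic_perm (sg hn) (fun c i => dd a b c i) (fun c i => ?_) (fun c c' i hc => ?_)
    (fun i => ?_) (fun c i => ?_)
  · unfold dd
    split_ifs
    · fin_cases c
      · exact pp_proj h
      · exact (pp_proj h).one_sub
      · exact .zero _
    · exact qq_proj h c
    · fin_cases c
      · exact .one _
      · exact .zero _
      · exact .zero _
  · unfold dd
    have hp : pp a * pp a = pp a := (pp_proj h).isIdempotentElem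
    split_ifs
    · fin_cases c <;> fin_cases c' <;> simp_all [mul_sub, sub_mul]
    · rw [qq_mul h, if_neg hc]
    · fin_cases c <;> fin_cases c' <;> simp_all
  · unfold dd
    split_ifs
    · simp [Fin.sum_univ_three]
    · exact qq_sum b
    · simp [Fin.sum_univ_three]
  · unfold dd
    have h1 : (sg hn i).val < 2 ↔ i.val < 2 := by
      simp only [sg, Equiv.coe_fn_mk]
      split_ifs <;> simp_all <;> omega
    have h2 : (sg hn i).val < 5 ↔ i.val < 5 := by
      simp only [sg, Equiv.coe_fn_mk]
      split_ifs <;> simp_all <;> omega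
    simp only [h1, h2]

end

section
variable {n : ℕ} {A : Type} [CStarAlgebra A] {u : Fin n → Fin n → A}

/-- the involution in `C(S_n^+)` -/
noncomputable def aA (hn : 5 ≤ n) (u : Fin n → Fin n → A) : A :=
  (2 : ℂ) • u ⟨0, by omega⟩ ⟨0, by omega⟩ - 1

/-- the unitary with three eigenvalues in `C(S_n^+)` -/
noncomputable def bA (hn : 5 ≤ n) (u : Fin n → Fin n → A) : A :=
  1 + (om - 1) • u ⟨2, by omega⟩ ⟨3, by omega⟩ + (om ^ 2 - 1) • u ⟨2, by omega⟩ ⟨4, by omega⟩

theorem aA_sa (hn : 5 ≤ n) (hu : Magic u) : star (aA hn u) = aA hn u := by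
  unfold aA
  rw [star_sub, star_one, star_smul, (hu.proj _ _).isSelfAdjoint.star_eq]
  simp

theorem aA_sq (hn : 5 ≤ n) (hu : Magic u) : aA hn u * aA hn u = 1 := by
  unfold aA
  have := (hu.proj ⟨0, by omega⟩ ⟨0, by omega⟩).isIdempotentElem
  have h2 : u ⟨0, by omega⟩ ⟨0, by omega⟩ * u ⟨0, by omega⟩ ⟨0, by omega⟩ =
    u ⟨0, by omega⟩ ⟨0, by omega⟩ := this
  rw [sub_mul, mul_sub, smul_mul_smul_comm, h2]
  simp only [mul_one, one_mul]
  module

theorem omc : (om - 1) * star (om - 1) = 3 ∧ (om ^ 2 - 1) * star (om ^ 2 - 1) = 3 := by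
  have h1 := om1
  have h3 := om3
  constructor
  · rw [star_sub, star_one, om2]
    linear_combination h3 - h1
  · rw [star_sub, star_one, star_pow, om2]
    linear_combination (om ^ 3 + 1) * h3 - (om ^ 2 - om + 1) * h1

theorem bA_star (hn : 5 ≤ n) (hu : Magic u) : star (bA hn u) =
    1 + (om ^ 2 - 1) • u ⟨2, by omega⟩ ⟨3, by omega⟩ + (om - 1) • u ⟨2, by omega⟩ ⟨4, by omega⟩ := by
  have h3 := om3
  unfold bA
  rw [star_add, star_add, star_one, star_smul, star_smul, (hu.proj _ _).isSelfAdjoint.star_eq,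
    (hu.proj _ _).isSelfAdjoint.star_eq, star_sub, star_sub, star_one, star_pow, om2]
  congr 2
  linear_combination om * h3

theorem bA_un (hn : 5 ≤ n) (hu : Magic u) : bA hn u ∈ unitary A := by
  have h1 := om1
  have h3 := om3
  have hp : u ⟨2, by omega⟩ ⟨3, by omega⟩ * u ⟨2, by omega⟩ ⟨3, by omega⟩ =
    u ⟨2, by omega⟩ ⟨3, by omega⟩ := (hu.proj _ _).isIdempotentElem
  have hq : u ⟨2, by omega⟩ ⟨4, by omega⟩ * u ⟨2, by omega⟩ ⟨4, by omega⟩ =
    u ⟨2, by omega⟩ ⟨4, by omega⟩ := (hu.proj _ _).isIdempotentElem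
  have hpq : u ⟨2, by omega⟩ ⟨3, by omega⟩ * u ⟨2, by omega⟩ ⟨4, by omega⟩ = 0 :=
    orth (u ⟨2, by omega⟩) (hu.proj _) (hu.row _) (by simp)
  have hqp : u ⟨2, by omega⟩ ⟨4, by omega⟩ * u ⟨2, by omega⟩ ⟨3, by omega⟩ = 0 :=
    orth (u ⟨2, by omega⟩) (hu.proj _) (hu.row _) (by simp)
  have e : ∀ x y z w : ℂ, (1 + x • u ⟨2, by omega⟩ ⟨3, by omega⟩ + y • u ⟨2, by omega⟩ ⟨4, by omega⟩) *
      (1 + z • u ⟨2, by omega⟩ ⟨3, by omega⟩ + w • u ⟨2, by omega⟩ ⟨4, by omega⟩) =
      1 + (x + z + x * z) • u ⟨2, by omega⟩ ⟨3, by omega⟩ +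
        (y + w + y * w) • u ⟨2, by omega⟩ ⟨4, by omega⟩ := fun x y z w => by
    simp only [add_mul, mul_add, one_mul, mul_one, smul_mul_assoc, mul_smul_comm, hp, hq, hpq, hqp]
    module
  constructor
  · rw [bA_star hn hu]
    unfold bA
    rw [e]
    have e1 : om ^ 2 - 1 + (om - 1) + (om ^ 2 - 1) * (om - 1) = 0 := by linear_combination h3
    have e2 : om - 1 + (om ^ 2 - 1) + (om - 1) * (om ^ 2 - 1) = 0 := by linear_combination h3
    rw [e1, e2]
    simp
  · rw [bA_star hn hu]
    unfold bA
    rw [e]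
    have e1 : om - 1 + (om ^ 2 - 1) + (om - 1) * (om ^ 2 - 1) = 0 := by linear_combination h3
    have e2 : om ^ 2 - 1 + (om - 1) + (om ^ 2 - 1) * (om - 1) = 0 := by linear_combination h3
    rw [e1, e2]
    simp

theorem aA_un (hn : 5 ≤ n) (hu : Magic u) : aA hn u ∈ unitary A :=
  ⟨by rw [aA_sa hn hu, aA_sq hn hu], by rw [aA_sa hn hu, aA_sq hn hu]⟩

/-- words in the two unitaries -/
noncomputable def wA (hn : 5 ≤ n) (hu : Magic u) : FreeGroup (Fin 2) →* unitary A :=
  FreeGroup.lift ![⟨aA hn u, aA_un hn hu⟩, ⟨bA hn u, bA_un hn hu⟩]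

theorem wA_0 (hn : 5 ≤ n) (hu : Magic u) : (wA hn hu (FreeGroup.of 0) : A) = aA hn u := by
  simp [wA]

theorem wA_1 (hn : 5 ≤ n) (hu : Magic u) : (wA hn hu (FreeGroup.of 1) : A) = bA hn u := by
  simp [wA]

end

section
variable {n : ℕ} {A : Type} [CStarAlgebra A] {u : Fin n → Fin n → A}
  {G : Type} [Group G]

theorem lam_Ab {a b : G} (ha : a * a = 1) (hb : b * b * b = 1) : Ab (lam a) (lam b) := by
  refine ⟨?_, ?_, ?_, ?_⟩
  · rw [lam_star, inv_eq_of_mul_eq_one_left ha]
  · rw [← map_mul, ha, map_one]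
  · rw [lam_star, ← map_mul, eq_inv_of_mul_eq_one_left hb]
  · rw [← map_mul, ← map_mul, hb, map_one]

/-- the representation of `C(S_n^+)` given by a quotient of `ℤ₂ * ℤ₃` -/
theorem exπ (hn : 5 ≤ n) (hu : Universal u) (f : FreeGroup (Fin 2) →* G)
    (ha : f (.of 0) * f (.of 0) = 1) (hb : f (.of 1) * f (.of 1) * f (.of 1) = 1) :
    ∃ π : A →⋆ₐ[ℂ] (H G →L[ℂ] H G), (∀ i j, π (u i j) = ∑ c : Fin 3,
      if j = (sg hn ^ (c : ℕ)) i then dd (lam (f (.of 0))) (lam (f (.of 1))) c i else 0) ∧
      (∀ a k, rh k * π a = π a * rh k) ∧ (∀ w, π (wA hn hu.magic w : A) = lam (f w)) := by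
  have hAb := lam_Ab ha hb
  obtain ⟨π, hπ⟩ := (hu.lift _ _ (dd_magic hn hAb)).exists
  refine ⟨π, hπ, fun a k => ?_, fun w => ?_⟩
  · refine comm_gen hu π (rh k) (fun i j => ?_) a
    rw [hπ, mul_sum, sum_mul]
    refine sum_congr rfl fun c _ => ?_
    split_ifs
    · unfold dd
      have h1 := rh_lam k (f (.of 0))
      have h2 := rh_lam k (f (.of 1))
      have hp : rh k * pp (lam (f (.of 0))) = pp (lam (f (.of 0))) * rh k := by
        unfold pp
        rw [mul_smul_comm, smul_mul_assoc, mul_add, add_mul, h1, mul_one, one_mul]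
      split_ifs
      · fin_cases c
        · exact hp
        · change rh k * (1 - pp _) = (1 - pp _) * rh k
          rw [mul_sub, sub_mul, hp, mul_one, one_mul]
        · change rh k * 0 = 0 * rh k
          rw [mul_zero, zero_mul]
      · unfold qq
        have h3 : rh k * (lam (f (.of 1)) * lam (f (.of 1))) =
            lam (f (.of 1)) * lam (f (.of 1)) * rh k := by
          rw [← mul_assoc, h2, mul_assoc, h2, mul_assoc]
        simp only [mul_smul_comm, smul_mul_assoc, mul_add, add_mul, mul_one, one_mul, h2, h3]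
      · fin_cases c
        · change rh k * 1 = 1 * rh k
          rw [mul_one, one_mul]
        · change rh k * 0 = 0 * rh k
          rw [mul_zero, zero_mul]
        · change rh k * 0 = 0 * rh k
          rw [mul_zero, zero_mul]
    · rw [mul_zero, zero_mul]
  · have h00 : π (u ⟨0, by omega⟩ ⟨0, by omega⟩) = pp (lam (f (.of 0))) := by
      rw [hπ]
      simp [Fin.sum_univ_three, sg, dd, pow_two]
    have h23 : π (u ⟨2, by omega⟩ ⟨3, by omega⟩) = qq (lam (f (.of 1))) 1 := by
      rw [hπ]
      simp [Fin.sum_univ_three, sg, dd, pow_two]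
    have h24 : π (u ⟨2, by omega⟩ ⟨4, by omega⟩) = qq (lam (f (.of 1))) 2 := by
      rw [hπ]
      simp [Fin.sum_univ_three, sg, dd, pow_two]
    have e0 : π (aA hn u) = lam (f (.of 0)) := by
      unfold aA
      rw [map_sub, map_smul, map_one, h00]
      unfold pp
      module
    have e1 : π (bA hn u) = lam (f (.of 1)) := by
      unfold bA
      rw [map_add, map_add, map_smul, map_smul, map_one, h23, h24]
      have h1 := om1
      unfold qq
      simp only [oX_eq, oY_eq]
      simp only [oX, oY, Matrix.cons_val_zero, Matrix.cons_val_one, Matrix.cons_val]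
      have o2 : om ^ 2 = -1 - om := by linear_combination h1
      match_scalars
      · linear_combination (1 / 3 : ℂ) * h1
      · linear_combination (1 / 3 : ℂ) * om3 - (1 / 3 : ℂ) * h1
      · linear_combination -(1 / 3 : ℂ) * om3
    let F1 : FreeGroup (Fin 2) →* (H G →L[ℂ] H G) :=
      ((π : A →* (H G →L[ℂ] H G)).comp (unitary A).subtype).comp (wA hn hu.magic)
    have : F1 = lam.comp f := by
      refine FreeGroup.ext_hom _ _ fun i => ?_
      fin_cases i
      · change π (wA hn hu.magic (FreeGroup.of 0) : A) = lam (f (.of 0))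
        rw [wA_0, e0]
      · change π (wA hn hu.magic (FreeGroup.of 1) : A) = lam (f (.of 1))
        rw [wA_1, e1]
    exact congrArg (fun g : FreeGroup (Fin 2) →* (H G →L[ℂ] H G) => g w) this

end

end Pool.Agent.Helper71q
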