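import Pool.Agent.Helper71q.Gap
import Pool.Agent.Helper71q.Mag5
import Pool.Agent.H75.IL1

set_option autoImplicit false
set_option linter.unusedSectionVars false

namespace Pool.Agent.Helper71q
open Pool.Agent.H75.QP Pool.Agent.H75 Finset Pool.Agent.H86.Roe Filter Topology
open scoped InnerProductSpace ComplexOrder

section
variable {K : Type} [NormedAddCommGroup K] [InnerProductSpace ℂ K] [CompleteSpace K]
  {ξ : ℕ → K} (hξ : Summable fun i => ‖ξ i‖ ^ 2)

/-- Cauchy-Schwarz -/
theorem tcs (x y : K →L[ℂ] K) :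
    ‖IL.tr ξ hξ (star x * y)‖ ^ 2 ≤ (IL.tr ξ hξ (star x * x)).re * (IL.tr ξ hξ (star y * y)).re := by
  let c : PreInnerProductSpace.Core ℂ (K →L[ℂ] K) :=
    { inner := fun x y => IL.tr ξ hξ (star x * y)
      conj_inner_symm := fun x y => by
        change star (IL.tr ξ hξ (star y * x)) = IL.tr ξ hξ (star x * y)
        rw [← IL.tr_star, star_mul, star_star]
      re_inner_nonneg := fun x => IL.tr_pos ξ hξ (star_mul_self_nonneg x)
      add_left := fun x y z => by rw [star_add, add_mul, map_add]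
      smul_left := fun x y r => by
        rw [star_smul, smul_mul_assoc, map_smul]; rfl }
  have h := @InnerProductSpace.Core.inner_mul_inner_self_le ℂ (K →L[ℂ] K) _ _ _ c x y
  have h2 : ‖IL.tr ξ hξ (star y * x)‖ = ‖IL.tr ξ hξ (star x * y)‖ := by
    have : star y * x = star (star x * y) := by rw [star_mul, star_star]
    rw [this, IL.tr_star, norm_star]
  change ‖IL.tr ξ hξ (star x * y)‖ * ‖IL.tr ξ hξ (star y * x)‖ ≤ _ at h
  rw [h2, ← sq] at h
  exact h

/-- the square of the 2-norm -/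
noncomputable def N2 (x : K →L[ℂ] K) : ℝ := (IL.tr ξ hξ (star x * x)).re

theorem N2_nonneg (x : K →L[ℂ] K) : 0 ≤ N2 hξ x := IL.tr_pos ξ hξ (star_mul_self_nonneg x)

theorem N2_add (x y : K →L[ℂ] K) : N2 hξ (x + y) ≤ 2 * N2 hξ x + 2 * N2 hξ y := by
  have h : star (x + y) * (x + y) + star (x - y) * (x - y) =
      (2 : ℂ) • (star x * x) + (2 : ℂ) • (star y * y) := by
    simp only [star_add, star_sub, add_mul, mul_add, sub_mul, mul_sub]
    module
  have h1 := congrArg (fun z => (IL.tr ξ hξ z).re) h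
  simp only [map_add, map_smul, Complex.add_re, smul_eq_mul] at h1
  have h2 := N2_nonneg hξ (x - y)
  have r2 : ∀ z : ℂ, (2 * z).re = 2 * z.re := fun z => by simp
  rw [r2, r2] at h1
  unfold N2 at *
  linarith

theorem N2_smul (c : ℂ) (x : K →L[ℂ] K) : N2 hξ (c • x) = ‖c‖ ^ 2 * N2 hξ x := by
  unfold N2
  rw [star_smul, smul_mul_smul_comm, map_smul, smul_eq_mul]
  have : star c * c = ((‖c‖ ^ 2 : ℝ) : ℂ) := by
    rw [Complex.star_def, Complex.conj_mul']; push_cast; rfl
  rw [this, Complex.re_ofReal_mul]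

end

section
variable {n : ℕ} {A : Type} [CStarAlgebra A] {u : Fin n → Fin n → A}

/-- in a coupling the 2-norms are bounded by the cost -/
theorem cost_N2 (hu : Magic u) {K : Type} [NormedAddCommGroup K] [InnerProductSpace ℂ K]
    [CompleteSpace K] {M : VonNeumannAlgebra K} {τ : (K →L[ℂ] K) → ℂ}
    {ξ : ℕ → K} (hξ : Summable fun i => ‖ξ i‖ ^ 2)
    (hT : ∀ x ∈ M, τ x = IL.tr ξ hξ x) {α β : A →⋆ₐ[ℂ] (K →L[ℂ] K)}
    (hM : ∀ a, α a ∈ M ∧ β a ∈ M) (hn : 0 < n) :
    (∑ i, ∑ j, N2 hξ (α (u i j) - β (u i j))) ≤ 2 * n * costOne u τ α β := by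
  have key : ∀ i j, N2 hξ (α (u i j) - β (u i j)) ≤ (τ (CFC.abs (α (u i j) - β (u i j)))).re := by
    intro i j
    set p := α (u i j) with hp
    set q := β (u i j) with hq
    have hp1 : IsStarProjection p := (hu.proj i j).map α
    have hq1 : IsStarProjection q := (hu.proj i j).map β
    have hsa : IsSelfAdjoint (p - q) := hp1.isSelfAdjoint.sub hq1.isSelfAdjoint
    have hmem : CFC.abs (p - q) ∈ M := by
      rw [CFC.abs_eq_cfc_norm (p - q) hsa]
      exact Pool.Agent.H86.Wu.cfc_mem' M (sub_mem (hM _).1 (hM _).2) _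
    have hnorm : ‖p - q‖ ≤ 1 := by
      have e1 : star (p - q) * (p - q) + star (1 - p - q) * (1 - p - q) = 1 := by
        have a1 : p * p = p := hp1.isIdempotentElem
        have a2 : q * q = q := hq1.isIdempotentElem
        simp only [star_sub, star_one, hp1.isSelfAdjoint.star_eq, hq1.isSelfAdjoint.star_eq,
          sub_mul, mul_sub, a1, a2, one_mul, mul_one]
        abel
      have e2 : star (p - q) * (p - q) ≤ 1 := by
        rw [← e1]
        exact le_add_of_nonneg_right (star_mul_self_nonneg _)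
      rw [← CStarAlgebra.norm_le_one_iff_of_nonneg _ (star_mul_self_nonneg _),
        CStarRing.norm_star_mul_self, ← sq] at e2
      exact (sq_le_one_iff₀ (norm_nonneg _)).1 e2
    have habs : CFC.abs (p - q) ≤ 1 := by
      rw [← CStarAlgebra.norm_le_one_iff_of_nonneg _ (CFC.abs_nonneg _), CFC.norm_abs]
      exact hnorm
    have h3 := IL.sqle (CFC.abs_nonneg (p - q)) habs
    rw [CFC.abs_mul_abs] at h3
    rw [hT _ hmem]
    unfold N2
    have h4 := IL.tr_pos ξ hξ (sub_nonneg.2 h3)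
    rw [map_sub, Complex.sub_re] at h4
    linarith
  unfold costOne
  have hn' : (n : ℝ) ≠ 0 := Nat.cast_ne_zero.2 hn.ne'
  have h5 : 2 * (n : ℝ) * (1 / n * ∑ i, ∑ j, 1 / 2 * (τ (CFC.abs (α (u i j) - β (u i j)))).re) =
      ∑ i, ∑ j, (τ (CFC.abs (α (u i j) - β (u i j)))).re := by
    simp only [← mul_sum]
    field_simp
  rw [h5]
  exact sum_le_sum fun i _ => sum_le_sum fun j _ => key i j

end

end Pool.Agent.Helper71q
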