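import Pool.Agent.Helper71q.TopDefs
import Pool.Agent.Helper71q.Low
import Pool.Agent.H75.QP1

set_option autoImplicit false
set_option linter.unusedSectionVars false

namespace Pool.Agent.Helper71q
open Pool.Agent.H75.QP Pool.Agent.H75 Finset Filter Topology
open scoped InnerProductSpace ComplexOrder

section
variable {n : ℕ} {A : Type} [CStarAlgebra A] {u : Fin n → Fin n → A}

section
variable {K : Type} [NormedAddCommGroup K] [InnerProductSpace ℂ K] [CompleteSpace K]
  {ξ : ℕ → K} (hξ : Summable fun i => ‖ξ i‖ ^ 2) {M : VonNeumannAlgebra K}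

theorem N2_left (x y : K →L[ℂ] K) : N2 hξ (x * y) ≤ ‖x‖ ^ 2 * N2 hξ y := by
  have := IL.tr_bound ξ hξ y (star x * x)
  rw [CStarRing.norm_star_mul_self, ← sq] at this
  refine le_trans ?_ this
  unfold N2
  have e : star (x * y) * (x * y) = star y * (star x * x) * y := by
    rw [star_mul]; simp only [mul_assoc]
  rw [e]
  exact Complex.re_le_norm _

theorem N2_star (htr : ∀ x ∈ M, ∀ y ∈ M, IL.tr ξ hξ (x * y) = IL.tr ξ hξ (y * x))
    {x : K →L[ℂ] K} (hx : x ∈ M) : N2 hξ (star x) = N2 hξ x := by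
  unfold N2
  rw [star_star, htr _ hx _ (star_mem hx)]

theorem N2_right (htr : ∀ x ∈ M, ∀ y ∈ M, IL.tr ξ hξ (x * y) = IL.tr ξ hξ (y * x))
    {x y : K →L[ℂ] K} (hx : x ∈ M) (hy : y ∈ M) : N2 hξ (x * y) ≤ ‖y‖ ^ 2 * N2 hξ x := by
  rw [← N2_star hξ htr (mul_mem hx hy), star_mul, ← N2_star hξ htr hx]
  have := N2_left hξ (star y) (star x)
  rwa [norm_star] at this

theorem N2_le (h1 : IL.tr ξ hξ 1 = 1) (x : K →L[ℂ] K) : N2 hξ x ≤ ‖x‖ ^ 2 := by
  have := N2_left hξ x 1
  have h2 : N2 hξ (1 : K →L[ℂ] K) = 1 := by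
    unfold N2; rw [star_one, one_mul, h1, Complex.one_re]
  rwa [mul_one, h2, mul_one] at this

end

/-- small `d_1`-cost implies closeness at every element of `A` -/
theorem lemW (hn : 0 < n) (hu : Universal u) (a : A) {η : ℝ} (hη : 0 < η) :
    ∃ ε : ℝ, 0 < ε ∧ ∀ (φ ψ : A →L[ℂ] ℂ) (r s : ℝ), Cpl u φ ψ r s → s < ε → ‖φ a - ψ a‖ < η := by
  let P : A → Prop := fun a => ∀ η : ℝ, 0 < η → ∃ ε : ℝ, 0 < ε ∧
    ∀ {K : Type} [NormedAddCommGroup K] [InnerProductSpace ℂ K] [CompleteSpace K]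
      (M : VonNeumannAlgebra K) (τ : (K →L[ℂ] K) → ℂ) (ξ : ℕ → K)
      (hξ : Summable fun i => ‖ξ i‖ ^ 2) (α β : A →⋆ₐ[ℂ] (K →L[ℂ] K)),
      (∀ x ∈ M, ∀ y ∈ M, IL.tr ξ hξ (x * y) = IL.tr ξ hξ (y * x)) → IL.tr ξ hξ 1 = 1 →
      (∀ x ∈ M, τ x = IL.tr ξ hξ x) → (∀ a, α a ∈ M ∧ β a ∈ M) → costOne u τ α β < ε →
      N2 hξ (α a - β a) < η
  let S : StarSubalgebra ℂ A :=
    { carrier := {a | P a}
      mul_mem' := by
        intro a b ha hb η hη
        obtain ⟨ε, hε, h1⟩ := ha (η / (4 * (‖b‖ ^ 2 + 1))) (by positivity)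
        obtain ⟨δ, hδ, h2⟩ := hb (η / (4 * (‖a‖ ^ 2 + 1))) (by positivity)
        refine ⟨min ε δ, lt_min hε hδ, fun M τ ξ hξ α β htr h0 hT hM hc => ?_⟩
        have c1 := h1 M τ ξ hξ α β htr h0 hT hM (hc.trans_le (min_le_left _ _))
        have c2 := h2 M τ ξ hξ α β htr h0 hT hM (hc.trans_le (min_le_right _ _))
        have e : α (a * b) - β (a * b) = α a * (α b - β b) + (α a - β a) * β b := by
          rw [map_mul, map_mul, mul_sub, sub_mul]; abel
        rw [e]
        refine lt_of_le_of_lt (N2_add hξ _ _) ?_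
        have d1 := N2_left hξ (α a) (α b - β b)
        have d2 := N2_right hξ htr (sub_mem (hM a).1 (hM a).2) (hM b).2
        have n1 : ‖α a‖ ^ 2 ≤ ‖a‖ ^ 2 + 1 := by
          have := NonUnitalStarAlgHom.norm_apply_le α a
          nlinarith [norm_nonneg (α a)]
        have n2 : ‖β b‖ ^ 2 ≤ ‖b‖ ^ 2 + 1 := by
          have := NonUnitalStarAlgHom.norm_apply_le β b
          nlinarith [norm_nonneg (β b)]
        have d3 : ‖α a‖ ^ 2 * N2 hξ (α b - β b) < η / 4 := by
          refine lt_of_le_of_lt (mul_le_mul_of_nonneg_right n1 (N2_nonneg hξ _)) ?_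
          have h3 : (0 : ℝ) < ‖a‖ ^ 2 + 1 := by positivity
          have := mul_lt_mul_of_pos_left c2 h3
          refine this.trans_le (le_of_eq ?_)
          field_simp
        have d4 : ‖β b‖ ^ 2 * N2 hξ (α a - β a) < η / 4 := by
          refine lt_of_le_of_lt (mul_le_mul_of_nonneg_right n2 (N2_nonneg hξ _)) ?_
          have h3 : (0 : ℝ) < ‖b‖ ^ 2 + 1 := by positivity
          have := mul_lt_mul_of_pos_left c1 h3
          refine this.trans_le (le_of_eq ?_)
          field_simp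
        linarith
      add_mem' := by
        intro a b ha hb η hη
        obtain ⟨ε, hε, h1⟩ := ha (η / 4) (by positivity)
        obtain ⟨δ, hδ, h2⟩ := hb (η / 4) (by positivity)
        refine ⟨min ε δ, lt_min hε hδ, fun M τ ξ hξ α β htr h0 hT hM hc => ?_⟩
        have c1 := h1 M τ ξ hξ α β htr h0 hT hM (hc.trans_le (min_le_left _ _))
        have c2 := h2 M τ ξ hξ α β htr h0 hT hM (hc.trans_le (min_le_right _ _))
        have e : α (a + b) - β (a + b) = (α a - β a) + (α b - β b) := by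
          rw [map_add, map_add]; abel
        rw [e]
        have := N2_add hξ (α a - β a) (α b - β b)
        linarith
      algebraMap_mem' := by
        intro c η hη
        refine ⟨1, one_pos, fun M τ ξ hξ α β htr h0 hT hM hc => ?_⟩
        have e : α (algebraMap ℂ A c) - β (algebraMap ℂ A c) = 0 := by
          rw [AlgHomClass.commutes, AlgHomClass.commutes, sub_self]
        rw [e]
        unfold N2
        rw [star_zero, zero_mul, map_zero, Complex.zero_re]
        exact hη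
      star_mem' := by
        intro a ha η hη
        obtain ⟨ε, hε, h1⟩ := ha η hη
        refine ⟨ε, hε, fun M τ ξ hξ α β htr h0 hT hM hc => ?_⟩
        rw [map_star, map_star, ← star_sub, N2_star hξ htr (sub_mem (hM a).1 (hM a).2)]
        exact h1 M τ ξ hξ α β htr h0 hT hM hc }
  have hcl : IsClosed (S : Set A) := by
    refine isClosed_of_closure_subset fun a ha η hη => ?_
    obtain ⟨b, hb, hab⟩ := Metric.mem_closure_iff.1 ha (√(η / 16)) (by positivity)
    obtain ⟨ε, hε, h1⟩ := hb (η / 8) (by positivity)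
    refine ⟨ε, hε, fun M τ ξ hξ α β htr h0 hT hM hc => ?_⟩
    have c1 := h1 M τ ξ hξ α β htr h0 hT hM hc
    rw [dist_eq_norm] at hab
    have hab2 : ‖a - b‖ ^ 2 < η / 16 := by
      have := pow_lt_pow_left₀ hab (norm_nonneg _) two_ne_zero
      rwa [Real.sq_sqrt (by positivity)] at this
    have e : α a - β a = (α b - β b) + (α (a - b) - β (a - b)) := by
      rw [map_sub, map_sub]; abel
    rw [e]
    have d1 := N2_add hξ (α b - β b) (α (a - b) - β (a - b))
    have d2 := N2_add hξ (α (a - b)) (-β (a - b))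
    have d3 : ∀ γ : A →⋆ₐ[ℂ] (_ →L[ℂ] _), N2 hξ (γ (a - b)) ≤ ‖a - b‖ ^ 2 := fun γ =>
      (N2_le hξ h0 _).trans (pow_le_pow_left₀ (norm_nonneg _)
        (NonUnitalStarAlgHom.norm_apply_le γ _) 2)
    have d4 : N2 hξ (-β (a - b)) = N2 hξ (β (a - b)) := by
      unfold N2; rw [star_neg, neg_mul_neg]
    rw [← sub_eq_add_neg, d4] at d2
    have d5 := d3 α
    have d6 := d3 β
    linarith
  have hu' : ∀ i j, u i j ∈ S := fun i j η hη => by
    have hn' : (0 : ℝ) < n := Nat.cast_pos.2 hn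
    refine ⟨η / (2 * n), by positivity, fun M τ ξ hξ α β htr h0 hT hM hc => ?_⟩
    have h1 := cost_N2 hu.magic hξ hT hM hn
    have h2 : N2 hξ (α (u i j) - β (u i j)) ≤ 2 * n * costOne u τ α β := by
      refine le_trans ?_ h1
      exact (single_le_sum (f := fun j => N2 hξ (α (u i j) - β (u i j)))
        (fun j _ => N2_nonneg hξ _) (mem_univ j)).trans
        (single_le_sum (f := fun i => ∑ j, N2 hξ (α (u i j) - β (u i j)))
          (fun i _ => sum_nonneg fun j _ => N2_nonneg hξ _) (mem_univ i))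
    refine lt_of_le_of_lt h2 ?_
    rw [lt_div_iff₀ (by positivity)] at hc
    linarith
  obtain ⟨ε, hε, h1⟩ := gen hu S hcl hu' a (η ^ 2) (by positivity)
  refine ⟨ε, hε, fun φ ψ r s h hs => ?_⟩
  obtain ⟨K, _, _, _, M, τ, α, β, C, -, rfl⟩ := h
  obtain ⟨ξ, hξ, hξ1⟩ := C.tr.normal
  have hT : ∀ x ∈ M, τ x = IL.tr ξ hξ x := fun x hx => (hξ1 x hx).tsum_eq.symm
  have htr : ∀ x ∈ M, ∀ y ∈ M, IL.tr ξ hξ (x * y) = IL.tr ξ hξ (y * x) := fun x hx y hy => by
    rw [← hT _ (mul_mem hx hy), ← hT _ (mul_mem hy hx), C.tr.trace x hx y hy]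
  have hT1 : IL.tr ξ hξ 1 = 1 := by rw [← hT _ (one_mem _), C.tr.one]
  have h2 := h1 M τ ξ hξ α β htr hT1 hT C.mem hs
  have h3 : φ a - ψ a = IL.tr ξ hξ (α a - β a) := by
    rw [map_sub, ← hT _ (C.mem a).1, ← hT _ (C.mem a).2, (C.val a).1, (C.val a).2]
  have h4 := tcs hξ (1 : K →L[ℂ] K) (α a - β a)
  rw [star_one, one_mul, one_mul, hT1, Complex.one_re, one_mul] at h4
  rw [h3]
  exact lt_of_pow_lt_pow_left₀ 2 hη.le (lt_of_le_of_lt h4 h2)

/-- small `d_∧`-cost implies small `d_1`-cost -/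
theorem lemD (hn : 0 < n) (hu : Universal u) {ε : ℝ} (hε : 0 < ε) :
    ∃ δ : ℝ, 0 < δ ∧ ∀ (φ ψ : A →L[ℂ] ℂ) (r s : ℝ), Cpl u φ ψ r s → r < δ → s < ε := by
  have hn' : (0 : ℝ) < n := Nat.cast_pos.2 hn
  refine ⟨(ε / n) ^ 2 / (2 * n), by positivity, fun φ ψ r s h hr => ?_⟩
  obtain ⟨K, _, _, _, M, τ, α, β, C, rfl, rfl⟩ := h
  obtain ⟨ξ, hξ, hξ1⟩ := C.tr.normal
  have hT : ∀ x ∈ M, τ x = IL.tr ξ hξ x := fun x hx => (hξ1 x hx).tsum_eq.symm
  have htr : ∀ x ∈ M, ∀ y ∈ M, IL.tr ξ hξ (x * y) = IL.tr ξ hξ (y * x) := fun x hx y hy => by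
    rw [← hT _ (mul_mem hx hy), ← hT _ (mul_mem hy hx), C.tr.trace x hx y hy]
  have hT1 : IL.tr ξ hξ 1 = 1 := by rw [← hT _ (one_mem _), C.tr.one]
  set T := IL.tr ξ hξ with hTd
  let m : Fin n → Fin n → K →L[ℂ] K := fun i j => meet (α (u i j)) (β (u i j))
  let t : Fin n → Fin n → ℝ := fun i j =>
    (T (α (u i j))).re + (T (β (u i j))).re - 2 * (T (m i j)).re
  have pa : ∀ i j, IsStarProjection (α (u i j)) := fun i j => (hu.magic.proj i j).map α
  have pb : ∀ i j, IsStarProjection (β (u i j)) := fun i j => (hu.magic.proj i j).map β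
  have hm := fun i j => meet_sp (pa i j) (pb i j) (C.mem _).1 (C.mem _).2
  -- the 2-norm of the difference
  have hN : ∀ i j, N2 hξ (α (u i j) - β (u i j)) ≤ t i j := fun i j => by
    obtain ⟨m1, m2, m3, m4⟩ := hm i j
    set p := α (u i j) with hp
    set q := β (u i j) with hq
    have pp' : p * p = p := (pa i j).isIdempotentElem
    have qq' : q * q = q := (pb i j).isIdempotentElem
    have ps : star p = p := (pa i j).isSelfAdjoint
    have qs : star q = q := (pb i j).isSelfAdjoint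
    have e1 : star (p - q) * (p - q) = p + q - p * q - q * p := by
      rw [star_sub, ps, qs, sub_mul, mul_sub, mul_sub, pp', qq']; abel
    have e2 : T (p * q) = T (q * p) := htr _ (C.mem _).1 _ (C.mem _).2
    have e3 : T (q * p) = T (p * q * p) := by
      rw [mul_assoc, htr _ (C.mem _).1 _ (mul_mem (C.mem _).2 (C.mem _).1), mul_assoc, pp']
    have e4 : (T (m i j)).re ≤ (T (p * q * p)).re := by
      have h1 : meet p q ≤ q := (m1.le_iff_mul_eq_right (pb i j)).2 m4
      have h2 := star_left_conjugate_le_conjugate h1 p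
      rw [ps] at h2
      have m3' : meet p q * p = meet p q := by
        have := congrArg star m3
        rwa [star_mul, ps, m1.isSelfAdjoint.star_eq] at this
      have h3 : p * meet p q * p = meet p q := by rw [m3, m3']
      rw [h3] at h2
      have h4 := IL.tr_pos ξ hξ (sub_nonneg.2 h2)
      rw [map_sub, Complex.sub_re] at h4
      change (T (meet p q)).re ≤ _
      linarith
    unfold N2
    rw [e1, ← hTd, map_sub, map_sub, map_add, e2, e3]
    simp only [Complex.sub_re, Complex.add_re]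
    change _ ≤ (T p).re + (T q).re - 2 * (T (m i j)).re
    linarith
  have t0 : ∀ i j, 0 ≤ t i j := fun i j => (N2_nonneg hξ _).trans (hN i j)
  have hsum : ∑ i, ∑ j, t i j = 2 * n * costMeet u τ α β := by
    have r1 : ∀ (γ : A →⋆ₐ[ℂ] (K →L[ℂ] K)) i, ∑ j, (T (γ (u i j))).re = 1 := fun γ i => by
      rw [← Complex.re_sum, ← map_sum, ← map_sum, hu.magic.row, map_one, hT1, Complex.one_re]
    unfold costMeet
    simp only [t, sum_sub_distrib, sum_add_distrib, r1, sum_const, card_univ, Fintype.card_fin,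
      nsmul_eq_mul, mul_one, ← mul_sum]
    have : ∀ i j, τ (meet (α (u i j)) (β (u i j))) = T (m i j) := fun i j => hT _ (hm i j).2.1
    simp only [this]
    field_simp
    ring
  have hij : ∀ i j, N2 hξ (α (u i j) - β (u i j)) < (ε / n) ^ 2 := fun i j => by
    have h1 : t i j ≤ ∑ i, ∑ j, t i j :=
      (single_le_sum (f := fun j => t i j) (fun j _ => t0 i j) (mem_univ j)).trans
        (single_le_sum (f := fun i => ∑ j, t i j)
          (fun i _ => sum_nonneg fun j _ => t0 i j) (mem_univ i))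
    rw [hsum] at h1
    refine lt_of_le_of_lt ((hN i j).trans h1) ?_
    rw [lt_div_iff₀ (by positivity)] at hr
    linarith
  have habs : ∀ i j, (τ (CFC.abs (α (u i j) - β (u i j)))).re ≤ ε / n := fun i j => by
    set x := α (u i j) - β (u i j) with hx
    have hsa : IsSelfAdjoint x := (pa i j).isSelfAdjoint.sub (pb i j).isSelfAdjoint
    have hmem : CFC.abs x ∈ M := by
      rw [CFC.abs_eq_cfc_norm x hsa]
      exact Pool.Agent.H86.Wu.cfc_mem' M (sub_mem (C.mem _).1 (C.mem _).2) _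
    rw [hT _ hmem]
    have h4 := tcs hξ (1 : K →L[ℂ] K) (CFC.abs x)
    have h5 : star (CFC.abs x) * CFC.abs x = star x * x := by
      rw [(CFC.abs_nonneg x).isSelfAdjoint.star_eq, CFC.abs_mul_abs]
    rw [star_one, one_mul, one_mul, h5, ← hTd, hT1, Complex.one_re, one_mul] at h4
    have h6 : ‖T (CFC.abs x)‖ ^ 2 ≤ (ε / n) ^ 2 := h4.trans (hij i j).le
    exact (Complex.re_le_norm _).trans
      ((pow_le_pow_iff_left₀ (norm_nonneg _) (by positivity) two_ne_zero).1 h6)
  unfold costOne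
  have h7 := sum_le_sum fun i (_ : i ∈ univ) => sum_le_sum fun j (_ : j ∈ univ) =>
    mul_le_mul_of_nonneg_left (habs i j) (show (0 : ℝ) ≤ 1 / 2 by norm_num)
  simp only [sum_const, card_univ, Fintype.card_fin, nsmul_eq_mul] at h7
  have h8 := mul_le_mul_of_nonneg_left h7 (show (0 : ℝ) ≤ 1 / n by positivity)
  refine lt_of_le_of_lt h8 ?_
  rw [show 1 / (n : ℝ) * (n * (n * (1 / 2 * (ε / n)))) = ε / 2 by field_simp]
  linarith

/-- the diagonal coupling -/
theorem diag (hu : Universal u) {φ : A →L[ℂ] ℂ} (hφ : IsTrace φ) (hn : 0 < n) :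
    Cpl u φ φ 0 0 := by
  obtain ⟨H, _, _, _, M, Ω, π, h1, htr, hmem, hval, -⟩ := gns hφ
  have hn' : (n : ℝ) ≠ 0 := Nat.cast_ne_zero.2 hn.ne'
  refine ⟨H, _, _, _, M, fun x => ⟪Ω, x Ω⟫_ℂ, π, π, ⟨htr, fun a => ⟨hmem a, hmem a⟩,
    fun a => ⟨hval a, hval a⟩⟩, ?_, ?_⟩
  · unfold costMeet
    have hm : ∀ i j, meet (π (u i j)) (π (u i j)) = π (u i j) := fun i j => by
      have hp : IsStarProjection (π (u i j)) := (hu.magic.proj i j).map π
      obtain ⟨m1, m2, m3, m4⟩ := meet_sp hp hp (hmem _) (hmem _)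
      have h2 : meet (π (u i j)) (π (u i j)) * π (u i j) = π (u i j) :=
        ContinuousLinearMap.ext fun v => IE.proj_self (subset_closure ⟨⟨v, rfl⟩, v, rfl⟩)
      have h3 := congrArg star m3
      rw [star_mul, hp.isSelfAdjoint.star_eq, m1.isSelfAdjoint.star_eq, h2] at h3
      exact h3.symm
    simp only [hm, hval]
    have r1 : ∀ i, ∑ j, (φ (u i j)).re = 1 := fun i => by
      rw [← Complex.re_sum, ← map_sum, hu.magic.row, hφ.one, Complex.one_re]
    simp only [r1, sum_const, card_univ, Fintype.card_fin, nsmul_eq_mul, mul_one]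
    rw [one_div_mul_cancel hn', sub_self]
  · unfold costOne
    simp

end

end Pool.Agent.Helper71q
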