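import Pool.Agent.Helper71q.N4
import Pool.Agent.Helper71q.N5
import Pool.Agent.Helper71q.Topo
import Pool.Agent.H75.QP5

set_option autoImplicit false
set_option linter.unusedSectionVars false

namespace Pool.Agent.Helper71q
open Pool.Agent.H75.QP Pool.Agent.H75 Finset Filter Topology

section
variable {n : ℕ} {A : Type} [CStarAlgebra A] {u : Fin n → Fin n → A}

/-- distances controlling the values at the elements of `A` -/
def WW (d : TT A → TT A → EReal) : Prop := ∀ (x : A) (η : ℝ), 0 < η → ∃ ε : ℝ, 0 < ε ∧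
  ∀ χ ψ : TT A, d χ ψ < (ε : EReal) → ‖χ.1 x - ψ.1 x‖ < η

theorem dOne_lt {φ ψ : TT A} {ε : ℝ} (h : dOne u φ ψ < (ε : EReal)) :
    ∃ r s, Cpl u φ.1 ψ.1 r s ∧ s < ε := by
  unfold dOne at h
  simp only [iInf_lt_iff] at h
  obtain ⟨r, s, h1, h2⟩ := h
  exact ⟨r, s, h1, EReal.coe_lt_coe_iff.1 h2⟩

theorem dOne_le {φ ψ : TT A} {r s : ℝ} (h : Cpl u φ.1 ψ.1 r s) : dOne u φ ψ ≤ (s : EReal) :=
  iInf_le_of_le r (iInf_le_of_le s (iInf_le_of_le h le_rfl))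

theorem dMeet_lt {φ ψ : TT A} {ε : ℝ} (h : dMeet u φ ψ < (ε : EReal)) :
    ∃ r s, Cpl u φ.1 ψ.1 r s ∧ r < ε := by
  unfold dMeet at h
  simp only [iInf_lt_iff] at h
  obtain ⟨r, s, h1, h2⟩ := h
  exact ⟨r, s, h1, EReal.coe_lt_coe_iff.1 h2⟩

theorem dMeet_le {φ ψ : TT A} {r s : ℝ} (h : Cpl u φ.1 ψ.1 r s) : dMeet u φ ψ ≤ (r : EReal) :=
  iInf_le_of_le r (iInf_le_of_le s (iInf_le_of_le h le_rfl))

theorem WW_one (hn : 0 < n) (hu : Universal u) : WW (dOne u) := fun x η hη => by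
  obtain ⟨ε, hε, h⟩ := lemW hn hu x hη
  refine ⟨ε, hε, fun χ ψ h1 => ?_⟩
  obtain ⟨r, s, h2, h3⟩ := dOne_lt h1
  exact h _ _ r s h2 h3

theorem WW_meet (hn : 0 < n) (hu : Universal u) : WW (dMeet u) := fun x η hη => by
  obtain ⟨ε, hε, h⟩ := lemW hn hu x hη
  obtain ⟨δ, hδ, h'⟩ := lemD hn hu hε
  refine ⟨δ, hδ, fun χ ψ h1 => ?_⟩
  obtain ⟨r, s, h2, h3⟩ := dMeet_lt h1
  exact h _ _ r s h2 (h' _ _ r s h2 h3)

theorem WW_TV : WW (dTV (A := A)) := fun x η hη => by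
  refine ⟨η / (2 * (‖x‖ + 1)), by positivity, fun χ ψ h1 => ?_⟩
  unfold dTV at h1
  rw [EReal.coe_lt_coe_iff, lt_div_iff₀ (by positivity)] at h1
  have h2 := (χ.1 - ψ.1).le_opNorm x
  rw [ContinuousLinearMap.sub_apply] at h2
  refine lt_of_le_of_lt h2 ?_
  have := norm_nonneg (χ.1 - ψ.1)
  nlinarith [norm_nonneg x]

/-- a sequence converging weakly to `φ` but far from `φ` is closed -/
theorem rng_open {d : TT A → TT A → EReal} (hW : WW d) {φ : TT A} {ψ : ℕ → TT A}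
    (hconv : ∀ x, Tendsto (fun m => (ψ m).1 x) atTop (𝓝 (φ.1 x))) {c : ℝ} (hc : 0 < c)
    (hfar : ∀ m, ¬ d φ (ψ m) < (c : EReal)) : (ballTop d).IsOpen (Set.range ψ)ᶜ := by
  intro χ hχ
  by_cases h0 : χ = φ
  · subst h0
    exact ⟨c, hc, fun y hy => by rintro ⟨m, rfl⟩; exact hfar m hy⟩
  obtain ⟨x, hx⟩ : ∃ x, χ.1 x ≠ φ.1 x := by
    by_contra hcon
    push Not at hcon
    exact h0 (Subtype.ext (ContinuousLinearMap.ext hcon))
  have hη : 0 < ‖χ.1 x - φ.1 x‖ / 2 := by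
    have := norm_pos_iff.2 (sub_ne_zero.2 hx)
    linarith
  obtain ⟨N, hN⟩ := Metric.tendsto_atTop.1 (hconv x) _ hη
  obtain ⟨ε0, hε0, h1⟩ := hW x _ hη
  have h2 : ∀ᶠ ε : ℝ in 𝓝[>] (0 : ℝ), ∀ m ∈ range N, ¬ d χ (ψ m) < (ε : EReal) := by
    rw [Finset.eventually_all]
    intro m _
    obtain ⟨y, hy⟩ : ∃ y, χ.1 y ≠ (ψ m).1 y := by
      by_contra hcon
      push Not at hcon
      exact hχ ⟨m, (Subtype.ext (ContinuousLinearMap.ext hcon)).symm⟩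
    obtain ⟨ε1, hε1, h3⟩ := hW y _ (norm_pos_iff.2 (sub_ne_zero.2 hy))
    filter_upwards [Ioo_mem_nhdsGT hε1] with ε hε h4
    exact lt_irrefl _ (h3 χ (ψ m) (h4.trans (EReal.coe_lt_coe_iff.2 hε.2)))
  obtain ⟨ε, h3, h4⟩ := (h2.and (Ioo_mem_nhdsGT hε0)).exists
  refine ⟨ε, h4.1, fun y hy => ?_⟩
  rintro ⟨m, rfl⟩
  by_cases hm : m < N
  · exact h3 m (mem_range.2 hm) hy
  · have h5 := hN m (not_lt.1 hm)
    rw [dist_eq_norm] at h5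
    have h6 := h1 χ (ψ m) (hy.trans (EReal.coe_lt_coe_iff.2 h4.2))
    have h7 : χ.1 x - φ.1 x = (χ.1 x - (ψ m).1 x) + ((ψ m).1 x - φ.1 x) := by ring
    have h8 := norm_add_le (χ.1 x - (ψ m).1 x) ((ψ m).1 x - φ.1 x)
    rw [← h7] at h8
    linarith

theorem not_open_ball {d : TT A → TT A → EReal} {φ : TT A} {ψ : ℕ → TT A}
    (hφ : φ ∉ Set.range ψ) (h : ∀ ε : ℝ, 0 < ε → ∃ m, d φ (ψ m) < (ε : EReal)) :
    ¬ (ballTop d).IsOpen (Set.range ψ)ᶜ := fun ho => by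
  obtain ⟨ε, hε, h1⟩ := ho φ hφ
  obtain ⟨m, hm⟩ := h ε hε
  exact h1 _ hm ⟨m, rfl⟩

theorem not_open_O1 {φ : TT A} {ψ : ℕ → TT A} (hφ : φ ∉ Set.range ψ)
    (hconv : ∀ x, Tendsto (fun m => (ψ m).1 x) atTop (𝓝 (φ.1 x))) :
    ¬ (O1 A).IsOpen (Set.range ψ)ᶜ := fun ho => by
  obtain ⟨W, hW, h1⟩ := isOpen_induced_iff.1 ho
  have h2 : Tendsto (fun m a => (ψ m).1 a) atTop (𝓝 (fun a => φ.1 a)) := tendsto_pi_nhds.2 hconv
  have h3 : (fun a => φ.1 a) ∈ W := by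
    have : φ ∈ (fun (φ : TT A) (a : A) => φ.1 a) ⁻¹' W := h1 ▸ hφ
    exact this
  obtain ⟨m, hm⟩ := (h2.eventually (hW.mem_nhds h3)).exists
  have h4 : ψ m ∈ (Set.range ψ)ᶜ := h1 ▸ hm
  exact h4 ⟨m, rfl⟩

theorem O12 (hn : 0 < n) (hu : Universal u) {V : Set (TT A)} (h : (O1 A).IsOpen V) :
    (O2 u).IsOpen V := by
  intro φ hφ
  obtain ⟨W, hW, h1⟩ := isOpen_induced_iff.1 h
  have h3 : (fun a => φ.1 a) ∈ W := by
    have : φ ∈ (fun (φ : TT A) (a : A) => φ.1 a) ⁻¹' W := h1 ▸ hφ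
    exact this
  obtain ⟨I, w, hw1, hw2⟩ := isOpen_pi_iff.1 hW _ h3
  have h2 : ∀ᶠ ε : ℝ in 𝓝[>] (0 : ℝ), ∀ a ∈ I, ∀ y : TT A, dOne u φ y < (ε : EReal) → y.1 a ∈ w a := by
    rw [Finset.eventually_all]
    intro a ha
    obtain ⟨η, hη, h3⟩ := Metric.isOpen_iff.1 (hw1 a ha).1 _ (hw1 a ha).2
    obtain ⟨ε1, hε1, h4⟩ := WW_one hn hu a η hη
    filter_upwards [Ioo_mem_nhdsGT hε1] with ε hε y hy
    refine h3 ?_
    rw [Metric.mem_ball, dist_comm, dist_eq_norm]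
    exact h4 φ y (hy.trans (EReal.coe_lt_coe_iff.2 hε.2))
  obtain ⟨ε, h5, h6⟩ := (h2.and self_mem_nhdsWithin).exists
  refine ⟨ε, h6, fun y hy => ?_⟩
  rw [← h1]
  exact hw2 fun a ha => h5 a ha y hy

theorem O23 (hn : 0 < n) (hu : Universal u) {V : Set (TT A)} (h : (O2 u).IsOpen V) :
    (O3 u).IsOpen V := by
  intro φ hφ
  obtain ⟨ε, hε, h1⟩ := h φ hφ
  obtain ⟨δ, hδ, h2⟩ := lemD hn hu hε
  refine ⟨δ, hδ, fun y hy => h1 y ?_⟩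
  obtain ⟨r, s, h3, h4⟩ := dMeet_lt hy
  exact (dOne_le h3).trans_lt (EReal.coe_lt_coe_iff.2 (h2 _ _ r s h3 h4))

theorem ne_of {X : Type} {a b : TopologicalSpace X} {V : Set X} (h1 : ¬ a.IsOpen V)
    (h2 : b.IsOpen V) : a ≠ b := fun h => h1 (h ▸ h2)

theorem four_eq {A : Type} [CStarAlgebra A] {u : Fin 4 → Fin 4 → A} (hu : Universal u) :
    O1 A = O2 u := by
  refine TopologicalSpace.ext (funext fun V => propext ⟨O12 (by norm_num) hu, fun h => ?_⟩)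
  have key : ∀ φ ∈ V, ∃ W : Set (TT A), W ⊆ V ∧ (O1 A).IsOpen W ∧ φ ∈ W := fun φ hφ => by
    obtain ⟨ε, hε, h1⟩ := h φ hφ
    obtain ⟨F, δ, hδ, h2⟩ := four hu φ.2 hε
    refine ⟨(fun (ψ : TT A) (a : A) => ψ.1 a) ⁻¹' {g | ∀ a ∈ F, ‖g a - φ.1 a‖ < δ},
      fun ψ hψ => h1 ψ ?_, isOpen_induced_iff.2 ⟨_, ?_, rfl⟩, fun a _ => ?_⟩
    · obtain ⟨r, s, h3, h4⟩ := h2 ψ.1 ψ.2 hψ
      exact (dOne_le h3).trans_lt (EReal.coe_lt_coe_iff.2 h4)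
    · have : {g : A → ℂ | ∀ a ∈ F, ‖g a - φ.1 a‖ < δ} =
          ⋂ a ∈ F, {g : A → ℂ | ‖g a - φ.1 a‖ < δ} := by ext; simp
      rw [this]
      exact isOpen_biInter_finset fun a _ => isOpen_lt (by fun_prop) (by fun_prop)
    · change ‖φ.1 a - φ.1 a‖ < δ
      rw [sub_self, norm_zero]
      exact hδ
  exact @isOpen_iff_forall_mem_open _ (O1 A) V |>.2 key

theorem five_ne (hn : 5 ≤ n) (hu : Universal u) : O1 A ≠ O2 u := by
  obtain ⟨φ, hφ, c, hc, ψ, hψ, hconv, hfar⟩ := five hn hu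
  let φ' : TT A := ⟨φ, hφ⟩
  let ψ' : ℕ → TT A := fun m => ⟨ψ m, hψ m⟩
  have h1 : φ' ∉ Set.range ψ' := by
    rintro ⟨m, hm⟩
    have h2 : ψ m = φ := congrArg Subtype.val hm
    have h3 := diag hu hφ (show 0 < n by omega)
    nth_rewrite 2 [← h2] at h3
    exact absurd (hfar m 0 0 h3) (not_le.2 hc)
  refine ne_of (V := (Set.range ψ')ᶜ) (not_open_O1 h1 hconv)
    (rng_open (WW_one (by omega) hu) (φ := φ') hconv hc fun m hm => ?_)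
  obtain ⟨r, s, h2, h3⟩ := dOne_lt hm
  exact absurd (hfar m r s h2) (not_le.2 h3)

theorem final (hn : 4 ≤ n) (hu : Universal u) :
    (O1 A = O2 u ↔ n = 4) ∧ O1 A ≠ O3 u ∧ O1 A ≠ O4 A ∧ O2 u ≠ O3 u ∧ O2 u ≠ O4 A ∧
      O3 u ≠ O4 A := by
  have hn0 : 0 < n := by omega
  have hlt : ∀ (k : ℕ), (0 : ℝ) < 1 / ((k : ℝ) + 1) := fun k => by positivity
  have hsm : ∀ ε : ℝ, 0 < ε → ∃ k : ℕ, 1 / ((k : ℝ) + 1) < ε := fun ε hε =>
    exists_nat_one_div_lt hε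
  -- `O2 ≠ O3`
  obtain ⟨V, v1, v2⟩ : ∃ V : Set (TT A), ¬ (O2 u).IsOpen V ∧ (O3 u).IsOpen V := by
    obtain ⟨φ, hφ, c, hc, h⟩ := mainA hn hu
    choose ψ hψ h1 h2 using fun k : ℕ => h (1 / ((k : ℝ) + 1)) (hlt k)
    let φ' : TT A := ⟨φ, hφ⟩
    let ψ' : ℕ → TT A := fun m => ⟨ψ m, hψ m⟩
    have h3 : φ' ∉ Set.range ψ' := by
      rintro ⟨m, hm⟩
      have h4 : ψ m = φ := congrArg Subtype.val hm
      have h5 := diag hu hφ hn0
      nth_rewrite 2 [← h4] at h5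
      exact absurd (h2 m 0 0 h5) (not_le.2 hc)
    have hconv : ∀ x, Tendsto (fun m => (ψ' m).1 x) atTop (𝓝 (φ'.1 x)) := fun x => by
      rw [Metric.tendsto_atTop]
      intro η hη
      obtain ⟨ε, hε, h4⟩ := lemW hn0 hu x hη
      obtain ⟨N, hN⟩ := hsm ε hε
      refine ⟨N, fun m hm => ?_⟩
      obtain ⟨r, s, h5, h6⟩ := h1 m
      rw [dist_comm, dist_eq_norm]
      refine h4 φ (ψ m) r s h5 (h6.trans (lt_of_le_of_lt ?_ hN))
      have : (N : ℝ) ≤ m := by exact_mod_cast hm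
      exact one_div_le_one_div_of_le (by positivity) (by linarith)
    refine ⟨(Set.range ψ')ᶜ, not_open_ball h3 fun ε hε => ?_,
      rng_open (WW_meet hn0 hu) (φ := φ') hconv hc fun m hm => ?_⟩
    · obtain ⟨k, hk⟩ := hsm ε hε
      obtain ⟨r, s, h5, h6⟩ := h1 k
      exact ⟨k, (dOne_le h5).trans_lt (EReal.coe_lt_coe_iff.2 (h6.trans hk))⟩
    · obtain ⟨r, s, h5, h6⟩ := dMeet_lt hm
      exact absurd (h2 m r s h5) (not_le.2 h6)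
  -- `O3 ≠ O4`
  obtain ⟨W, w1, w2⟩ : ∃ V : Set (TT A), ¬ (O3 u).IsOpen V ∧ (O4 A).IsOpen V := by
    obtain ⟨φ, hφ, h⟩ := mainB hn hu
    choose ψ hψ h1 h2 using fun k : ℕ => h (1 / ((k : ℝ) + 1)) (hlt k)
    let φ' : TT A := ⟨φ, hφ⟩
    let ψ' : ℕ → TT A := fun m => ⟨ψ m, hψ m⟩
    have h3 : φ' ∉ Set.range ψ' := by
      rintro ⟨m, hm⟩
      have h4 : ψ m = φ := congrArg Subtype.val hm
      have h5 := h2 m
      rw [h4, sub_self, norm_zero] at h5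
      exact absurd h5 (by norm_num)
    have hconv : ∀ x, Tendsto (fun m => (ψ' m).1 x) atTop (𝓝 (φ'.1 x)) := fun x => by
      rw [Metric.tendsto_atTop]
      intro η hη
      obtain ⟨ε0, hε0, h40⟩ := lemW hn0 hu x hη
      obtain ⟨ε, hε, h4⟩ := lemD hn0 hu hε0
      obtain ⟨N, hN⟩ := hsm ε hε
      refine ⟨N, fun m hm => ?_⟩
      obtain ⟨r, s, h5, h6⟩ := h1 m
      rw [dist_comm, dist_eq_norm]
      refine h40 φ (ψ m) r s h5 (h4 φ (ψ m) r s h5 (h6.trans (lt_of_le_of_lt ?_ hN)))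
      have : (N : ℝ) ≤ m := by exact_mod_cast hm
      exact one_div_le_one_div_of_le (by positivity) (by linarith)
    refine ⟨(Set.range ψ')ᶜ, not_open_ball h3 fun ε hε => ?_,
      rng_open WW_TV (φ := φ') hconv (c := 1 / 2) (by norm_num) fun m hm => ?_⟩
    · obtain ⟨k, hk⟩ := hsm ε hε
      obtain ⟨r, s, h5, h6⟩ := h1 k
      exact ⟨k, (dMeet_le h5).trans_lt (EReal.coe_lt_coe_iff.2 (h6.trans hk))⟩
    · unfold dTV at hm
      rw [EReal.coe_lt_coe_iff] at hm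
      have := h2 m
      have h4 : ‖φ'.1 - (ψ' m).1‖ = ‖φ - ψ m‖ := rfl
      rw [h4] at hm
      linarith
  have w1' : ¬ (O2 u).IsOpen W := fun h => w1 (O23 hn0 hu h)
  have w1'' : ¬ (O1 A).IsOpen W := fun h => w1' (O12 hn0 hu h)
  have v1' : ¬ (O1 A).IsOpen V := fun h => v1 (O12 hn0 hu h)
  refine ⟨⟨fun h => ?_, fun h => ?_⟩, ne_of v1' v2, ne_of w1'' w2, ne_of v1 v2, ne_of w1' w2,
    ne_of w1 w2⟩
  · by_contra h4
    exact five_ne (by omega) hu h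
  · subst h
    exact four_eq hu

end

end Pool.Agent.Helper71q
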