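import Pool.Agent.Helper71q.Lam

set_option autoImplicit false
set_option linter.unusedSectionVars false

namespace Pool.Agent.Helper71q
open Pool.Agent.H75.QP Pool.Agent.H75 Finset Pool.Agent.H86.Roe Filter Topology
open scoped InnerProductSpace ComplexOrder

section
variable {G : Type} [Group G]

theorem nsq (ξ : H G) : ‖ξ‖ ^ 2 = (⟪ξ, ξ⟫_ℂ).re := by
  have h2 := inner_self_eq_norm_sq_to_K (𝕜 := ℂ) ξ
  rw [h2]
  change _ = (((‖ξ‖ : ℝ) : ℂ) ^ 2).re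
  rw [← Complex.ofReal_pow, Complex.ofReal_re]

theorem lam_iso (g : G) (ξ : H G) : ‖lam g ξ‖ = ‖ξ‖ := by
  refine le_antisymm ?_ ?_
  · refine ((lam g).le_opNorm ξ).trans ?_
    have := mul_le_mul_of_nonneg_right (lam_norm g) (norm_nonneg ξ)
    linarith
  · have h1 : ξ = lam g⁻¹ (lam g ξ) := by
      change ξ = (lam g⁻¹ * lam g) ξ
      rw [← map_mul, inv_mul_cancel, map_one]
      rfl
    have h2 := ((lam g⁻¹).le_opNorm (lam g ξ))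
    rw [← h1] at h2
    have := mul_le_mul_of_nonneg_right (lam_norm g⁻¹) (norm_nonneg (lam g ξ))
    linarith

theorem lam_diff (g : G) (ξ : H G) : ‖lam g ξ - ξ‖ ^ 2 = 2 * ‖ξ‖ ^ 2 - 2 * (⟪ξ, lam g ξ⟫_ℂ).re := by
  have := @norm_sub_sq ℂ (H G) _ _ _ (lam g ξ) ξ
  rw [this, lam_iso, inner_re_symm]
  change ‖ξ‖ ^ 2 - 2 * (⟪ξ, lam g ξ⟫_ℂ).re + ‖ξ‖ ^ 2 = _
  ring

theorem lam_diff_inv (g : G) (ξ : H G) : ‖lam g⁻¹ ξ - ξ‖ = ‖lam g ξ - ξ‖ := by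
  have h1 : lam g⁻¹ ξ - ξ = lam g⁻¹ (ξ - lam g ξ) := by
    rw [map_sub]
    congr 1
    change ξ = (lam g⁻¹ * lam g) ξ
    rw [← map_mul, inv_mul_cancel, map_one]
    rfl
  rw [h1, lam_iso, norm_sub_rev]

variable {a b : G} {U : Set G}

/-- the square norm of a restriction -/
theorem ind_sq (p : G → Prop) (ξ : H G) : ‖Ind p ξ‖ ^ 2 = (⟪ξ, Ind p ξ⟫_ℂ).re := by
  rw [nsq]
  have h1 : ⟪Ind p ξ, Ind p ξ⟫_ℂ = ⟪ξ, (star (Ind p)) (Ind p ξ)⟫_ℂ := by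
    rw [ContinuousLinearMap.star_eq_adjoint, ContinuousLinearMap.adjoint_inner_right]
  rw [h1, Ind_star]
  change (⟪ξ, (Ind p * Ind p) ξ⟫_ℂ).re = _
  rw [Ind_idem]

open Classical in
theorem ind_conj (p : G → Prop) (g : G) :
    lam g⁻¹ * Ind p * lam g = Ind fun x => p (g * x) := by
  refine ext_pt fun ξ x => ?_
  change lam g⁻¹ (Ind p (lam g ξ)) x = _
  rw [lam_apply, Ind_apply, lam_apply, Ind_apply]
  simp

theorem ind_lam_sq (p : G → Prop) (g : G) (ξ : H G) :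
    ‖Ind p (lam g ξ)‖ ^ 2 = (⟪ξ, Ind (fun x => p (g * x)) ξ⟫_ℂ).re := by
  rw [ind_sq, ← ind_conj]
  change _ = (⟪ξ, lam g⁻¹ (Ind p (lam g ξ))⟫_ℂ).re
  rw [← lam_star, ContinuousLinearMap.star_eq_adjoint, ContinuousLinearMap.adjoint_inner_right]

open Classical in
/-- spectral gap from a paradoxical configuration -/
theorem gap0 (hb : b * b * b = 1) (h2 : ∀ g, a * g ∈ U ↔ g ∉ U)
    (h3 : ∀ g, (g ∈ U ∧ b * g ∉ U ∧ b * b * g ∉ U) ∨ (g ∉ U ∧ b * g ∈ U ∧ b * b * g ∉ U) ∨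
      (g ∉ U ∧ b * g ∉ U ∧ b * b * g ∈ U)) (ξ : H G) :
    ‖ξ‖ ^ 2 / 400 ≤ ‖lam a ξ - ξ‖ ^ 2 + 2 * ‖lam b ξ - ξ‖ ^ 2 := by
  set N := ‖ξ‖ with hN
  set α := ‖lam a ξ - ξ‖ with hα
  set β := ‖lam b ξ - ξ‖ with hβ
  set P := Ind (fun x : G => x ∈ U) with hP
  set x := ‖P ξ‖ with hx
  have hPn : ∀ v, ‖P v‖ ≤ ‖v‖ := fun v => by
    refine (P.le_opNorm v).trans ?_
    have := mul_le_mul_of_nonneg_right (Ind_norm (fun x : G => x ∈ U)) (norm_nonneg v)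
    rw [one_mul] at this
    exact this
  have hN0 : 0 ≤ N := norm_nonneg _
  have hα0 : 0 ≤ α := norm_nonneg _
  have hβ0 : 0 ≤ β := norm_nonneg _
  have hx0 : 0 ≤ x := norm_nonneg _
  have e1 : N ^ 2 = x ^ 2 + ‖P (lam a ξ)‖ ^ 2 := by
    rw [hN, nsq, hx, ind_sq, ind_lam_sq, ← Complex.add_re, ← inner_add_right]
    congr 2
    refine lp.ext (funext fun g => ?_)
    rw [lp.coeFn_add, Pi.add_apply, Ind_apply, Ind_apply]
    have := h2 g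
    by_cases h : g ∈ U
    · rw [if_pos h, if_neg (fun h' => this.1 h' h), add_zero]
    · rw [if_neg h, if_pos (this.2 h), zero_add]
  have e2 : N ^ 2 = x ^ 2 + ‖P (lam b ξ)‖ ^ 2 + ‖P (lam (b * b) ξ)‖ ^ 2 := by
    rw [hN, nsq, hx, ind_sq, ind_lam_sq, ind_lam_sq, ← Complex.add_re, ← inner_add_right,
      ← Complex.add_re, ← inner_add_right]
    congr 2
    refine lp.ext (funext fun g => ?_)
    rw [lp.coeFn_add, Pi.add_apply, lp.coeFn_add, Pi.add_apply, Ind_apply, Ind_apply, Ind_apply]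
    rcases h3 g with ⟨a1, a2, a3⟩ | ⟨a1, a2, a3⟩ | ⟨a1, a2, a3⟩
    · rw [if_pos a1, if_neg a2, if_neg a3]; ring
    · rw [if_neg a1, if_pos a2, if_neg a3]; ring
    · rw [if_neg a1, if_neg a2, if_pos a3]; ring
  have d1 : ‖P (lam a ξ)‖ ≤ x + α := by
    have : P (lam a ξ) = P ξ + P (lam a ξ - ξ) := by rw [← map_add]; congr 1; abel
    rw [this]
    exact (norm_add_le _ _).trans (add_le_add le_rfl (hPn _))
  have d2 : x - β ≤ ‖P (lam b ξ)‖ := by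
    have : P ξ = P (lam b ξ) - P (lam b ξ - ξ) := by rw [← map_sub]; congr 1; abel
    have h1 := norm_sub_le (P (lam b ξ)) (P (lam b ξ - ξ))
    rw [← this] at h1
    have := hPn (lam b ξ - ξ)
    linarith
  have d3 : x - β ≤ ‖P (lam (b * b) ξ)‖ := by
    have : P ξ = P (lam (b * b) ξ) - P (lam (b * b) ξ - ξ) := by rw [← map_sub]; congr 1; abel
    have h1 := norm_sub_le (P (lam (b * b) ξ)) (P (lam (b * b) ξ - ξ))
    rw [← this] at h1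
    have h4 := hPn (lam (b * b) ξ - ξ)
    have h5 : b * b = b⁻¹ := eq_inv_of_mul_eq_one_left hb
    rw [h5, lam_diff_inv] at h4
    rw [h5] at h1 ⊢
    linarith
  have p0 : 0 ≤ ‖P (lam a ξ)‖ := norm_nonneg _
  have p1 : 0 ≤ ‖P (lam b ξ)‖ := norm_nonneg _
  have p2 : 0 ≤ ‖P (lam (b * b) ξ)‖ := norm_nonneg _
  by_contra hcon
  push Not at hcon
  have c1 : α < N / 20 := by
    refine lt_of_pow_lt_pow_left₀ 2 (by positivity) ?_
    nlinarith [sq_nonneg β]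
  have c2 : β < N / 20 := by
    refine lt_of_pow_lt_pow_left₀ 2 (by positivity) ?_
    nlinarith [sq_nonneg α, sq_nonneg β]
  have hNp : 0 < N := by linarith
  -- from `e1`
  have f1 : N ^ 2 ≤ 2 * (x + N / 20) ^ 2 := by
    have : ‖P (lam a ξ)‖ ^ 2 ≤ (x + N / 20) ^ 2 := pow_le_pow_left₀ p0 (by linarith) 2
    have : x ^ 2 ≤ (x + N / 20) ^ 2 := pow_le_pow_left₀ hx0 (by linarith) 2
    linarith
  have g1 : 65 / 100 * N < x := by
    by_contra h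
    push Not at h
    have : (x + N / 20) ^ 2 ≤ (7 / 10 * N) ^ 2 := pow_le_pow_left₀ (by linarith) (by linarith) 2
    nlinarith
  have f2 : 3 * (x - N / 20) ^ 2 ≤ N ^ 2 := by
    have h0 : 0 ≤ x - N / 20 := by linarith
    have h1 : (x - N / 20) ^ 2 ≤ ‖P (lam b ξ)‖ ^ 2 := pow_le_pow_left₀ h0 (by linarith) 2
    have h2 : (x - N / 20) ^ 2 ≤ ‖P (lam (b * b) ξ)‖ ^ 2 := pow_le_pow_left₀ h0 (by linarith) 2
    have h3 : (x - N / 20) ^ 2 ≤ x ^ 2 := pow_le_pow_left₀ h0 (by linarith) 2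
    linarith
  nlinarith

/-- the averaging operator -/
noncomputable def Zop (a b : G) : H G →L[ℂ] H G :=
  (1 / 2 : ℂ) • 1 + (1 / 6 : ℂ) • (lam a + lam b + lam b⁻¹)

theorem gap1 (ha : a * a = 1) (hb : b * b * b = 1) (h2 : ∀ g, a * g ∈ U ↔ g ∉ U)
    (h3 : ∀ g, (g ∈ U ∧ b * g ∉ U ∧ b * b * g ∉ U) ∨ (g ∉ U ∧ b * g ∈ U ∧ b * b * g ∉ U) ∨
      (g ∉ U ∧ b * g ∉ U ∧ b * b * g ∈ U)) : ‖Zop a b‖ ≤ 1 - 1 / 4800 := by
  have hai : a⁻¹ = a := inv_eq_of_mul_eq_one_left ha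
  have hsa : IsSelfAdjoint (Zop a b) := by
    change star (Zop a b) = _
    unfold Zop
    simp only [star_add, star_smul, star_one, lam_star, inv_inv, hai]
    have e1 : star (1 / 2 : ℂ) = 1 / 2 := by simp
    have e2 : star (1 / 6 : ℂ) = 1 / 6 := by simp
    rw [e1, e2]
    congr 2
    abel
  have key : ∀ ξ : H G, (⟪ξ, Zop a b ξ⟫_ℂ).re =
      ‖ξ‖ ^ 2 - (‖lam a ξ - ξ‖ ^ 2 + 2 * ‖lam b ξ - ξ‖ ^ 2) / 12 := fun ξ => by
    have e1 : Zop a b ξ = (1 / 2 : ℂ) • ξ + (1 / 6 : ℂ) • (lam a ξ + lam b ξ + lam b⁻¹ ξ) := rfl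
    have e2 := lam_diff a ξ
    have e3 := lam_diff b ξ
    have e4 := lam_diff b⁻¹ ξ
    rw [lam_diff_inv, e3] at e4
    have r2 : ∀ z : ℂ, ((1 / 2 : ℂ) * z).re = 1 / 2 * z.re := fun z => by
      rw [show (1 / 2 : ℂ) = ((1 / 2 : ℝ) : ℂ) by push_cast; rfl, Complex.re_ofReal_mul]
    have r6 : ∀ z : ℂ, ((1 / 6 : ℂ) * z).re = 1 / 6 * z.re := fun z => by
      rw [show (1 / 6 : ℂ) = ((1 / 6 : ℝ) : ℂ) by push_cast; rfl, Complex.re_ofReal_mul]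
    rw [e1, inner_add_right, inner_smul_right, inner_smul_right, inner_add_right,
      inner_add_right, Complex.add_re, r2, r6, Complex.add_re, Complex.add_re, ← nsq, e2, e3]
    linarith
  have hpos : 0 ≤ Zop a b := by
    rw [ContinuousLinearMap.nonneg_iff_isPositive]
    refine ⟨ContinuousLinearMap.isSelfAdjoint_iff_isSymmetric.1 hsa, fun ξ => ?_⟩
    change 0 ≤ (⟪Zop a b ξ, ξ⟫_ℂ).re
    have h0 : (⟪Zop a b ξ, ξ⟫_ℂ).re = (⟪ξ, Zop a b ξ⟫_ℂ).re := inner_re_symm (𝕜 := ℂ) _ _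
    rw [h0, key]
    have a1 : ‖lam a ξ - ξ‖ ≤ 2 * ‖ξ‖ := by
      refine (norm_sub_le _ _).trans ?_
      rw [lam_iso]; linarith
    have a2 : ‖lam b ξ - ξ‖ ≤ 2 * ‖ξ‖ := by
      refine (norm_sub_le _ _).trans ?_
      rw [lam_iso]; linarith
    have a3 := pow_le_pow_left₀ (norm_nonneg _) a1 2
    have a4 := pow_le_pow_left₀ (norm_nonneg _) a2 2
    nlinarith
  have hle : Zop a b ≤ algebraMap ℝ _ (1 - 1 / 4800) := by
    rw [← sub_nonneg, ContinuousLinearMap.nonneg_iff_isPositive]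
    have hsa2 : IsSelfAdjoint (algebraMap ℝ (H G →L[ℂ] H G) (1 - 1 / 4800) - Zop a b) := by
      refine IsSelfAdjoint.sub ?_ hsa
      have h1 : algebraMap ℝ (H G →L[ℂ] H G) (1 - 1 / 4800) =
          (((1 - 1 / 4800 : ℝ)) : ℂ) • (1 : H G →L[ℂ] H G) := by
        rw [Algebra.algebraMap_eq_smul_one]
        rfl
      change star _ = _
      rw [h1, star_smul, star_one, Complex.star_def, Complex.conj_ofReal]
    refine ⟨ContinuousLinearMap.isSelfAdjoint_iff_isSymmetric.1 hsa2, fun ξ => ?_⟩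
    change 0 ≤ (⟪(algebraMap ℝ (H G →L[ℂ] H G) (1 - 1 / 4800) - Zop a b) ξ, ξ⟫_ℂ).re
    have h0 : (⟪(algebraMap ℝ (H G →L[ℂ] H G) (1 - 1 / 4800) - Zop a b) ξ, ξ⟫_ℂ).re =
      (⟪ξ, (algebraMap ℝ (H G →L[ℂ] H G) (1 - 1 / 4800) - Zop a b) ξ⟫_ℂ).re :=
        inner_re_symm (𝕜 := ℂ) _ _
    have h1 : (algebraMap ℝ (H G →L[ℂ] H G) (1 - 1 / 4800) - Zop a b) ξ =
        (((1 - 1 / 4800 : ℝ)) : ℂ) • ξ - Zop a b ξ := by
      rw [Algebra.algebraMap_eq_smul_one]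
      rfl
    rw [h0, h1, inner_sub_right, inner_smul_right, Complex.sub_re, Complex.re_ofReal_mul, ← nsq,
      key]
    have := gap0 hb h2 h3 ξ
    linarith
  exact (CStarAlgebra.norm_le_iff_le_algebraMap _ (by norm_num) hpos).2 hle

end

end Pool.Agent.Helper71q
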