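import Pool.Agent.H75.QPDefs

set_option autoImplicit false

namespace Pool.Agent.Helper71q
open Pool.Agent.H75.QP Pool.Agent.H75 UniformSpace
open scoped InnerProductSpace ComplexOrder

section
variable {H : Type} [NormedAddCommGroup H] [InnerProductSpace ℂ H] [CompleteSpace H]

/-- the commutant of a set, as a von Neumann algebra -/
noncomputable def cen (s : Set (H →L[ℂ] H)) : VonNeumannAlgebra H where
  toStarSubalgebra := StarSubalgebra.centralizer ℂ s
  centralizer_centralizer' := by simp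

theorem mem_cen {s : Set (H →L[ℂ] H)} {x : H →L[ℂ] H} :
    x ∈ cen s ↔ ∀ g ∈ s, g * x = x * g ∧ star g * x = x * star g := by
  change x ∈ StarSubalgebra.centralizer ℂ s ↔ _
  rw [StarSubalgebra.mem_centralizer_iff]

end

theorem tr_pol {R : Type} [Ring R] [StarRing R] [Algebra ℂ R] [StarModule ℂ R] (T : R →ₗ[ℂ] ℂ)
    (S : StarSubalgebra ℂ R)
    (h : ∀ z ∈ S, T (star z * z) = T (z * star z)) {x y : R} (hx : x ∈ S) (hy : y ∈ S) :
    T (x * y) = T (y * x) := by
  have key : ∀ c : ℂ, c * (T (x * y) - T (y * x)) +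
      star c * (T (star y * star x) - T (star x * star y)) = 0 := by
    intro c
    have h1 := h (star x + c • y) (add_mem (star_mem hx) (SMulMemClass.smul_mem c hy))
    have h2 := h _ hx
    have h3 := h _ hy
    simp only [star_add, star_star, star_smul, mul_add, add_mul, map_add, smul_mul_assoc,
      mul_smul_comm, map_smul, smul_eq_mul] at h1
    linear_combination h1 + h2 - c * star c * h3
  have k1 := key 1
  have k2 := key Complex.I
  simp only [star_one, one_mul, Complex.star_def, Complex.conj_I] at k1 k2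
  have : Complex.I * Complex.I = -1 := Complex.I_mul_I
  linear_combination (1 / 2) * k1 - (1 / 2) * Complex.I * k2 + (1 / 2) * (T (x * y) - T (y * x) -
    (T (star y * star x) - T (star x * star y))) * this

/-- the GNS representation of a tracial state -/
theorem gns {D : Type} [CStarAlgebra D] {θ : D →L[ℂ] ℂ} (hθ : IsTrace θ) :
    ∃ (H : Type) (_ : NormedAddCommGroup H) (_ : InnerProductSpace ℂ H) (_ : CompleteSpace H)
      (M : VonNeumannAlgebra H) (Ω : H) (π : D →⋆ₐ[ℂ] (H →L[ℂ] H)),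
      ‖Ω‖ = 1 ∧ UC.Tr M (fun x => ⟪Ω, x Ω⟫_ℂ) ∧ (∀ d, π d ∈ M) ∧ (∀ d, ⟪Ω, π d Ω⟫_ℂ = θ d) ∧
      Dense (Set.range fun d => π d Ω) := by
  let _ : PartialOrder D := CStarAlgebra.spectralOrder D
  let _ : StarOrderedRing D := CStarAlgebra.spectralOrderedRing D
  have hpos : ∀ a : D, 0 ≤ a → 0 ≤ θ a := fun a ha => by
    obtain ⟨b, rfl⟩ := CStarAlgebra.nonneg_iff_eq_star_mul_self.1 ha
    exact hθ.pos b
  let f : D →ₚ[ℂ] ℂ := PositiveLinearMap.mk₀ (θ : D →ₗ[ℂ] ℂ) hpos
  have hf : ∀ a, f a = θ a := fun a => rfl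
  let H := f.GNS
  let j : D → H := fun d => ((f.toPreGNS d : f.PreGNS) : f.GNS)
  let π : D →⋆ₐ[ℂ] (H →L[ℂ] H) := f.gnsStarAlgHom
  have hin : ∀ a b : D, ⟪j a, j b⟫_ℂ = θ (star a * b) := fun a b => by
    change ⟪((f.toPreGNS a : f.PreGNS) : f.GNS), ((f.toPreGNS b : f.PreGNS) : f.GNS)⟫_ℂ = _
    rw [Completion.inner_coe, f.preGNS_inner_def]
    rfl
  have hπ : ∀ a b : D, π a (j b) = j (a * b) := fun a b => by
    change f.gnsNonUnitalStarAlgHom a ((f.toPreGNS b : f.PreGNS) : f.GNS) = _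
    rw [f.gnsNonUnitalStarAlgHom_apply_coe]
    rfl
  have hd : DenseRange j := by
    have := Completion.denseRange_coe (α := f.PreGNS)
    exact this
  have hR : ∀ b : D, ∃ R : H →L[ℂ] H, ∀ a, R (j a) = j (a * b) := fun b => by
    let R0 : f.PreGNS →ₗ[ℂ] f.PreGNS :=
      f.toPreGNS.toLinearMap ∘ₗ LinearMap.mulRight ℂ b ∘ₗ f.ofPreGNS.toLinearMap
    have hb : ∀ x : f.PreGNS, ‖R0 x‖ ≤ ‖b‖ * ‖x‖ := fun x => by
      rw [← sq_le_sq₀ (by positivity) (by positivity), mul_pow, ← Complex.real_le_real]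
      push_cast
      rw [f.preGNS_norm_sq, f.preGNS_norm_sq]
      change θ (star ((f.ofPreGNS x) * b) * (f.ofPreGNS x * b)) ≤ _ * θ _
      generalize f.ofPreGNS x = y
      rw [hθ.tr, star_mul, hθ.tr (star y) y]
      have h1 : y * b * (star b * star y) ≤ (‖b‖ ^ 2) • (y * star y) := by
        have := CStarAlgebra.star_right_conjugate_le_norm_smul (a := y) (b := b * star b)
        rw [CStarRing.norm_self_mul_star, ← sq] at this
        refine le_trans (le_of_eq ?_) this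
        simp only [mul_assoc]
      have h2 := hpos _ (sub_nonneg.2 h1)
      rw [map_sub, sub_nonneg] at h2
      refine h2.trans (le_of_eq ?_)
      rw [← Complex.coe_smul, map_smul, smul_eq_mul]
      push_cast
      rfl
    refine ⟨(R0.mkContinuous ‖b‖ hb).completion, fun a => ?_⟩
    change (R0.mkContinuous ‖b‖ hb).completion ((f.toPreGNS a : f.PreGNS) : f.GNS) = _
    simp [R0, j]
  choose R hR using hR
  have hRs : ∀ b, star (R b) = R (star b) := fun b => by
    rw [ContinuousLinearMap.star_eq_adjoint]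
    symm
    rw [ContinuousLinearMap.eq_adjoint_iff]
    intro x y
    refine hd.induction_on₂ (p := fun x y => ⟪R (star b) x, y⟫_ℂ = ⟪x, R b y⟫_ℂ) ?_ ?_ x y
    · exact isClosed_eq (by fun_prop) (by fun_prop)
    · intro a c
      rw [hR, hR, hin, hin, star_mul, star_star, mul_assoc, hθ.tr, mul_assoc]
  have ext : ∀ {x y : H →L[ℂ] H}, (∀ a, x (j a) = y (j a)) → x = y := fun {x y} h =>
    ContinuousLinearMap.ext fun v => hd.induction_on (p := fun v => x v = y v) v
      (isClosed_eq x.continuous y.continuous) h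
  let M1 : VonNeumannAlgebra H := cen (Set.range π)
  let M : VonNeumannAlgebra H := cen (M1 : Set (H →L[ℂ] H))
  have hR1 : ∀ b, R b ∈ M1 := fun b => mem_cen.2 (by
    rintro _ ⟨a, rfl⟩
    rw [← map_star π]
    exact ⟨ext fun c => by simp [hπ, hR, mul_assoc], ext fun c => by simp [hπ, hR, mul_assoc]⟩)
  have hM : ∀ x ∈ M, ∀ b, x (j b) = R b (x (j 1)) := fun x hx b => by
    have := ((mem_cen.1 hx) (R b) (hR1 b)).1
    have h2 := congrArg (fun T : H →L[ℂ] H => T (j 1)) this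
    change R b (x (j 1)) = x (R b (j 1)) at h2
    rw [hR, one_mul] at h2
    exact h2.symm
  have hπM : ∀ d, π d ∈ M := fun d => mem_cen.2 fun g hg => by
    have := mem_cen.1 hg (π d) ⟨d, rfl⟩
    refine ⟨this.1.symm, ?_⟩
    have h3 := congrArg star this.2
    simpa using h3
  have hj1 : ∀ d, π d (j 1) = j d := fun d => by rw [hπ, mul_one]
  have h11 : ⟪j 1, j 1⟫_ℂ = 1 := by rw [hin, star_one, one_mul, hθ.one]
  have hn1 : ‖j 1‖ = 1 := by
    have := inner_self_eq_norm_sq_to_K (𝕜 := ℂ) (j 1)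
    rw [h11] at this
    have h2 : (‖j 1‖ : ℝ) ^ 2 = 1 := Complex.ofReal_injective (by push_cast; exact this.symm)
    exact (pow_eq_one_iff_of_nonneg (norm_nonneg _) two_ne_zero).1 h2
  have hjs : ∀ d, ‖j (star d)‖ = ‖j d‖ := fun d => by
    have h1 := inner_self_eq_norm_sq_to_K (𝕜 := ℂ) (j (star d))
    have h2 := inner_self_eq_norm_sq_to_K (𝕜 := ℂ) (j d)
    rw [hin, star_star, hθ.tr, ← hin, h2] at h1
    have h3 : (‖j d‖ : ℝ) ^ 2 = ‖j (star d)‖ ^ 2 := Complex.ofReal_injective (by push_cast; exact h1)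
    exact ((sq_eq_sq₀ (norm_nonneg _) (norm_nonneg _)).1 h3).symm
  have hA : ∀ x ∈ M, ∀ d, ⟪j 1, x (j d)⟫_ℂ = ⟪j (star d), x (j 1)⟫_ℂ := fun x hx d => by
    rw [hM x hx, ← ContinuousLinearMap.adjoint_inner_left, ← ContinuousLinearMap.star_eq_adjoint,
      hRs, hR, one_mul]
  have hB : ∀ z ∈ M, ∀ ζ, ‖⟪(star z) (j 1), ζ⟫_ℂ‖ ≤ ‖ζ‖ * ‖z (j 1)‖ := fun z hz ζ => by
    refine hd.induction_on (p := fun ζ => ‖⟪(star z) (j 1), ζ⟫_ℂ‖ ≤ ‖ζ‖ * ‖z (j 1)‖) ζ
      (isClosed_le (by fun_prop) (by fun_prop)) fun d => ?_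
    rw [ContinuousLinearMap.star_eq_adjoint, ContinuousLinearMap.adjoint_inner_left, hA z hz,
      ← hjs d]
    exact norm_inner_le_norm _ _
  have hC : ∀ z ∈ M, ‖(star z) (j 1)‖ ≤ ‖z (j 1)‖ := fun z hz => by
    have := hB z hz ((star z) (j 1))
    rw [norm_inner_symm, ← inner_self_re_eq_norm, inner_self_eq_norm_mul_norm] at this
    by_cases h0 : ‖(star z) (j 1)‖ = 0
    · rw [h0]; exact norm_nonneg _
    · exact le_of_mul_le_mul_left this (lt_of_le_of_ne (norm_nonneg _) (Ne.symm h0))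
  have hD : ∀ z ∈ M, ‖(star z) (j 1)‖ = ‖z (j 1)‖ := fun z hz =>
    le_antisymm (hC z hz) (by simpa using hC (star z) (star_mem hz))
  have hss : ∀ z : H →L[ℂ] H, ⟪j 1, (star z * z) (j 1)⟫_ℂ = (‖z (j 1)‖ : ℂ) ^ 2 := fun z => by
    change ⟪j 1, (star z) (z (j 1))⟫_ℂ = _
    rw [ContinuousLinearMap.star_eq_adjoint, ContinuousLinearMap.adjoint_inner_right]
    exact inner_self_eq_norm_sq_to_K _
  let T : (H →L[ℂ] H) →ₗ[ℂ] ℂ :=
    { toFun := fun x => ⟪j 1, x (j 1)⟫_ℂ
      map_add' := fun x y => inner_add_right (j 1) (x (j 1)) (y (j 1))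
      map_smul' := fun c x => by simp [inner_smul_right] }
  refine ⟨H, inferInstance, inferInstance, inferInstance, M, j 1, π, hn1, ⟨⟨fun i => if i = 0 then
    j 1 else 0, ?_, ?_⟩, ?_, ?_, ?_⟩, hπM, fun d => ?_, ?_⟩
  · exact summable_of_ne_finset_zero (s := {0}) fun b hb => by
      rw [Finset.mem_singleton] at hb
      simp [hb]
  · intro x _
    have := hasSum_ite_eq (0 : ℕ) ⟪j 1, x (j 1)⟫_ℂ
    refine this.congr_fun fun k => ?_
    by_cases hk : k = 0
    · simp only [hk, if_true]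
    · simp only [hk, if_false]
      exact inner_zero_left _
  · exact h11
  · intro x hx y hy
    refine tr_pol T M.toStarSubalgebra (fun z hz => ?_) hx hy
    change ⟪j 1, (star z * z) (j 1)⟫_ℂ = ⟪j 1, (z * star z) (j 1)⟫_ℂ
    have h1 := hss z
    have h2 := hss (star z)
    rw [star_star] at h2
    rw [h1, h2, hD z hz]
  · intro x hx h
    change ⟪j 1, (star x * x) (j 1)⟫_ℂ = 0 at h
    rw [hss, sq_eq_zero_iff, Complex.ofReal_eq_zero, norm_eq_zero] at h
    exact ext fun a => by rw [hM x hx, h, map_zero]; rfl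
  · rw [hj1, hin, star_one, one_mul]
  · simp only [hj1]
    exact hd

end Pool.Agent.Helper71q
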