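import Pool.Agent.Helper71q.Kop

set_option autoImplicit false
set_option linter.unusedSectionVars false

namespace Pool.Agent.Helper71q
open Pool.Agent.H75.QP Pool.Agent.H75 Finset Topology Filter
open scoped InnerProductSpace ComplexOrder

section
variable {n : ℕ} {B : Type} [CStarAlgebra B]

/-- the space of magic unitaries in `B` -/
abbrev KK (n : ℕ) (B : Type) [CStarAlgebra B] := {v : Fin n → Fin n → B // Magic v}

theorem kcompact [FiniteDimensional ℂ B] : CompactSpace (KK n B) := by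
  have : ProperSpace B := FiniteDimensional.proper ℂ B
  refine isCompact_iff_compactSpace.1 (?_ : IsCompact {v : Fin n → Fin n → B | Magic v})
  have h1 : IsCompact (Set.univ.pi fun _ : Fin n => Set.univ.pi fun _ : Fin n =>
      Metric.closedBall (0 : B) 1) :=
    isCompact_univ_pi fun _ => isCompact_univ_pi fun _ => isCompact_closedBall _ _
  refine h1.of_isClosed_subset ?_ fun v hv i _ j _ => by
    rw [mem_closedBall_zero_iff]
    exact (hv.proj i j).norm_le
  have : {v : Fin n → Fin n → B | Magic v} =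
      {v | (∀ i j, v i j * v i j = v i j) ∧ (∀ i j, star (v i j) = v i j) ∧
        (∀ i, ∑ k, v i k = 1) ∧ ∀ j, ∑ k, v k j = 1} := by
    ext v
    exact ⟨fun h => ⟨fun i j => (h.proj i j).isIdempotentElem, fun i j =>
      (h.proj i j).isSelfAdjoint, h.row, h.col⟩, fun h => ⟨fun i j => ⟨h.1 i j, h.2.1 i j⟩,
        h.2.2.1, h.2.2.2⟩⟩
  rw [this]
  simp only [Set.ofPred_and, Set.ofPred_forall]
  refine IsClosed.inter ?_ (IsClosed.inter ?_ (IsClosed.inter ?_ ?_))
  · exact isClosed_iInter fun i => isClosed_iInter fun j => isClosed_eq (by fun_prop) (by fun_prop)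
  · exact isClosed_iInter fun i => isClosed_iInter fun j => isClosed_eq (by fun_prop) (by fun_prop)
  · exact isClosed_iInter fun i => isClosed_eq (by fun_prop) (by fun_prop)
  · exact isClosed_iInter fun i => isClosed_eq (by fun_prop) (by fun_prop)

/-- finite partitions of unity adapted to a neighbourhood of the diagonal -/
theorem pou {K : Type} [TopologicalSpace K] [CompactSpace K] [T2Space K] (G : C(K × K, ℂ))
    {ε : ℝ} (hε : 0 < ε) (h0 : ∀ v, G (v, v) = 0) (hr : ∀ x, 0 ≤ G x) :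
    ∃ (ι : Type) (_ : Fintype ι) (χ : ι → C(K, ℂ)), (∀ i x, 0 ≤ χ i x) ∧ (∀ x, ∑ i, χ i x = 1) ∧
      ∀ i v w, χ i v ≠ 0 → χ i w ≠ 0 → G (v, w) ≤ (ε : ℂ) := by
  have hU : ∀ v : K, ∃ U : Set K, IsOpen U ∧ v ∈ U ∧ ∀ x ∈ U, ∀ y ∈ U, ‖G (x, y)‖ < ε := fun v => by
    have h1 : {p : K × K | ‖G p‖ < ε} ∈ 𝓝 (v, v) :=
      (isOpen_lt (by fun_prop) continuous_const).mem_nhds (by
        change ‖G (v, v)‖ < ε
        rw [h0, norm_zero]; exact hε)
    rw [nhds_prod_eq, mem_prod_same_iff] at h1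
    obtain ⟨t, ht, h2⟩ := h1
    obtain ⟨U, hUt, hUo, hvU⟩ := mem_nhds_iff.1 ht
    exact ⟨U, hUo, hvU, fun x hx y hy => h2 ⟨hUt hx, hUt hy⟩⟩
  choose U hUo hvU hG using hU
  obtain ⟨s, hs⟩ := isCompact_univ.elim_finite_subcover U hUo fun v _ => Set.mem_iUnion.2 ⟨v, hvU v⟩
  obtain ⟨f, hf⟩ := PartitionOfUnity.exists_isSubordinate (isClosed_univ (X := K))
    (fun i : s => U i) (fun i => hUo i) (fun x hx => by
      obtain ⟨i, hi, hx⟩ := Set.mem_iUnion₂.1 (hs hx)
      exact Set.mem_iUnion.2 ⟨⟨i, hi⟩, hx⟩)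
  refine ⟨s, inferInstance, fun i => ⟨fun x => ((f i x : ℝ) : ℂ), by fun_prop⟩, fun i x =>
    Complex.zero_le_real.2 (f.nonneg i x), fun x => ?_, fun i v w hv hw => ?_⟩
  · have := f.sum_eq_one (Set.mem_univ x)
    rw [finsum_eq_sum_of_fintype] at this
    change ∑ i, ((f i x : ℝ) : ℂ) = 1
    rw [← Complex.ofReal_sum, this, Complex.ofReal_one]
  · have hv' : v ∈ U i := hf i (subset_closure (by
      intro h
      exact hv (by change ((f i v : ℝ) : ℂ) = 0; rw [h, Complex.ofReal_zero])))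
    have hw' : w ∈ U i := hf i (subset_closure (by
      intro h
      exact hw (by change ((f i w : ℝ) : ℂ) = 0; rw [h, Complex.ofReal_zero])))
    have h1 := hG i v hv' w hw'
    have h2 := Complex.nonneg_iff.1 (hr (v, w))
    refine Complex.le_def.2 ⟨?_, ?_⟩
    · rw [Complex.ofReal_re]
      exact (Complex.re_le_norm _).trans h1.le
    · rw [Complex.ofReal_im, ← h2.2]

/-- composition with the trace -/
noncomputable def tc {X : Type} [TopologicalSpace X] (t : B →L[ℂ] ℂ) (F : C(X, B)) : C(X, ℂ) :=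
  ⟨fun x => t (F x), by fun_prop⟩

theorem tc_apply {X : Type} [TopologicalSpace X] (t : B →L[ℂ] ℂ) (F : C(X, B)) (x : X) :
    tc t F x = t (F x) := rfl

theorem TS.tc {X : Type} [TopologicalSpace X] [CompactSpace X] {t : B →L[ℂ] ℂ} (ht : IsTrace t)
    {Λ : C(X, ℂ) → ℂ} (h : Λ ∈ TS C(X, ℂ)) : (fun F => Λ (tc t F)) ∈ TS C(X, B) := by
  refine ⟨fun F G => ?_, fun c F => ?_, ?_, fun F => ?_, fun F G => ?_⟩
  · rw [← h.1]; exact congrArg Λ (ContinuousMap.ext fun x => map_add t _ _)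
  · rw [← h.2.1]; exact congrArg Λ (ContinuousMap.ext fun x => map_smul t _ _)
  · rw [← h.2.2.1]; exact congrArg Λ (ContinuousMap.ext fun x => ht.one)
  · exact TS.pos h fun x => ht.pos (F x)
  · exact congrArg Λ (ContinuousMap.ext fun x => ht.tr _ _)

end

section
variable {n : ℕ} {A B : Type} [CStarAlgebra A] [CStarAlgebra B] {u : Fin n → Fin n → A}
  {t : B →L[ℂ] ℂ}

/-- couplings of barycenters -/
theorem close_cpl [CompactSpace (KK n B)] (ht : IsTrace t)
    (U : A →⋆ₐ[ℂ] C(KK n B, B)) (hU : ∀ i j (v : KK n B), U (u i j) v = v.1 i j) {ε : ℝ}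
    (hε : 0 < ε) : ∃ (ι : Type) (_ : Fintype ι) (χ : ι → C(KK n B, ℂ)) (δ : ℝ), 0 < δ ∧
    ∀ Φ ∈ TS C(KK n B, ℂ), ∀ Φ' ∈ TS C(KK n B, ℂ), (∀ i, ‖Φ' (χ i) - Φ (χ i)‖ < δ) →
      ∀ φ ψ : A →L[ℂ] ℂ, (∀ a, Φ (tc t (U a)) = φ a) → (∀ a, Φ' (tc t (U a)) = ψ a) →
      ∃ r s, Cpl u φ ψ r s ∧ s < ε := by
  let α : A →⋆ₐ[ℂ] C(KK n B × KK n B, B) :=
    (ContinuousMap.compStarAlgHom' ℂ B ContinuousMap.fst).comp U
  let β : A →⋆ₐ[ℂ] C(KK n B × KK n B, B) :=
    (ContinuousMap.compStarAlgHom' ℂ B ContinuousMap.snd).comp U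
  let x : Fin n → Fin n → C(KK n B × KK n B, B) := fun i j => α (u i j) - β (u i j)
  let g : Fin n → Fin n → C(KK n B × KK n B, ℂ) := fun i j => tc t (star (x i j) * x i j)
  let G : C(KK n B × KK n B, ℂ) := ∑ i, ∑ j, g i j
  have hx : ∀ i j p, x i j p = p.1.1 i j - p.2.1 i j := fun i j p => by
    change U (u i j) p.1 - U (u i j) p.2 = _
    rw [hU, hU]
  have g0 : ∀ i j p, 0 ≤ g i j p := fun i j p => ht.pos (x i j p)
  have G0 : ∀ p, 0 ≤ G p := fun p => by
    simp only [G, ContinuousMap.sum_apply]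
    exact sum_nonneg fun i _ => sum_nonneg fun j _ => g0 i j p
  have Gd : ∀ v, G (v, v) = 0 := fun v => by
    simp only [G, ContinuousMap.sum_apply]
    refine sum_eq_zero fun i _ => sum_eq_zero fun j _ => ?_
    change t (star (x i j (v, v)) * x i j (v, v)) = 0
    rw [hx, sub_self, mul_zero, map_zero]
  set η : ℝ := (ε / (n + 1)) ^ 2 with hη
  have η0 : 0 < η := by positivity
  obtain ⟨ι, hι, χ, c1, c2, c3⟩ := pou G (half_pos η0) Gd G0
  have hC : ∀ p, G p ≤ ((‖G‖ + 1 : ℝ) : ℂ) := fun p => by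
    have h2 := Complex.nonneg_iff.1 (G0 p)
    refine Complex.le_def.2 ⟨?_, ?_⟩
    · rw [Complex.ofReal_re]
      exact ((Complex.re_le_norm _).trans (G.norm_coe_le_norm p)).trans (by linarith)
    · rw [Complex.ofReal_im, ← h2.2]
  refine ⟨ι, hι, χ, η / 4 / ((‖G‖ + 1) * (Fintype.card ι + 1)), by positivity,
    fun Φ hΦ Φ' hΦ' hd φ ψ h1 h2 => ?_⟩
  obtain ⟨Λ, hΛ, m1, m2, hcost⟩ := couple χ c1 c2 (Φ := TS.clm hΦ) (Φ' := TS.clm hΦ') hΦ hΦ'
    (ε := η / 2) (C := ‖G‖ + 1) (G := G) (by positivity) (by positivity) hC c3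
  have hθ := TS.tc (X := KK n B × KK n B) ht hΛ
  have hG : (Λ G).re ≤ 3 / 4 * η := by
    refine hcost.trans ?_
    have : ∑ i, |(TS.clm hΦ (χ i)).re - (TS.clm hΦ' (χ i)).re| ≤
        ∑ _i : ι, η / 4 / ((‖G‖ + 1) * (Fintype.card ι + 1)) := by
      refine sum_le_sum fun i _ => ?_
      rw [abs_sub_comm, ← Complex.sub_re]
      exact (Complex.abs_re_le_norm _).trans (hd i).le
    rw [sum_const, card_univ, nsmul_eq_mul] at this
    have h3 := mul_le_mul_of_nonneg_left this (show 0 ≤ ‖G‖ + 1 by positivity)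
    have h4 : (‖G‖ + 1) * ((Fintype.card ι : ℝ) * (η / 4 / ((‖G‖ + 1) * (Fintype.card ι + 1)))) ≤
        η / 4 := by
      have h5 : (‖G‖ + 1) ≠ 0 := by positivity
      have h6 : (Fintype.card ι + 1 : ℝ) ≠ 0 := by positivity
      have h7 : (‖G‖ + 1) * ((Fintype.card ι : ℝ) * (η / 4 / ((‖G‖ + 1) * (Fintype.card ι + 1)))) =
          η / 4 * ((Fintype.card ι : ℝ) / (Fintype.card ι + 1)) := by field_simp
      rw [h7]
      refine mul_le_of_le_one_right (by positivity) ((div_le_one (by positivity)).2 (by linarith))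
    linarith
  obtain ⟨r, s, hrs, hs⟩ := cpl_of u (TS.isTrace hθ) α β (φ := φ) (ψ := ψ)
    (fun a => by rw [← h1]; exact m1 (tc t (U a))) (fun a => by rw [← h2]; exact m2 (tc t (U a)))
  refine ⟨r, s, hrs, lt_of_le_of_lt hs ?_⟩
  have hij : ∀ i j, (TS.clm hθ (star (x i j) * x i j)).re ≤ η := fun i j => by
    have h3 : Λ G = ∑ i, ∑ j, Λ (g i j) := by
      have := map_sum (TS.lin hΛ) (fun i => ∑ j, g i j) univ
      refine this.trans (sum_congr rfl fun i _ => ?_)
      exact map_sum (TS.lin hΛ) (fun j => g i j) univ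
    have h4 : ∀ i j, 0 ≤ (Λ (g i j)).re := fun i j => (Complex.nonneg_iff.1 (TS.pos hΛ (g0 i j))).1
    have h5 : (Λ (g i j)).re ≤ (Λ G).re := by
      rw [h3, Complex.re_sum]
      simp only [Complex.re_sum]
      exact (single_le_sum (f := fun j => (Λ (g i j)).re) (fun j _ => h4 i j) (mem_univ j)).trans
        (single_le_sum (f := fun i => ∑ j, (Λ (g i j)).re)
          (fun i _ => sum_nonneg fun j _ => h4 i j) (mem_univ i))
    exact h5.trans (hG.trans (by linarith))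
  have hij2 : ∀ i j, 1 / 2 * √(TS.clm hθ (star (x i j) * x i j)).re ≤ 1 / 2 * (ε / (n + 1)) :=
    fun i j => by
      refine mul_le_mul_of_nonneg_left ?_ (by norm_num)
      rw [Real.sqrt_le_left (by positivity)]
      exact hij i j
  have h6 := sum_le_sum fun i (_ : i ∈ univ) => sum_le_sum fun j (_ : j ∈ univ) => hij2 i j
  simp only [sum_const, card_univ, Fintype.card_fin, nsmul_eq_mul] at h6
  have h7 := mul_le_mul_of_nonneg_left h6 (show (0 : ℝ) ≤ 1 / n by positivity)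
  refine lt_of_le_of_lt h7 ?_
  rcases Nat.eq_zero_or_pos n with h0 | h0
  · subst h0
    simpa using hε
  · have h8 : (0 : ℝ) < n := Nat.cast_pos.2 h0
    rw [show 1 / (n : ℝ) * (n * (n * (1 / 2 * (ε / (n + 1))))) = ε * (n / (2 * (n + 1))) by
      field_simp]
    refine mul_lt_of_lt_one_right hε ?_
    rw [div_lt_one (by positivity)]
    linarith

end

end Pool.Agent.Helper71q
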