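import Pool.Agent.Helper71q.Tsd

set_option autoImplicit false
set_option linter.unusedSectionVars false

namespace Pool.Agent.Helper71q
open Pool.Agent.H75.QP Pool.Agent.H75 Finset
open scoped InnerProductSpace ComplexOrder

section
variable {X : Type} [TopologicalSpace X] [CompactSpace X]

theorem TS.pos {Φ : C(X, ℂ) → ℂ} (h : Φ ∈ TS C(X, ℂ)) {f : C(X, ℂ)} (hf : ∀ x, 0 ≤ f x) :
    0 ≤ Φ f := by
  let g : C(X, ℂ) := ⟨fun x => ((√(f x).re : ℝ) : ℂ), by fun_prop⟩
  have : f = star g * g := ContinuousMap.ext fun x => by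
    have h1 := Complex.nonneg_iff.1 (hf x)
    change f x = star ((√(f x).re : ℝ) : ℂ) * ((√(f x).re : ℝ) : ℂ)
    rw [Complex.star_def, Complex.conj_ofReal, ← Complex.ofReal_mul, Real.mul_self_sqrt h1.1]
    exact Complex.ext rfl h1.2.symm
  rw [this]
  exact h.2.2.2.1 g

theorem TS.of_pos {Φ : C(X, ℂ) → ℂ} (h1 : ∀ a b, Φ (a + b) = Φ a + Φ b)
    (h2 : ∀ (c : ℂ) a, Φ (c • a) = c * Φ a) (h3 : Φ 1 = 1) (h4 : ∀ f, (∀ x, 0 ≤ f x) → 0 ≤ Φ f) :
    Φ ∈ TS C(X, ℂ) :=
  ⟨h1, h2, h3, fun a => h4 _ fun x => star_mul_self_nonneg (a x), fun a b => by rw [mul_comm]⟩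

/-- a positive functional vanishing at `e` vanishes on multiples of `e` -/
theorem TS.null {Φ : C(X, ℂ) → ℂ} (h : Φ ∈ TS C(X, ℂ)) {e : C(X, ℂ)} (he : ∀ x, 0 ≤ e x)
    (h0 : Φ e = 0) (f : C(X, ℂ)) : Φ (e * f) = 0 := by
  -- real parts
  have key : ∀ f : C(X, ℂ), (∀ x, 0 ≤ f x) → Φ (e * f) = 0 := fun f hf => by
    have a1 : 0 ≤ Φ (e * f) := TS.pos h fun x => mul_nonneg (he x) (hf x)
    have a2 : 0 ≤ Φ ((‖f‖ : ℂ) • e - e * f) := TS.pos h fun x => by
      have : f x ≤ (‖f‖ : ℂ) := by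
        have b1 := Complex.nonneg_iff.1 (hf x)
        have b2 := (Complex.re_le_norm _).trans (f.norm_coe_le_norm x)
        exact Complex.le_def.2 ⟨by simpa using b2, by simp [← b1.2]⟩
      have b3 := mul_nonneg (he x) (sub_nonneg.2 this)
      refine b3.trans (le_of_eq ?_)
      simp only [ContinuousMap.sub_apply, ContinuousMap.smul_apply, ContinuousMap.mul_apply,
        smul_eq_mul]
      ring
    have a3 : Φ ((‖f‖ : ℂ) • e - e * f) = (‖f‖ : ℂ) * Φ e - Φ (e * f) := by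
      have := (TS.lin h).map_sub ((‖f‖ : ℂ) • e) (e * f)
      have h2 := h.2.1 (‖f‖ : ℂ) e
      exact this.trans (by rw [← h2]; rfl)
    rw [a3, h0, mul_zero, zero_sub, neg_nonneg] at a2
    exact le_antisymm a2 a1
  let c : ℂ := (‖f‖ : ℂ)
  let f1 : C(X, ℂ) := ⟨fun x => (((f x).re + ‖f‖ : ℝ) : ℂ), by fun_prop⟩
  let f2 : C(X, ℂ) := ⟨fun x => (((f x).im + ‖f‖ : ℝ) : ℂ), by fun_prop⟩
  have hn : ∀ x, -‖f‖ ≤ (f x).re ∧ -‖f‖ ≤ (f x).im := fun x =>
    ⟨by linarith [neg_abs_le (f x).re, Complex.abs_re_le_norm (f x), f.norm_coe_le_norm x],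
      by linarith [neg_abs_le (f x).im, Complex.abs_im_le_norm (f x), f.norm_coe_le_norm x]⟩
  have k1 := key f1 fun x => Complex.zero_le_real.2 (by linarith [(hn x).1])
  have k2 := key f2 fun x => Complex.zero_le_real.2 (by linarith [(hn x).2])
  have e0 : e * f = (e * f1 + Complex.I • (e * f2)) + (-c - Complex.I * c) • e :=
    ContinuousMap.ext fun x => by
      simp only [ContinuousMap.add_apply, ContinuousMap.smul_apply, ContinuousMap.mul_apply,
        smul_eq_mul, f1, f2, c, ContinuousMap.coe_mk]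
      push_cast
      nth_rewrite 1 [← Complex.re_add_im (f x)]
      ring
  rw [e0, h.1, h.1, h.2.1, h.2.1, k1, k2, h0]
  ring

end

section
variable {K : Type} [TopologicalSpace K] [CompactSpace K]

/-- the product functional -/
noncomputable def ten (Φ Φ' : C(K, ℂ) →L[ℂ] ℂ) (F : C(K × K, ℂ)) : ℂ :=
  Φ ⟨fun v => Φ' (F.curry v), Φ'.continuous.comp F.curry.continuous⟩

variable (Φ Φ' : C(K, ℂ) →L[ℂ] ℂ)

theorem ten_add (F G : C(K × K, ℂ)) : ten Φ Φ' (F + G) = ten Φ Φ' F + ten Φ Φ' G := by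
  unfold ten
  rw [← map_add]
  congr 1
  ext v
  change Φ' ((F + G).curry v) = Φ' (F.curry v) + Φ' (G.curry v)
  rw [← map_add]
  rfl

theorem ten_smul (c : ℂ) (F : C(K × K, ℂ)) : ten Φ Φ' (c • F) = c * ten Φ Φ' F := by
  unfold ten
  rw [← smul_eq_mul, ← map_smul]
  congr 1
  ext v
  change Φ' ((c • F).curry v) = c • Φ' (F.curry v)
  rw [← map_smul]
  rfl

theorem ten_prod (f h : C(K, ℂ)) (F : C(K × K, ℂ)) (hF : ∀ v w, F (v, w) = f v * h w) :
    ten Φ Φ' F = Φ f * Φ' h := by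
  unfold ten
  have : (⟨fun v => Φ' (F.curry v), Φ'.continuous.comp F.curry.continuous⟩ : C(K, ℂ)) =
      Φ' h • f := by
    ext v
    change Φ' (F.curry v) = Φ' h * f v
    have : F.curry v = f v • h := by
      ext w
      exact hF v w
    rw [this, map_smul, smul_eq_mul, mul_comm]
  rw [this, map_smul, smul_eq_mul, mul_comm]

variable {Φ Φ'}

theorem ten_pos (h : (Φ : C(K, ℂ) → ℂ) ∈ TS C(K, ℂ)) (h' : (Φ' : C(K, ℂ) → ℂ) ∈ TS C(K, ℂ))
    {F : C(K × K, ℂ)} (hF : ∀ x, 0 ≤ F x) : 0 ≤ ten Φ Φ' F :=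
  TS.pos h fun v => TS.pos h' fun w => hF (v, w)

theorem ten_mono (h : (Φ : C(K, ℂ) → ℂ) ∈ TS C(K, ℂ)) (h' : (Φ' : C(K, ℂ) → ℂ) ∈ TS C(K, ℂ))
    {F G : C(K × K, ℂ)} (hF : ∀ x, F x ≤ G x) : ten Φ Φ' F ≤ ten Φ Φ' G := by
  have h1 := ten_pos h h' (F := G - F) fun x => sub_nonneg.2 (hF x)
  have h2 := ten_add Φ Φ' (G - F) F
  rw [sub_add_cancel] at h2
  rw [h2]
  exact le_add_of_nonneg_left h1

/-- the product functional, linear -/
noncomputable def tenL (Φ Φ' : C(K, ℂ) →L[ℂ] ℂ) : C(K × K, ℂ) →ₗ[ℂ] ℂ where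
  toFun := ten Φ Φ'
  map_add' := ten_add Φ Φ'
  map_smul' := ten_smul Φ Φ'

theorem couple {ι : Type} [Fintype ι] (χ : ι → C(K, ℂ)) (hχ : ∀ i x, 0 ≤ χ i x)
    (hs : ∀ x, ∑ i, χ i x = 1) (h : (Φ : C(K, ℂ) → ℂ) ∈ TS C(K, ℂ))
    (h' : (Φ' : C(K, ℂ) → ℂ) ∈ TS C(K, ℂ)) {G : C(K × K, ℂ)} {ε C : ℝ} (hε : 0 ≤ ε) (hC : 0 ≤ C)
    (hG1 : ∀ x, G x ≤ (C : ℂ)) (hG : ∀ i v w, χ i v ≠ 0 → χ i w ≠ 0 → G (v, w) ≤ (ε : ℂ)) :
    ∃ Λ ∈ TS C(K × K, ℂ), (∀ f : C(K, ℂ), Λ (f.comp ContinuousMap.fst) = Φ f) ∧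
      (∀ f : C(K, ℂ), Λ (f.comp ContinuousMap.snd) = Φ' f) ∧
      (Λ G).re ≤ ε + C * ∑ i, |(Φ (χ i)).re - (Φ' (χ i)).re| := by
  have hc : ∀ {Φ : C(K, ℂ) →L[ℂ] ℂ}, (Φ : C(K, ℂ) → ℂ) ∈ TS C(K, ℂ) → ∀ i,
      Φ (χ i) = ((Φ (χ i)).re : ℂ) ∧ 0 ≤ (Φ (χ i)).re := fun h i => by
    have := Complex.nonneg_iff.1 (TS.pos h (hχ i))
    exact ⟨Complex.ext rfl this.2.symm, this.1⟩
  have hs1 : ∑ i, χ i = 1 := ContinuousMap.ext fun x => by
    rw [ContinuousMap.sum_apply, hs]; rfl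
  obtain ⟨p, hp⟩ : ∃ p : ι → ℝ, ∀ i, p i = (Φ (χ i)).re := ⟨_, fun _ => rfl⟩
  obtain ⟨p', hp'⟩ : ∃ p : ι → ℝ, ∀ i, p i = (Φ' (χ i)).re := ⟨_, fun _ => rfl⟩
  simp only [← hp, ← hp']
  have q : ∀ i, Φ (χ i) = (p i : ℂ) := fun i => by rw [hp]; exact (hc h i).1
  have q' : ∀ i, Φ' (χ i) = (p' i : ℂ) := fun i => by rw [hp']; exact (hc h' i).1
  have p0 : ∀ i, 0 ≤ p i := fun i => by rw [hp]; exact (hc h i).2
  have p0' : ∀ i, 0 ≤ p' i := fun i => by rw [hp']; exact (hc h' i).2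
  have s1 : ∑ i, p i = 1 := by
    have : ((∑ i, p i : ℝ) : ℂ) = 1 := by
      push_cast
      simp only [← q]
      rw [← map_sum, hs1]
      exact h.2.2.1
    exact_mod_cast this
  have s1' : ∑ i, p' i = 1 := by
    have : ((∑ i, p' i : ℝ) : ℂ) = 1 := by
      push_cast
      simp only [← q']
      rw [← map_sum, hs1]
      exact h'.2.2.1
    exact_mod_cast this
  set r : ι → ℝ := fun i => min (p i) (p' i) with hr
  have r0 : ∀ i, 0 ≤ r i := fun i => le_min (p0 i) (p0' i)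
  have r1 : ∀ i, r i ≤ p i := fun i => min_le_left _ _
  have r1' : ∀ i, r i ≤ p' i := fun i => min_le_right _ _
  set e : ι → ℝ := fun i => 1 - r i / p i with he
  set e' : ι → ℝ := fun i => 1 - r i / p' i with he'
  have e0 : ∀ i, 0 ≤ e i := fun i => sub_nonneg.2 (div_le_one_of_le₀ (r1 i) (p0 i))
  have e0' : ∀ i, 0 ≤ e' i := fun i => sub_nonneg.2 (div_le_one_of_le₀ (r1' i) (p0' i))
  have ep : ∀ i, e i * p i = p i - r i := fun i => by
    rcases eq_or_ne (p i) 0 with h0 | h0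
    · have : r i = 0 := le_antisymm (h0 ▸ r1 i) (r0 i)
      rw [h0, this]; simp
    · simp only [he]; field_simp
  have ep' : ∀ i, e' i * p' i = p' i - r i := fun i => by
    rcases eq_or_ne (p' i) 0 with h0 | h0
    · have : r i = 0 := le_antisymm (h0 ▸ r1' i) (r0 i)
      rw [h0, this]; simp
    · simp only [he']; field_simp
  set c : ι → ℝ := fun i => r i / (p i * p' i) with hcd
  have c0 : ∀ i, 0 ≤ c i := fun i => div_nonneg (r0 i) (mul_nonneg (p0 i) (p0' i))
  have cp' : ∀ i, c i * p' i = 1 - e i := fun i => by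
    simp only [hcd, he]
    rcases eq_or_ne (p' i) 0 with h0 | h0
    · have : r i = 0 := le_antisymm (h0 ▸ r1' i) (r0 i)
      rw [h0, this]; simp
    · rw [sub_sub_cancel, div_mul_eq_mul_div, mul_div_mul_right _ _ h0]
  have cp : ∀ i, c i * p i = 1 - e' i := fun i => by
    simp only [hcd, he']
    rcases eq_or_ne (p i) 0 with h0 | h0
    · have : r i = 0 := le_antisymm (h0 ▸ r1 i) (r0 i)
      rw [h0, this]; simp
    · rw [sub_sub_cancel, div_mul_eq_mul_div, mul_comm (p i), mul_div_mul_right _ _ h0]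
  set m : ℝ := ∑ i, (p i - r i) with hm
  have hm' : m = ∑ i, (p' i - r i) := by
    rw [hm, sum_sub_distrib, sum_sub_distrib, s1, s1']
  have m0 : 0 ≤ m := sum_nonneg fun i _ => sub_nonneg.2 (r1 i)
  set E : C(K, ℂ) := ∑ i, (e i : ℂ) • χ i with hE
  set E' : C(K, ℂ) := ∑ i, (e' i : ℂ) • χ i with hE'
  have E0 : ∀ x, 0 ≤ E x := fun x => by
    rw [hE, ContinuousMap.sum_apply]
    exact sum_nonneg fun i _ => mul_nonneg (Complex.zero_le_real.2 (e0 i)) (hχ i x)
  have E0' : ∀ x, 0 ≤ E' x := fun x => by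
    rw [hE', ContinuousMap.sum_apply]
    exact sum_nonneg fun i _ => mul_nonneg (Complex.zero_le_real.2 (e0' i)) (hχ i x)
  have ΦE : Φ E = (m : ℂ) := by
    rw [hE, map_sum, hm]
    push_cast
    refine sum_congr rfl fun i _ => ?_
    rw [map_smul, q, smul_eq_mul]
    exact_mod_cast ep i
  have ΦE' : Φ' E' = (m : ℂ) := by
    rw [hE', map_sum, hm']
    push_cast
    refine sum_congr rfl fun i _ => ?_
    rw [map_smul, q', smul_eq_mul]
    exact_mod_cast ep' i
  set κ : ℝ := m⁻¹ with hκ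
  have κ0 : 0 ≤ κ := inv_nonneg.2 m0
  let P : ι → C(K × K, ℂ) := fun i => (χ i).comp ContinuousMap.fst * (χ i).comp ContinuousMap.snd
  let Q : C(K × K, ℂ) := E.comp ContinuousMap.fst * E'.comp ContinuousMap.snd
  set W : C(K × K, ℂ) := ∑ i, (c i : ℂ) • P i + (κ : ℂ) • Q with hW
  have W0 : ∀ x, 0 ≤ W x := fun x => by
    rw [hW, ContinuousMap.add_apply, ContinuousMap.sum_apply]
    refine add_nonneg (sum_nonneg fun i _ => mul_nonneg (Complex.zero_le_real.2 (c0 i))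
      (mul_nonneg (hχ i _) (hχ i _))) (mul_nonneg (Complex.zero_le_real.2 κ0)
        (mul_nonneg (E0 _) (E0' _)))
  have mar1 : ∀ f : C(K, ℂ), ten Φ Φ' (W * f.comp ContinuousMap.fst) = Φ f := fun f => by
    have a1 : ∀ i, ten Φ Φ' (P i * f.comp ContinuousMap.fst) = Φ (χ i * f) * p' i := fun i => by
      rw [ten_prod Φ Φ' (χ i * f) (χ i) _ fun v w => ?_, q']
      change χ i v * χ i w * f v = χ i v * f v * χ i w
      ring
    have a2 : ten Φ Φ' (Q * f.comp ContinuousMap.fst) = Φ (E * f) * m := by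
      rw [ten_prod Φ Φ' (E * f) E' _ fun v w => ?_, ΦE']
      change E v * E' w * f v = E v * f v * E' w
      ring
    have a3 : ten Φ Φ' (W * f.comp ContinuousMap.fst) =
        ∑ i, (c i : ℂ) * (Φ (χ i * f) * p' i) + κ * (Φ (E * f) * m) := by
      have : W * f.comp ContinuousMap.fst = ∑ i, (c i : ℂ) • (P i * f.comp ContinuousMap.fst) +
          (κ : ℂ) • (Q * f.comp ContinuousMap.fst) := by
        rw [hW, add_mul, sum_mul, smul_mul_assoc]
        simp only [smul_mul_assoc]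
      rw [this, ten_add, ten_smul, a2]
      have := map_sum (tenL Φ Φ') (fun i => (c i : ℂ) • (P i * f.comp ContinuousMap.fst)) univ
      change ten Φ Φ' _ = ∑ i, ten Φ Φ' _ at this
      rw [this]
      congr 1
      refine sum_congr rfl fun i _ => ?_
      rw [ten_smul, a1]
    have a4 : (κ : ℂ) * (Φ (E * f) * m) = Φ (E * f) := by
      rcases eq_or_ne m 0 with h0 | h0
      · have := TS.null h E0 (by rw [ΦE, h0, Complex.ofReal_zero]) f
        rw [this]; simp
      · have h1 : (m : ℂ) ≠ 0 := Complex.ofReal_ne_zero.2 h0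
        rw [hκ]; push_cast; field_simp
    have a5 : Φ (E * f) = ∑ i, (e i : ℂ) * Φ (χ i * f) := by
      rw [hE, sum_mul, map_sum]
      exact sum_congr rfl fun i _ => by rw [smul_mul_assoc, map_smul, smul_eq_mul]
    have a6 : Φ f = ∑ i, Φ (χ i * f) := by
      rw [← map_sum, ← sum_mul, hs1, one_mul]
    rw [a3, a4, a5, a6, ← sum_add_distrib]
    refine sum_congr rfl fun i _ => ?_
    have : (c i : ℂ) * p' i = 1 - e i := by exact_mod_cast cp' i
    linear_combination (Φ (χ i * f)) * this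
  have mar2 : ∀ f : C(K, ℂ), ten Φ Φ' (W * f.comp ContinuousMap.snd) = Φ' f := fun f => by
    have a1 : ∀ i, ten Φ Φ' (P i * f.comp ContinuousMap.snd) = p i * Φ' (χ i * f) := fun i => by
      rw [ten_prod Φ Φ' (χ i) (χ i * f) _ fun v w => ?_, q]
      change χ i v * χ i w * f w = χ i v * (χ i w * f w)
      ring
    have a2 : ten Φ Φ' (Q * f.comp ContinuousMap.snd) = m * Φ' (E' * f) := by
      rw [ten_prod Φ Φ' E (E' * f) _ fun v w => ?_, ΦE]
      change E v * E' w * f w = E v * (E' w * f w)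
      ring
    have a3 : ten Φ Φ' (W * f.comp ContinuousMap.snd) =
        ∑ i, (c i : ℂ) * (p i * Φ' (χ i * f)) + κ * (m * Φ' (E' * f)) := by
      have : W * f.comp ContinuousMap.snd = ∑ i, (c i : ℂ) • (P i * f.comp ContinuousMap.snd) +
          (κ : ℂ) • (Q * f.comp ContinuousMap.snd) := by
        rw [hW, add_mul, sum_mul, smul_mul_assoc]
        simp only [smul_mul_assoc]
      rw [this, ten_add, ten_smul, a2]
      have := map_sum (tenL Φ Φ') (fun i => (c i : ℂ) • (P i * f.comp ContinuousMap.snd)) univ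
      change ten Φ Φ' _ = ∑ i, ten Φ Φ' _ at this
      rw [this]
      congr 1
      refine sum_congr rfl fun i _ => ?_
      rw [ten_smul, a1]
    have a4 : (κ : ℂ) * (m * Φ' (E' * f)) = Φ' (E' * f) := by
      rcases eq_or_ne m 0 with h0 | h0
      · have := TS.null h' E0' (by rw [ΦE', h0, Complex.ofReal_zero]) f
        rw [this]; simp
      · have h1 : (m : ℂ) ≠ 0 := Complex.ofReal_ne_zero.2 h0
        rw [hκ]; push_cast; field_simp
    have a5 : Φ' (E' * f) = ∑ i, (e' i : ℂ) * Φ' (χ i * f) := by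
      rw [hE', sum_mul, map_sum]
      exact sum_congr rfl fun i _ => by rw [smul_mul_assoc, map_smul, smul_eq_mul]
    have a6 : Φ' f = ∑ i, Φ' (χ i * f) := by
      rw [← map_sum, ← sum_mul, hs1, one_mul]
    rw [a3, a4, a5, a6, ← sum_add_distrib]
    refine sum_congr rfl fun i _ => ?_
    have : (c i : ℂ) * p i = 1 - e' i := by exact_mod_cast cp i
    linear_combination (Φ' (χ i * f)) * this
  refine ⟨fun F => ten Φ Φ' (W * F), TS.of_pos (fun F F' => ?_) (fun t F => ?_) ?_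
    (fun F hF => ten_pos h h' fun x => mul_nonneg (W0 x) (hF x)), mar1, mar2, ?_⟩
  · rw [mul_add, ten_add]
  · rw [mul_smul_comm, ten_smul]
  · have := mar1 1
    rw [h.2.2.1] at this
    exact this
  · have b1 : ten Φ Φ' (W * G) ≤ ten Φ Φ' (∑ i, ((c i * ε : ℝ) : ℂ) • P i + ((κ * C : ℝ) : ℂ) • Q) := by
      refine ten_mono h h' fun x => ?_
      rw [ContinuousMap.mul_apply, hW, ContinuousMap.add_apply, ContinuousMap.add_apply,
        ContinuousMap.sum_apply, ContinuousMap.sum_apply, add_mul, sum_mul]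
      refine add_le_add (sum_le_sum fun i _ => ?_) ?_
      · change (c i : ℂ) * (χ i x.1 * χ i x.2) * G x ≤ ((c i * ε : ℝ) : ℂ) * (χ i x.1 * χ i x.2)
        by_cases h1 : χ i x.1 = 0
        · simp [h1]
        by_cases h2 : χ i x.2 = 0
        · simp [h2]
        have := mul_le_mul_of_nonneg_left (hG i x.1 x.2 h1 h2)
          (mul_nonneg (Complex.zero_le_real.2 (c0 i)) (mul_nonneg (hχ i x.1) (hχ i x.2)))
        refine this.trans (le_of_eq ?_)
        push_cast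
        ring
      · change (κ : ℂ) * (E x.1 * E' x.2) * G x ≤ ((κ * C : ℝ) : ℂ) * (E x.1 * E' x.2)
        have := mul_le_mul_of_nonneg_left (hG1 x)
          (mul_nonneg (Complex.zero_le_real.2 κ0) (mul_nonneg (E0 x.1) (E0' x.2)))
        refine this.trans (le_of_eq ?_)
        push_cast
        ring
    have b2 : ten Φ Φ' (∑ i, ((c i * ε : ℝ) : ℂ) • P i + ((κ * C : ℝ) : ℂ) • Q) =
        ((∑ i, c i * ε * (p i * p' i) + κ * C * (m * m) : ℝ) : ℂ) := by
      rw [ten_add, ten_smul, ten_prod Φ Φ' E E' Q fun v w => rfl, ΦE, ΦE']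
      have := map_sum (tenL Φ Φ') (fun i => ((c i * ε : ℝ) : ℂ) • P i) univ
      change ten Φ Φ' _ = ∑ i, ten Φ Φ' _ at this
      rw [this]
      push_cast
      congr 1
      refine sum_congr rfl fun i _ => ?_
      rw [ten_smul, ten_prod Φ Φ' (χ i) (χ i) (P i) fun v w => rfl, q, q']
    rw [b2] at b1
    have b3 := (Complex.le_def.1 b1).1
    rw [Complex.ofReal_re] at b3
    refine b3.trans (add_le_add ?_ ?_)
    · calc ∑ i, c i * ε * (p i * p' i) ≤ ∑ i, ε * p i := by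
            refine sum_le_sum fun i _ => ?_
            have h1 : c i * p' i ≤ 1 := by rw [cp']; linarith [e0 i]
            have h2 := mul_le_mul_of_nonneg_left h1 (mul_nonneg hε (p0 i))
            calc c i * ε * (p i * p' i) = ε * p i * (c i * p' i) := by ring
              _ ≤ _ := by rw [mul_one] at h2; exact h2
        _ = ε := by rw [← mul_sum, s1, mul_one]
    · have h1 : κ * (m * m) = m := by
        rcases eq_or_ne m 0 with h0 | h0
        · rw [h0]; simp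
        · rw [hκ]; field_simp
      calc κ * C * (m * m) = C * (κ * (m * m)) := by ring
        _ = C * m := by rw [h1]
        _ ≤ _ := by
          refine mul_le_mul_of_nonneg_left (sum_le_sum fun i _ => ?_) hC
          simp only [hr]
          rcases le_total (p i) (p' i) with h2 | h2
          · rw [min_eq_left h2, sub_self]; exact abs_nonneg _
          · rw [min_eq_right h2]; exact le_abs_self _

end

end Pool.Agent.Helper71q
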