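import Pool.Agent.Helper71q.Tsd
import Pool.Agent.H86.RoeD

set_option autoImplicit false
set_option linter.unusedSectionVars false

namespace Pool.Agent.Helper71q
open Pool.Agent.H75.QP Pool.Agent.H75 Finset Pool.Agent.H86.Roe Filter Topology
open scoped InnerProductSpace ComplexOrder

section
variable {X : Type}

theorem hsg (x y : H X →L[ℂ] H X) (a : X) :
    HasSum (fun k => x (δ k) a * y (δ a) k) ((x * y) (δ a) a) := by
  have := lp.hasSum_inner (𝕜 := ℂ) (ContinuousLinearMap.adjoint x (δ a)) (y (δ a))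
  rw [ContinuousLinearMap.adjoint_inner_left, inner_δ] at this
  refine this.congr_fun fun k => ?_
  rw [adj_ent]
  simp [mul_comm]

theorem Vδ (w : Equiv.Perm X) (a : X) : V w (δ (w a)) = δ a :=
  lp.ext (funext fun z => by
    rw [V_apply, δ_apply, δ_apply]
    by_cases h : z = a
    · rw [if_pos h, if_pos (by rw [h])]
    · rw [if_neg h, if_neg fun h' => h (w.injective h')])

theorem entg {w : Equiv.Perm X} {x : H X →L[ℂ] H X} (h : V w * x = x * V w) (a b : X) :
    x (δ (w a)) (w b) = x (δ a) b := by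
  rw [← V_apply]
  change (V w * x) _ _ = _
  rw [h]
  change x (V w _) _ = _
  rw [Vδ]

end

section
variable {G : Type} [Group G]

/-- the left regular representation -/
noncomputable def lam : G →* (H G →L[ℂ] H G) where
  toFun g := V (Equiv.mulLeft g⁻¹)
  map_one' := by
    rw [inv_one]
    have : Equiv.mulLeft (1 : G) = 1 := by ext; simp
    rw [this, V_one]
  map_mul' g h := by
    rw [← V_mul]
    congr 1
    ext x
    simp

theorem lam_apply (g : G) (ξ : H G) (h : G) : lam g ξ h = ξ (g⁻¹ * h) := by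
  change V (Equiv.mulLeft g⁻¹) ξ h = _
  rw [V_apply]
  rfl

theorem lam_star (g : G) : star (lam g) = lam g⁻¹ := by
  change star (V (Equiv.mulLeft g⁻¹)) = V (Equiv.mulLeft g⁻¹⁻¹)
  rw [V_star]
  congr 1
  ext x
  simp

theorem lam_norm (g : G) : ‖lam g‖ ≤ 1 := V_norm _

theorem lam_δ (g h : G) : lam g (δ h) = δ (g * h) := by
  refine lp.ext (funext fun z => ?_)
  rw [lam_apply, δ_apply, δ_apply]
  by_cases h1 : z = g * h
  · rw [if_pos h1, if_pos (by rw [h1]; group)]
  · rw [if_neg h1, if_neg (fun h2 => h1 (by rw [← h2]; group))]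

/-- right translations -/
noncomputable def rh (k : G) : H G →L[ℂ] H G := V (Equiv.mulRight k)

theorem rh_lam (k g : G) : rh k * lam g = lam g * rh k := by
  refine ext_pt fun ξ x => ?_
  change rh k (lam g ξ) x = lam g (rh k ξ) x
  unfold rh
  rw [lam_apply, V_apply, V_apply, lam_apply]
  simp [mul_assoc]

theorem gtr {x y : H G →L[ℂ] H G} (hx : ∀ k, rh k * x = x * rh k) (hy : ∀ k, rh k * y = y * rh k) :
    (x * y) (δ 1) 1 = (y * x) (δ 1) 1 := by
  rw [← (hsg x y 1).tsum_eq, ← (hsg y x 1).tsum_eq, ← (Equiv.inv G).tsum_eq]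
  refine tsum_congr fun k => ?_
  have h1 := entg (hx k) k⁻¹ 1
  have h2 := entg (hy k) 1 k⁻¹
  simp only [Equiv.coe_mulRight, inv_mul_cancel, one_mul] at h1 h2
  rw [Equiv.inv_apply, ← h1, ← h2, mul_comm]

variable {n : ℕ} {A : Type} [CStarAlgebra A] {u : Fin n → Fin n → A}

/-- the trace attached to a representation commuting with right translations -/
noncomputable def gφ (π : A →⋆ₐ[ℂ] (H G →L[ℂ] H G)) (a : A) : ℂ := π a (δ 1) 1

theorem gφ_eq (π : A →⋆ₐ[ℂ] (H G →L[ℂ] H G)) (a : A) : gφ π a = ⟪δ 1, π a (δ 1)⟫_ℂ :=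
  (inner_δ _ _).symm

theorem gφ_TS (π : A →⋆ₐ[ℂ] (H G →L[ℂ] H G)) (h : ∀ a k, rh k * π a = π a * rh k) :
    gφ π ∈ TS A := by
  refine ⟨fun a b => ?_, fun c a => ?_, ?_, fun a => ?_, fun a b => ?_⟩
  · simp only [gφ, map_add]; rfl
  · simp only [gφ, map_smul]; rfl
  · rw [gφ, map_one]
    change (δ (1 : G)) (1 : G) = 1
    rw [δ_apply, if_pos rfl]
  · rw [gφ_eq, map_mul, map_star]
    change 0 ≤ ⟪δ 1, (star (π a)) (π a (δ 1))⟫_ℂ
    rw [ContinuousLinearMap.star_eq_adjoint, ContinuousLinearMap.adjoint_inner_right]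
    have h2 := inner_self_eq_norm_sq_to_K (𝕜 := ℂ) (π a (δ 1))
    rw [h2]
    change 0 ≤ ((‖π a (δ 1)‖ : ℝ) : ℂ) ^ 2
    rw [← Complex.ofReal_pow]
    exact Complex.zero_le_real.2 (by positivity)
  · simp only [gφ, map_mul]
    exact gtr (h a) (h b)

/-- commutation extends from the generators -/
theorem comm_gen (hu : Universal u) {B : Type} [CStarAlgebra B] (π : A →⋆ₐ[ℂ] B) (g : B)
    (h : ∀ i j, g * π (u i j) = π (u i j) * g) (a : A) : g * π a = π a * g := by
  let S := StarSubalgebra.centralizer ℂ ({g} : Set B)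
  have hcl : IsClosed (S : Set B) := Set.isClosed_centralizer _
  have hp : ∀ i j, IsStarProjection (π (u i j)) := fun i j => (hu.magic.proj i j).map π
  have hm : ∀ i j, π (u i j) ∈ S := fun i j => (StarSubalgebra.mem_centralizer_iff ℂ).2 (by
    rintro _ rfl
    refine ⟨h i j, ?_⟩
    simpa [(hp i j).isSelfAdjoint.star_eq] using (congrArg star (h i j)).symm)
  have m1 : Magic fun i j => π (u i j) :=
    ⟨hp, fun i => by rw [← map_sum, hu.magic.row, map_one],
      fun i => by rw [← map_sum, hu.magic.col, map_one]⟩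
  obtain ⟨ρ, hρ⟩ := (hu.lift S (fun i j => ⟨_, hm i j⟩)
    ⟨fun i j => ⟨Subtype.ext (hp i j).1, Subtype.ext (hp i j).2⟩,
      fun i => Subtype.ext (by simpa using m1.row i),
      fun i => Subtype.ext (by simpa using m1.col i)⟩).exists
  have : π = S.subtype.comp ρ := (hu.lift B _ m1).unique (fun _ _ => rfl) fun i j => by
    simp [hρ]
  rw [this]
  exact ((StarSubalgebra.mem_centralizer_iff ℂ).1 (ρ a).2 g rfl).1

end

end Pool.Agent.Helper71q
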