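import Pool.Agent.Helper71q.Low

set_option autoImplicit false
set_option linter.unusedSectionVars false

namespace Pool.Agent.Helper71q
open Pool.Agent.H75.QP Pool.Agent.H75 Finset Pool.Agent.H86.Roe Filter Topology
open scoped InnerProductSpace ComplexOrder

theorem re_half (z : ℂ) : ((1 / 2 : ℂ) * z).re = 1 / 2 * z.re := by
  rw [show (1 / 2 : ℂ) = ((1 / 2 : ℝ) : ℂ) by push_cast; rfl, Complex.re_ofReal_mul]

theorem re_sixth (z : ℂ) : ((1 / 6 : ℂ) * z).re = 1 / 6 * z.re := by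
  rw [show (1 / 6 : ℂ) = ((1 / 6 : ℝ) : ℂ) by push_cast; rfl, Complex.re_ofReal_mul]

section
variable {K : Type} [NormedAddCommGroup K] [InnerProductSpace ℂ K] [CompleteSpace K]

/-- the averaging map of a pair of representations -/
noncomputable def SS (a1 a2 b1 b2 x : K →L[ℂ] K) : K →L[ℂ] K :=
  (1 / 2 : ℂ) • x + (1 / 6 : ℂ) • (a1 * x * star a2 + b1 * x * star b2 + star b1 * x * b2)

variable {M : VonNeumannAlgebra K} {τ : (K →L[ℂ] K) → ℂ} {a1 a2 b1 b2 : K →L[ℂ] K}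

theorem vsmul {x : K →L[ℂ] K} (c : ℂ) (hx : x ∈ M) : c • x ∈ M :=
  SMulMemClass.smul_mem (S := StarSubalgebra ℂ (K →L[ℂ] K)) (s := M.toStarSubalgebra) c hx

theorem SS_mem (h1 : a1 ∈ M) (h2 : a2 ∈ M) (h3 : b1 ∈ M) (h4 : b2 ∈ M) {x : K →L[ℂ] K}
    (hx : x ∈ M) : SS a1 a2 b1 b2 x ∈ M :=
  add_mem (vsmul _ hx) (vsmul _ (add_mem (add_mem (mul_mem (mul_mem h1 hx) (star_mem h2))
    (mul_mem (mul_mem h3 hx) (star_mem h4))) (mul_mem (mul_mem (star_mem h3) hx) h4)))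

theorem SS_symm {T : (K →L[ℂ] K) →ₗ[ℂ] ℂ} (htr : ∀ x ∈ M, ∀ y ∈ M, T (x * y) = T (y * x))
    (h1 : a1 ∈ M) (h2 : a2 ∈ M) (h3 : b1 ∈ M) (h4 : b2 ∈ M) (s1 : star a1 = a1) (s2 : star a2 = a2)
    {x y : K →L[ℂ] K} (hx : x ∈ M) (hy : y ∈ M) :
    T (star x * SS a1 a2 b1 b2 y) = T (star (SS a1 a2 b1 b2 x) * y) := by
  unfold SS
  have e1 : T (star x * (a1 * y * star a2)) = T (a2 * star x * a1 * y) := by
    rw [s2, ← mul_assoc, ← mul_assoc,
      htr _ (mul_mem (mul_mem (star_mem hx) h1) hy) _ h2]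
    simp only [mul_assoc]
  have e2 : T (star x * (b1 * y * star b2)) = T (star b2 * star x * b1 * y) := by
    rw [← mul_assoc, ← mul_assoc,
      htr _ (mul_mem (mul_mem (star_mem hx) h3) hy) _ (star_mem h4)]
    simp only [mul_assoc]
  have e3 : T (star x * (star b1 * y * b2)) = T (b2 * star x * star b1 * y) := by
    rw [← mul_assoc, ← mul_assoc,
      htr _ (mul_mem (mul_mem (star_mem hx) (star_mem h3)) hy) _ h4]
    simp only [mul_assoc]
  have c2 : star (1 / 2 : ℂ) = 1 / 2 := by simp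
  have c6 : star (1 / 6 : ℂ) = 1 / 6 := by simp
  have e4 : star ((1 / 2 : ℂ) • x + (1 / 6 : ℂ) • (a1 * x * star a2 + b1 * x * star b2 +
      star b1 * x * b2)) = (1 / 2 : ℂ) • star x + (1 / 6 : ℂ) • (a2 * star x * a1 +
        b2 * star x * star b1 + star b2 * star x * b1) := by
    simp only [star_add, star_smul, c2, c6, star_mul, star_star, s1, mul_assoc]
  rw [e4]
  simp only [mul_add, add_mul, mul_smul_comm, smul_mul_assoc, map_add, map_smul, smul_add]
  rw [e1, e2, e3]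
  ring

end

section
variable {n : ℕ} {A : Type} [CStarAlgebra A] {u : Fin n → Fin n → A}
  {Γ G : Type} [Group Γ] [Group G]

/-- the coefficients of the powers of the averaging operator, split along a finite quotient -/
noncomputable def yk (hn : 5 ≤ n) (u : Fin n → Fin n → A) (P Q : G) : ℕ → G → A
  | 0, c => by classical exact if c = 1 then 1 else 0
  | k + 1, c => (1 / 2 : ℂ) • yk hn u P Q k c + (1 / 6 : ℂ) • (aA hn u * yk hn u P Q k (P⁻¹ * c) +
      bA hn u * yk hn u P Q k (Q⁻¹ * c) + star (bA hn u) * yk hn u P Q k (Q * c))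

theorem lam_ind (q : Γ →* G) (g : Γ) (d : G) (ζ : H Γ) :
    lam g (Ind (fun x => q x = d) ζ) = Ind (fun x => q x = q g * d) (lam g ζ) := by
  classical
  refine lp.ext (funext fun x => ?_)
  rw [lam_apply, Ind_apply, Ind_apply, lam_apply]
  have : q (g⁻¹ * x) = d ↔ q x = q g * d := by
    rw [map_mul, map_inv, inv_mul_eq_iff_eq_mul]
  by_cases h : q x = q g * d
  · rw [if_pos h, if_pos (this.2 h)]
  · rw [if_neg h, if_neg fun h' => h (this.1 h')]

theorem yk_ind (hn : 5 ≤ n) (hu : Magic u) (f : FreeGroup (Fin 2) →* Γ) (q : Γ →* G)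
    {π : A →⋆ₐ[ℂ] (H Γ →L[ℂ] H Γ)} (hπ : ∀ w, π (wA hn hu w : A) = lam (f w)) (k : ℕ) (c : G) :
    π (yk hn u (q (f (.of 0))) (q (f (.of 1))) k c) (δ 1) =
      Ind (fun x => q x = c) ((Zop (f (.of 0)) (f (.of 1)) ^ k) (δ 1)) := by
  classical
  have ea : π (aA hn u) = lam (f (.of 0)) := by rw [← wA_0 hn hu, hπ]
  have eb : π (bA hn u) = lam (f (.of 1)) := by rw [← wA_1 hn hu, hπ]
  have ec : π (star (bA hn u)) = lam (f (.of 1))⁻¹ := by rw [map_star, eb, lam_star]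
  induction k generalizing c with
  | zero =>
    rw [pow_zero]
    change π (if c = 1 then 1 else 0) (δ 1) = Ind (fun x => q x = c) (δ 1)
    rw [Ind_δ, map_one]
    by_cases h : c = 1
    · rw [if_pos h, if_pos h.symm, map_one]; rfl
    · rw [if_neg h, if_neg (Ne.symm h), map_zero]; rfl
  | succ k ih =>
    set P := q (f (.of 0)) with hP
    set Q := q (f (.of 1)) with hQ
    set ζ := (Zop (f (.of 0)) (f (.of 1)) ^ k) (δ 1) with hζ
    have e1 : (Zop (f (.of 0)) (f (.of 1)) ^ (k + 1)) (δ 1) = (1 / 2 : ℂ) • ζ + (1 / 6 : ℂ) •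
        (lam (f (.of 0)) ζ + lam (f (.of 1)) ζ + lam (f (.of 1))⁻¹ ζ) := by
      rw [pow_succ']; rfl
    have e2 : π (yk hn u P Q (k + 1) c) (δ 1) =
        (1 / 2 : ℂ) • π (yk hn u P Q k c) (δ 1) + (1 / 6 : ℂ) •
          (lam (f (.of 0)) (π (yk hn u P Q k (P⁻¹ * c)) (δ 1)) +
            lam (f (.of 1)) (π (yk hn u P Q k (Q⁻¹ * c)) (δ 1)) +
            lam (f (.of 1))⁻¹ (π (yk hn u P Q k (Q * c)) (δ 1))) := by
      rw [yk, map_add, map_smul, map_smul, map_add, map_add, map_mul, map_mul, map_mul, ea, eb, ec]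
      rfl
    rw [e2, e1, ih, ih, ih, ih, lam_ind, lam_ind, lam_ind]
    have q1 : P * (P⁻¹ * c) = c := by group
    have q2 : Q * (Q⁻¹ * c) = c := by group
    have q3 : q (f (.of 1))⁻¹ * (Q * c) = c := by rw [map_inv, ← hQ]; group
    rw [← hP, ← hQ, q1, q2, q3]
    simp only [map_add, map_smul]

end

end Pool.Agent.Helper71q
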