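import Pool.Agent.Helper71q.Top
import Pool.Agent.Helper71q.Emat
import Pool.Agent.Helper71q.Four

set_option autoImplicit false

namespace Pool.Agent.Helper71q
open Pool.Agent.H75.QP Pool.Agent.H75 Finset Topology Filter
open scoped InnerProductSpace ComplexOrder Matrix.Norms.L2Operator

/-- `n = 4`: the weak-* topology and the `d_1` topology agree -/
theorem four {A : Type} [CStarAlgebra A] {u : Fin 4 → Fin 4 → A} (hu : Universal u)
    {φ : A →L[ℂ] ℂ} (hφ : IsTrace φ) {ε : ℝ} (hε : 0 < ε) :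
    ∃ (F : Finset A) (δ : ℝ), 0 < δ ∧ ∀ ψ : A →L[ℂ] ℂ, IsTrace ψ → (∀ a ∈ F, ‖ψ a - φ a‖ < δ) →
      ∃ r s, Cpl u φ ψ r s ∧ s < ε :=
  top_of hu (tN_tr (Nat.factorial_pos _)) (ext_mat (fun p : Fin 4 × Fin 4 => xx u p.1 p.2)
    (fun p => xx_sa hu.magic _ _) (xx_rel hu.magic) (gen4 hu)) hφ hε

end Pool.Agent.Helper71q
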