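import Pool.Agent.Helper71q.Kmag

set_option autoImplicit false
set_option linter.unusedSectionVars false

namespace Pool.Agent.Helper71q
open Pool.Agent.H75.QP Pool.Agent.H75 Finset Topology Filter
open scoped InnerProductSpace ComplexOrder

section
variable {n : ℕ} {A B : Type} [CStarAlgebra A] [CStarAlgebra B] {u : Fin n → Fin n → A}
  {t : B →L[ℂ] ℂ}

/-- if the extreme traces factor through `B`, weak-* closeness implies closeness of couplings -/
theorem top_of [FiniteDimensional ℂ B] (hu : Universal u) (ht : IsTrace t)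
    (hE : ∀ f ∈ (TS A).extremePoints ℝ, ∃ ρ : A →⋆ₐ[ℂ] B, ∀ a, f a = t (ρ a))
    {φ : A →L[ℂ] ℂ} (hφ : IsTrace φ) {ε : ℝ} (hε : 0 < ε) :
    ∃ (F : Finset A) (δ : ℝ), 0 < δ ∧ ∀ ψ : A →L[ℂ] ℂ, IsTrace ψ → (∀ a ∈ F, ‖ψ a - φ a‖ < δ) →
      ∃ r s, Cpl u φ ψ r s ∧ s < ε := by
  have := kcompact (n := n) (B := B)
  obtain ⟨U, hU⟩ := (hu.lift C(KK n B, B) (fun i j => ⟨fun v => v.1 i j,
    (continuous_apply j).comp ((continuous_apply i).comp continuous_subtype_val)⟩)
    ⟨fun i j => ⟨ContinuousMap.ext fun v => (v.2.proj i j).isIdempotentElem,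
      ContinuousMap.ext fun v => (v.2.proj i j).isSelfAdjoint⟩,
      fun i => ContinuousMap.ext fun v => by
        rw [ContinuousMap.sum_apply]; exact v.2.row i,
      fun i => ContinuousMap.ext fun v => by
        rw [ContinuousMap.sum_apply]; exact v.2.col i⟩).exists
  have hU' : ∀ i j (v : KK n B), U (u i j) v = v.1 i j := fun i j v => by rw [hU]; rfl
  have hρ : ∀ ρ : A →⋆ₐ[ℂ] B, ∃ v : KK n B, ∀ a, ρ a = U a v := fun ρ => by
    have hm : Magic fun i j => ρ (u i j) := ⟨fun i j => (hu.magic.proj i j).map ρ,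
      fun i => by rw [← map_sum, hu.magic.row, map_one],
      fun i => by rw [← map_sum, hu.magic.col, map_one]⟩
    refine ⟨⟨_, hm⟩, fun a => ?_⟩
    let ev : C(KK n B, B) →⋆ₐ[ℂ] B :=
      { toFun := fun F => F ⟨_, hm⟩
        map_one' := rfl
        map_mul' := fun _ _ => rfl
        map_zero' := rfl
        map_add' := fun _ _ => rfl
        commutes' := fun _ => rfl
        map_star' := fun _ => rfl }
    have : ρ = ev.comp U := (hu.lift B _ hm).unique (fun _ _ => rfl) fun i j => hU' i j ⟨_, hm⟩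
    exact congrArg (fun x : A →⋆ₐ[ℂ] B => x a) this
  let L : A → C(KK n B, ℂ) := fun a => tc t (U a)
  let r : (C(KK n B, ℂ) → ℂ) → (A → ℂ) := fun Φ a => Φ (L a)
  have hr : Continuous r := by fun_prop
  have himg : ∀ Φ ∈ TS C(KK n B, ℂ), r Φ ∈ TS A := fun Φ hΦ => by
    refine ⟨fun a b => ?_, fun c a => ?_, ?_, fun a => ?_, fun a b => ?_⟩
    · change Φ (L _) = _
      rw [← hΦ.1]
      exact congrArg Φ (ContinuousMap.ext fun x => by
        change t (U (a + b) x) = t (U a x) + t (U b x)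
        rw [map_add U]; exact map_add t _ _)
    · change Φ (L _) = _
      rw [← hΦ.2.1]
      exact congrArg Φ (ContinuousMap.ext fun x => by
        change t (U (c • a) x) = c • t (U a x)
        rw [map_smul U]; exact map_smul t _ _)
    · change Φ (L _) = _
      rw [← hΦ.2.2.1]
      exact congrArg Φ (ContinuousMap.ext fun x => by
        change t (U 1 x) = 1
        rw [map_one]; exact ht.one)
    · exact TS.pos hΦ fun x => by
        change 0 ≤ t (U (star a * a) x)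
        rw [map_mul, map_star]
        exact ht.pos _
    · change Φ (L _) = Φ (L _)
      exact congrArg Φ (ContinuousMap.ext fun x => by
        change t (U (a * b) x) = t (U (b * a) x)
        rw [map_mul, map_mul]
        exact ht.tr _ _)
  have hcR : IsCompact (r '' TS C(KK n B, ℂ)) := TS.compact.image hr
  have hconv : Convex ℝ (r '' TS C(KK n B, ℂ)) := by
    refine TS.convex.is_linear_image (f := r) ⟨fun _ _ => rfl, fun _ _ => rfl⟩
  have hsub : TS A ⊆ r '' TS C(KK n B, ℂ) := by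
    rw [← closure_convexHull_extremePoints (TS.compact (D := A)) TS.convex]
    refine closure_minimal (convexHull_min (fun f hf => ?_) hconv) hcR.isClosed
    obtain ⟨ρ, h1⟩ := hE f hf
    obtain ⟨v, h2⟩ := hρ ρ
    refine ⟨fun F => F v, TS.of_pos (fun _ _ => rfl) (fun _ _ => rfl) rfl fun F hF => hF v, ?_⟩
    funext a
    change t (U a v) = f a
    rw [h1, h2]
  obtain ⟨ι, hι, χ, δ, hδ, key⟩ := close_cpl ht U hU' hε
  by_contra hcon
  push Not at hcon
  let B0 : Set (A → ℂ) := {f | ∃ ψ : A →L[ℂ] ℂ, IsTrace ψ ∧ f = ψ ∧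
    ∀ r s, Cpl u φ ψ r s → ε ≤ s}
  let B1 : Set (C(KK n B, ℂ) → ℂ) := {Φ | Φ ∈ TS C(KK n B, ℂ) ∧ r Φ ∈ B0}
  have h1 : (φ : A → ℂ) ∈ closure B0 := by
    rw [mem_closure_iff]
    intro o ho hφo
    obtain ⟨I, w, hw1, hw2⟩ := isOpen_pi_iff.1 ho _ hφo
    have h2 : ∀ᶠ δ in 𝓝[>] (0 : ℝ), ∀ a ∈ I, Metric.ball (φ a) δ ⊆ w a := by
      rw [Finset.eventually_all]
      intro a ha
      obtain ⟨η, hη, h3⟩ := Metric.isOpen_iff.1 (hw1 a ha).1 _ (hw1 a ha).2
      filter_upwards [Ioo_mem_nhdsGT hη] with δ hδ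
      exact (Metric.ball_subset_ball hδ.2.le).trans h3
    obtain ⟨δ', h3, h4⟩ := (h2.and self_mem_nhdsWithin).exists
    obtain ⟨ψ, hψ, h5, h6⟩ := hcon I δ' h4
    refine ⟨ψ, hw2 fun a ha => h3 a ha ?_, ψ, hψ, rfl, h6⟩
    rw [Metric.mem_ball, dist_eq_norm]
    exact h5 a ha
  have h2 : B0 ⊆ r '' closure B1 := fun f hf => by
    obtain ⟨ψ, hψ, rfl, h6⟩ := hf
    obtain ⟨Φ, hΦ, h7⟩ := hsub (TS.of hψ)
    exact ⟨Φ, subset_closure ⟨hΦ, by rw [h7]; exact ⟨ψ, hψ, rfl, h6⟩⟩, h7⟩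
  have hB1c : IsCompact (closure B1) :=
    TS.compact.of_isClosed_subset isClosed_closure
      (closure_minimal (fun Φ h => h.1) TS.compact.isClosed)
  obtain ⟨Φ, hΦc, h3⟩ := closure_minimal h2 (hB1c.image hr).isClosed h1
  have hΦ : Φ ∈ TS C(KK n B, ℂ) := closure_minimal (fun Φ h => h.1) TS.compact.isClosed hΦc
  obtain ⟨Φ', h4, hΦ', ψ, hψ, h5, h6⟩ := mem_closure_iff.1 hΦc
    {Φ' | ∀ i, ‖Φ' (χ i) - Φ (χ i)‖ < δ} (by
      rw [Set.ofPred_forall]
      exact isOpen_iInter_of_finite fun i => isOpen_lt (by fun_prop) (by fun_prop))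
    (fun i => by rw [sub_self, norm_zero]; exact hδ)
  obtain ⟨r', s', h7, h8⟩ := key Φ hΦ Φ' hΦ' h4 φ ψ (fun a => congrFun h3 a) (fun a => congrFun h5 a)
  exact absurd h8 (not_lt.2 (h6 r' s' h7))

end

end Pool.Agent.Helper71q
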