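import Pool.Agent.H75.QPDefs

set_option warn.classDefReducibility false

namespace Pool.Agent.Helper71q
open Pool.Agent.H75.QP

/-- the topology defined by the balls of a distance function: `V` is open if every `x ∈ V` has a
ball around it contained in `V` (for a metric this is the topology of the metric) -/
def ballTop {X : Type} (d : X → X → EReal) : TopologicalSpace X where
  IsOpen V := ∀ x ∈ V, ∃ ε : ℝ, 0 < ε ∧ ∀ y, d x y < (ε : EReal) → y ∈ V
  isOpen_univ _ _ := ⟨1, one_pos, fun _ _ => trivial⟩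
  isOpen_inter V W hV hW x hx := by
    obtain ⟨ε, hε, h1⟩ := hV x hx.1
    obtain ⟨δ, hδ, h2⟩ := hW x hx.2
    exact ⟨min ε δ, lt_min hε hδ, fun y hy =>
      ⟨h1 y (lt_of_lt_of_le hy (EReal.coe_le_coe_iff.2 (min_le_left _ _))),
        h2 y (lt_of_lt_of_le hy (EReal.coe_le_coe_iff.2 (min_le_right _ _)))⟩⟩
  isOpen_sUnion S hS x hx := by
    obtain ⟨V, hV, hx⟩ := hx
    obtain ⟨ε, hε, h⟩ := hS V hV x hx
    exact ⟨ε, hε, fun y hy => ⟨V, hV, h y hy⟩⟩

variable {n : ℕ} {A : Type} [CStarAlgebra A]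

/-- the space `T(A)` of tracial states -/
abbrev TT (A : Type) [CStarAlgebra A] : Type := {φ : A →L[ℂ] ℂ // IsTrace φ}

/-- `d_1(φ, ψ)`: the infimum of the `d_1`-costs of all tracial couplings -/
noncomputable def dOne (u : Fin n → Fin n → A) (φ ψ : TT A) : EReal :=
  ⨅ (r : ℝ) (s : ℝ) (_ : Cpl u φ.1 ψ.1 r s), (s : EReal)

/-- `d_∧(φ, ψ)`: the infimum of the `d_∧`-costs of all tracial couplings -/
noncomputable def dMeet (u : Fin n → Fin n → A) (φ ψ : TT A) : EReal :=
  ⨅ (r : ℝ) (s : ℝ) (_ : Cpl u φ.1 ψ.1 r s), (r : EReal)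

/-- the total variation distance -/
noncomputable def dTV (φ ψ : TT A) : EReal := ((1 / 2 * ‖φ.1 - ψ.1‖ : ℝ) : EReal)

/-- `O_1`: the weak-* topology, i.e. the topology of pointwise convergence on `A` -/
noncomputable def O1 (A : Type) [CStarAlgebra A] : TopologicalSpace (TT A) :=
  TopologicalSpace.induced (fun (φ : TT A) (a : A) => φ.1 a) Pi.topologicalSpace

/-- `O_2`: the topology of `d_1` -/
noncomputable def O2 (u : Fin n → Fin n → A) : TopologicalSpace (TT A) := ballTop (dOne u)

/-- `O_3`: the topology of `d_∧` -/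
noncomputable def O3 (u : Fin n → Fin n → A) : TopologicalSpace (TT A) := ballTop (dMeet u)

/-- `O_4`: the total variation topology -/
noncomputable def O4 (A : Type) [CStarAlgebra A] : TopologicalSpace (TT A) := ballTop dTV

end Pool.Agent.Helper71q
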