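import Pool.Agent.Helper71q.Gns

set_option autoImplicit false

namespace Pool.Agent.Helper71q
open Pool.Agent.H75.QP Pool.Agent.H75
open scoped InnerProductSpace ComplexOrder

/-- couplings from a C*-algebra with a tracial state -/
theorem cpl_of {n : ℕ} {A D : Type} [CStarAlgebra A] [CStarAlgebra D] (u : Fin n → Fin n → A)
    {θ : D →L[ℂ] ℂ} (hθ : IsTrace θ) (α β : A →⋆ₐ[ℂ] D) {φ ψ : A →L[ℂ] ℂ}
    (hφ : ∀ a, θ (α a) = φ a) (hψ : ∀ a, θ (β a) = ψ a) :
    ∃ r s, Cpl u φ ψ r s ∧ s ≤ 1 / n * ∑ i, ∑ j, 1 / 2 *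
      √(θ (star (α (u i j) - β (u i j)) * (α (u i j) - β (u i j)))).re := by
  obtain ⟨H, _, _, _, M, Ω, π, hn, htr, hmem, hval, -⟩ := gns hθ
  refine ⟨_, _, ⟨H, _, _, _, M, fun x => ⟪Ω, x Ω⟫_ℂ, π.comp α, π.comp β,
    ⟨htr, fun a => ⟨hmem _, hmem _⟩, fun a => ⟨?_, ?_⟩⟩, rfl, rfl⟩, ?_⟩
  · exact (hval _).trans (hφ a)
  · exact (hval _).trans (hψ a)
  · unfold costOne
    refine mul_le_mul_of_nonneg_left (Finset.sum_le_sum fun i _ => Finset.sum_le_sum fun j _ =>
      mul_le_mul_of_nonneg_left ?_ (by norm_num)) (by positivity)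
    simp only [StarAlgHom.comp_apply, ← map_sub]
    generalize α (u i j) - β (u i j) = x
    set X : H →L[ℂ] H := CFC.abs (π x) with hX
    have hXs : star X = X := (CFC.abs_nonneg (π x)).isSelfAdjoint.star_eq
    have h1 : (⟪Ω, X Ω⟫_ℂ).re ≤ ‖X Ω‖ := by
      refine (Complex.re_le_norm _).trans ((norm_inner_le_norm _ _).trans ?_)
      rw [hn, one_mul]
    refine h1.trans (Real.le_sqrt_of_sq_le (le_of_eq ?_))
    have h2 : ⟪Ω, (X * X) Ω⟫_ℂ = (‖X Ω‖ : ℂ) ^ 2 := by
      change ⟪Ω, X (X Ω)⟫_ℂ = _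
      nth_rewrite 1 [← hXs]
      rw [ContinuousLinearMap.star_eq_adjoint, ContinuousLinearMap.adjoint_inner_right]
      exact inner_self_eq_norm_sq_to_K _
    rw [hX, CFC.abs_mul_abs, ← map_star, ← map_mul, hval, ← hX] at h2
    rw [h2, ← Complex.ofReal_pow, Complex.ofReal_re]

/-- tracial states, as functions -/
def TS (D : Type) [CStarAlgebra D] : Set (D → ℂ) :=
  {f | (∀ a b, f (a + b) = f a + f b) ∧ (∀ (c : ℂ) a, f (c • a) = c * f a) ∧ f 1 = 1 ∧
    (∀ a, 0 ≤ f (star a * a)) ∧ ∀ a b, f (a * b) = f (b * a)}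

section
variable {D : Type} [CStarAlgebra D] {f : D → ℂ}

/-- the linear map -/
def TS.lin (hf : f ∈ TS D) : D →ₗ[ℂ] ℂ where
  toFun := f
  map_add' := hf.1
  map_smul' := hf.2.1

theorem TS.nn (hf : f ∈ TS D) (a : D) : (f (star a * a)).re ≤ ‖a‖ ^ 2 := by
  let _ : PartialOrder D := CStarAlgebra.spectralOrder D
  let _ : StarOrderedRing D := CStarAlgebra.spectralOrderedRing D
  have hpos : ∀ a : D, 0 ≤ a → 0 ≤ TS.lin hf a := fun a ha => by
    obtain ⟨b, rfl⟩ := CStarAlgebra.nonneg_iff_eq_star_mul_self.1 ha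
    exact hf.2.2.2.1 b
  let g : D →ₚ[ℂ] ℂ := PositiveLinearMap.mk₀ (TS.lin hf) hpos
  have := g.norm_apply_le_of_nonneg (star a * a) (star_mul_self_nonneg a)
  have h1 : g 1 = 1 := hf.2.2.1
  rw [h1, norm_one, one_mul, CStarRing.norm_star_mul_self, ← sq] at this
  exact (Complex.re_le_norm _).trans this

theorem TS.bd (hf : f ∈ TS D) (a : D) : ‖f a‖ ≤ ‖a‖ := by
  let _ : PartialOrder D := CStarAlgebra.spectralOrder D
  let _ : StarOrderedRing D := CStarAlgebra.spectralOrderedRing D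
  have hpos : ∀ a : D, 0 ≤ a → 0 ≤ TS.lin hf a := fun a ha => by
    obtain ⟨b, rfl⟩ := CStarAlgebra.nonneg_iff_eq_star_mul_self.1 ha
    exact hf.2.2.2.1 b
  let g : D →ₚ[ℂ] ℂ := PositiveLinearMap.mk₀ (TS.lin hf) hpos
  have h0 := norm_inner_le_norm (𝕜 := ℂ) (g.toPreGNS (1 : D)) (g.toPreGNS a)
  rw [g.preGNS_inner_def] at h0
  have e1 : g (star (g.ofPreGNS (g.toPreGNS (1 : D))) * g.ofPreGNS (g.toPreGNS a)) = f a := by
    change f (star 1 * a) = _
    rw [star_one, one_mul]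
  have e2 : ‖g.toPreGNS (1 : D)‖ = 1 := by
    rw [g.preGNS_norm_def]
    change √(f (star 1 * 1)).re = 1
    rw [star_one, one_mul, hf.2.2.1, Complex.one_re, Real.sqrt_one]
  have e3 : ‖g.toPreGNS a‖ ≤ ‖a‖ := by
    rw [g.preGNS_norm_def]
    change √(f (star a * a)).re ≤ _
    exact Real.sqrt_le_iff.2 ⟨norm_nonneg _, TS.nn hf a⟩
  rw [e1, e2, one_mul] at h0
  exact h0.trans e3

/-- as a continuous linear map -/
noncomputable def TS.clm (hf : f ∈ TS D) : D →L[ℂ] ℂ :=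
  (TS.lin hf).mkContinuous 1 fun a => by rw [one_mul]; exact TS.bd hf a

@[simp] theorem TS.clm_apply (hf : f ∈ TS D) (a : D) : TS.clm hf a = f a := rfl

theorem TS.isTrace (hf : f ∈ TS D) : IsTrace (TS.clm hf) := ⟨hf.2.2.1, hf.2.2.2.1, hf.2.2.2.2⟩

theorem TS.of {φ : D →L[ℂ] ℂ} (h : IsTrace φ) : (φ : D → ℂ) ∈ TS D :=
  ⟨map_add φ, fun c a => by rw [map_smul, smul_eq_mul], h.one, h.pos, h.tr⟩

theorem TS.compact : IsCompact (TS D) := by
  have h1 : IsCompact (Set.univ.pi fun a : D => Metric.closedBall (0 : ℂ) ‖a‖) :=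
    isCompact_univ_pi fun a => isCompact_closedBall _ _
  refine h1.of_isClosed_subset ?_ fun f hf a _ => by
    rw [mem_closedBall_zero_iff]; exact TS.bd hf a
  simp only [TS, Set.setOf_and, Set.setOf_forall]
  refine IsClosed.inter ?_ (IsClosed.inter ?_ (IsClosed.inter ?_ (IsClosed.inter ?_ ?_)))
  · exact isClosed_iInter fun a => isClosed_iInter fun b => isClosed_eq (by fun_prop) (by fun_prop)
  · exact isClosed_iInter fun a => isClosed_iInter fun b => isClosed_eq (by fun_prop) (by fun_prop)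
  · exact isClosed_eq (by fun_prop) (by fun_prop)
  · exact isClosed_iInter fun a => isClosed_le (by fun_prop) (by fun_prop)
  · exact isClosed_iInter fun a => isClosed_iInter fun b => isClosed_eq (by fun_prop) (by fun_prop)

theorem TS.convex : Convex ℝ (TS D) := by
  intro f hf g hg a b ha hb hab
  have e : ∀ x, (a • f + b • g) x = (a : ℂ) * f x + (b : ℂ) * g x := fun x => by
    simp [Complex.real_smul]
  have hab' : (a : ℂ) + (b : ℂ) = 1 := by exact_mod_cast hab
  refine ⟨fun x y => ?_, fun c x => ?_, ?_, fun x => ?_, fun x y => ?_⟩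
  · rw [e, e, e, hf.1, hg.1]; ring
  · rw [e, e, hf.2.1, hg.2.1]; ring
  · rw [e, hf.2.2.1, hg.2.2.1, mul_one, mul_one, hab']
  · rw [e]
    exact add_nonneg (mul_nonneg (Complex.zero_le_real.2 ha) (hf.2.2.2.1 x))
      (mul_nonneg (Complex.zero_le_real.2 hb) (hg.2.2.2.1 x))
  · rw [e, e, hf.2.2.2.2, hg.2.2.2.2]

/-- an extreme tracial state equals every tracial state it dominates -/
theorem TS.ext_eq (hf : f ∈ (TS D).extremePoints ℝ) {g : D → ℂ} (hg : g ∈ TS D) {C : ℝ}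
    (h : ∀ a, (g (star a * a)).re ≤ C * (f (star a * a)).re) : g = f := by
  obtain ⟨hf1, hf2⟩ := mem_extremePoints.1 hf
  set C' : ℝ := max C 1 + 1 with hC'
  have hC1 : 1 < C' := by rw [hC']; linarith [le_max_right C 1]
  have hCC : C ≤ C' := by rw [hC']; linarith [le_max_left C 1]
  have him : ∀ {φ : D → ℂ}, φ ∈ TS D → ∀ a, 0 ≤ (φ (star a * a)).re ∧ (φ (star a * a)).im = 0 :=
    fun hφ a => by
      have := Complex.nonneg_iff.1 (hφ.2.2.2.1 a)
      exact ⟨this.1, this.2.symm⟩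
  let k : D → ℂ := fun x => ((C' : ℂ) * f x - g x) / ((C' : ℂ) - 1)
  have hne : ((C' : ℂ) - 1) ≠ 0 := by
    rw [← Complex.ofReal_one, ← Complex.ofReal_sub]
    exact Complex.ofReal_ne_zero.2 (by linarith)
  have hk : k ∈ TS D := by
    refine ⟨fun x y => ?_, fun c x => ?_, ?_, fun x => ?_, fun x y => ?_⟩
    · simp only [k, hf1.1, hg.1]; ring
    · simp only [k, hf1.2.1, hg.2.1]; ring
    · simp only [k, hf1.2.2.1, hg.2.2.1, mul_one]; exact div_self hne
    · have e1 : k (star x * x) = (((C' * (f (star x * x)).re - (g (star x * x)).re) / (C' - 1) : ℝ) : ℂ) := by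
        have a1 : f (star x * x) = ((f (star x * x)).re : ℂ) := Complex.ext rfl (him hf1 x).2
        have a2 : g (star x * x) = ((g (star x * x)).re : ℂ) := Complex.ext rfl (him hg x).2
        simp only [k]
        rw [a1, a2]
        push_cast
        simp
      rw [e1]
      refine Complex.zero_le_real.2 (div_nonneg ?_ (by linarith))
      have := h x
      have h2 := mul_le_mul_of_nonneg_right hCC (him hf1 x).1
      linarith
    · simp only [k, hf1.2.2.2.2 x y, hg.2.2.2.2 x y]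
  refine hf2 g hg k hk ⟨1 / C', 1 - 1 / C', by positivity, ?_, by ring, ?_⟩ |>.1
  · rw [sub_pos, div_lt_one (by linarith)]; exact hC1
  · funext x
    have hC0 : (C' : ℂ) ≠ 0 := Complex.ofReal_ne_zero.2 (by linarith)
    simp only [k, Pi.add_apply, Pi.smul_apply, Complex.real_smul]
    push_cast
    field_simp
    ring

end

end Pool.Agent.Helper71q
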